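import Mathlib

namespace MYoung
open MeasureTheory Set

theorem bump_bound (f : ContDiffBump (0 : Fin 3 → ℝ)) :
    ∃ M : ℝ, 0 ≤ M ∧ ∀ x, ‖fderiv ℝ (f : (Fin 3 → ℝ) → ℝ) x‖ ≤ M := by
  have h1 : ContDiff ℝ 1 (f : (Fin 3 → ℝ) → ℝ) := f.contDiff
  obtain ⟨C, hC⟩ := h1.lipschitzWith_of_hasCompactSupport f.hasCompactSupport (by norm_num)
  exact ⟨C, C.2, fun x => norm_fderiv_le_of_lipschitz ℝ hC⟩

theorem scaled_deriv (f : ContDiffBump (0 : Fin 3 → ℝ)) (M : ℝ)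
    (hM : ∀ x, ‖fderiv ℝ (f : (Fin 3 → ℝ) → ℝ) x‖ ≤ M) (c : Fin 3 → ℝ) (R : ℝ) (hR : 0 < R)
    (x v : Fin 3 → ℝ) : |fderiv ℝ (fun x => f ((1/R) • (x - c))) x v| ≤ M / R * ‖v‖ := by
  have hf : HasFDerivAt (f : (Fin 3 → ℝ) → ℝ) (fderiv ℝ (f : (Fin 3 → ℝ) → ℝ) ((1/R) • (x - c)))
      ((1/R) • (x - c)) := by
    have h1 : ContDiff ℝ 1 (f : (Fin 3 → ℝ) → ℝ) := f.contDiff
    exact (h1.differentiable (by norm_num) _).hasFDerivAt
  have hg : HasFDerivAt (fun x : Fin 3 → ℝ => (1/R) • (x - c)) ((1/R) • ContinuousLinearMap.id ℝ (Fin 3 → ℝ)) x :=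
    ((hasFDerivAt_id x).sub_const c).const_smul (1/R)
  have hcomp := hf.comp x hg
  have e : fderiv ℝ (fun x => f ((1/R) • (x - c))) x = _ := hcomp.fderiv
  rw [e]
  rw [ContinuousLinearMap.comp_apply, ContinuousLinearMap.smul_apply, ContinuousLinearMap.id_apply,
    map_smul, smul_eq_mul, abs_mul, abs_of_pos (by positivity : 0 < 1 / R)]
  have h2 := (fderiv ℝ (f : (Fin 3 → ℝ) → ℝ) ((1/R) • (x - c))).le_opNorm v
  rw [Real.norm_eq_abs] at h2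
  have h3 := mul_le_mul_of_nonneg_right (hM ((1/R) • (x - c))) (norm_nonneg v)
  calc 1 / R * |(fderiv ℝ (f : (Fin 3 → ℝ) → ℝ) ((1/R) • (x - c))) v| ≤ 1 / R * (M * ‖v‖) :=
        mul_le_mul_of_nonneg_left (h2.trans h3) (by positivity)
    _ = M / R * ‖v‖ := by ring

theorem scaled_contDiff (f : ContDiffBump (0 : Fin 3 → ℝ)) (c : Fin 3 → ℝ) (R : ℝ) :
    ContDiff ℝ ((⊤ : ℕ∞) : WithTop ℕ∞) (fun x => f ((1/R) • (x - c))) := by
  have h1 : ContDiff ℝ ((⊤ : ℕ∞) : WithTop ℕ∞) (f : (Fin 3 → ℝ) → ℝ) := f.contDiff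
  exact h1.comp ((contDiff_id.sub contDiff_const).const_smul (1/R))

theorem scaled_dist (c : Fin 3 → ℝ) (R : ℝ) (hR : 0 < R) (x : Fin 3 → ℝ) :
    dist ((1/R) • (x - c)) 0 = dist x c / R := by
  rw [dist_zero_right, norm_smul, Real.norm_of_nonneg (by positivity), dist_eq_norm]
  ring

/-- Scaled bump functions with uniform derivative bounds. -/
theorem bumps : ∃ C : ℝ, 0 < C ∧
    (∀ (c : Fin 3 → ℝ) (R : ℝ), 0 < R → ∃ ζ : (Fin 3 → ℝ) → ℝ,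
      ContDiff ℝ ((⊤ : ℕ∞) : WithTop ℕ∞) ζ ∧ (∀ x, 0 ≤ ζ x ∧ ζ x ≤ 1) ∧
      (∀ x, dist x c ≤ R / 8 → ζ x = 1) ∧ (∀ x, R / 4 ≤ dist x c → ζ x = 0) ∧
      (∀ x v, |fderiv ℝ ζ x v| ≤ C / R * ‖v‖)) ∧
    (∀ (R : ℝ), 0 < R → ∃ ζ : (Fin 3 → ℝ) → ℝ,
      ContDiff ℝ ((⊤ : ℕ∞) : WithTop ℕ∞) ζ ∧ (∀ x, 0 ≤ ζ x ∧ ζ x ≤ 1) ∧
      (∀ x, dist x 0 ≤ R → ζ x = 0) ∧ (∀ x, 2 * R ≤ dist x 0 → ζ x = 1) ∧
      (∀ x v, |fderiv ℝ ζ x v| ≤ C / R * ‖v‖)) := by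
  let f0 : ContDiffBump (0 : Fin 3 → ℝ) := ⟨1/8, 1/4, by norm_num, by norm_num⟩
  let f1 : ContDiffBump (0 : Fin 3 → ℝ) := ⟨1, 2, by norm_num, by norm_num⟩
  obtain ⟨M0, hM0, hb0⟩ := bump_bound f0
  obtain ⟨M1, hM1, hb1⟩ := bump_bound f1
  refine ⟨max M0 M1 + 1, by positivity, ?_, ?_⟩
  · intro c R hR
    refine ⟨fun x => f0 ((1/R) • (x - c)), scaled_contDiff f0 c R, fun x => ⟨f0.nonneg, f0.le_one⟩, ?_, ?_, ?_⟩
    · intro x hx
      apply f0.one_of_mem_closedBall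
      rw [Metric.mem_closedBall, scaled_dist c R hR]
      show _ ≤ (1/8 : ℝ)
      rw [div_le_iff₀ hR]; linarith
    · intro x hx
      apply f0.zero_of_le_dist
      rw [scaled_dist c R hR]
      show (1/4 : ℝ) ≤ _
      rw [le_div_iff₀ hR]; linarith
    · intro x v
      refine (scaled_deriv f0 M0 hb0 c R hR x v).trans ?_
      apply mul_le_mul_of_nonneg_right _ (norm_nonneg v)
      apply div_le_div_of_nonneg_right _ hR.le
      linarith [le_max_left M0 M1]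
  · intro R hR
    refine ⟨fun x => 1 - f1 ((1/R) • (x - 0)), contDiff_const.sub (scaled_contDiff f1 0 R), ?_, ?_, ?_, ?_⟩
    · intro x
      have h1 := f1.nonneg (x := (1/R) • (x - 0))
      have h2 := f1.le_one (x := (1/R) • (x - 0))
      constructor <;> linarith
    · intro x hx
      have : f1 ((1/R) • (x - 0)) = 1 := by
        apply f1.one_of_mem_closedBall
        rw [Metric.mem_closedBall, scaled_dist 0 R hR]
        show _ ≤ (1 : ℝ)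
        rw [div_le_iff₀ hR]; linarith
      show 1 - f1 ((1/R) • (x - 0)) = 0
      rw [this, sub_self]
    · intro x hx
      have : f1 ((1/R) • (x - 0)) = 0 := by
        apply f1.zero_of_le_dist
        rw [scaled_dist 0 R hR]
        show (2 : ℝ) ≤ _
        rw [le_div_iff₀ hR]; linarith
      show 1 - f1 ((1/R) • (x - 0)) = 1
      rw [this, sub_zero]
    · intro x v
      have e : fderiv ℝ (fun x => 1 - f1 ((1/R) • (x - 0))) x = - fderiv ℝ (fun x => f1 ((1/R) • (x - 0))) x := by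
        rw [fderiv_const_sub]
      rw [e, ContinuousLinearMap.neg_apply, abs_neg]
      refine (scaled_deriv f1 M1 hb1 0 R hR x v).trans ?_
      apply mul_le_mul_of_nonneg_right _ (norm_nonneg v)
      apply div_le_div_of_nonneg_right _ hR.le
      linarith [le_max_right M0 M1]


end MYoung
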