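import Mathlib

namespace MYoung
open MeasureTheory Set

/-- Finite family of cells adapted to the scale function. -/
theorem cells
    (hnet : ∀ (r : (Fin 3 → ℝ) → ℝ) (r0 : ℝ), 0 < r0 → (∀ x, r0 ≤ r x) →
      (∀ x y, r y ≤ r x + dist x y) →
      ∃ u : Set (Fin 3 → ℝ), (∀ x, ∃ c ∈ u, dist x c ≤ r c / 8) ∧
      (∀ x, {c ∈ u | dist x c ≤ r c / 3}.Finite ∧ {c ∈ u | dist x c ≤ r c / 3}.ncard ≤ 4096) ∧
      (∀ R : ℝ, {c ∈ u | dist c 0 ≤ R}.Finite))
    (hbump : ∃ C : ℝ, 0 < C ∧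
    (∀ (c : Fin 3 → ℝ) (R : ℝ), 0 < R → ∃ ζ : (Fin 3 → ℝ) → ℝ,
      ContDiff ℝ ((⊤ : ℕ∞) : WithTop ℕ∞) ζ ∧ (∀ x, 0 ≤ ζ x ∧ ζ x ≤ 1) ∧
      (∀ x, dist x c ≤ R / 8 → ζ x = 1) ∧ (∀ x, R / 4 ≤ dist x c → ζ x = 0) ∧
      (∀ x v, |fderiv ℝ ζ x v| ≤ C / R * ‖v‖)) ∧
    (∀ (R : ℝ), 0 < R → ∃ ζ : (Fin 3 → ℝ) → ℝ,
      ContDiff ℝ ((⊤ : ℕ∞) : WithTop ℕ∞) ζ ∧ (∀ x, 0 ≤ ζ x ∧ ζ x ≤ 1) ∧
      (∀ x, dist x 0 ≤ R → ζ x = 0) ∧ (∀ x, 2 * R ≤ dist x 0 → ζ x = 1) ∧
      (∀ x v, |fderiv ℝ ζ x v| ≤ C / R * ‖v‖))) :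
    ∃ C : ℝ, 0 < C ∧ ∀ (ρ : (Fin 3 → ℝ) → ℝ), (∀ x, 0 ≤ ρ x) → Integrable ρ →
      ∀ (ε : ℝ), 0 < ε → ∀ (r : (Fin 3 → ℝ) → ℝ) (r0 : ℝ), 0 < r0 → (∀ x, r0 ≤ r x) →
      (∀ x y, r y ≤ r x + dist x y) →
      (∀ x, ∫ y in Metric.closedBall x (r x), ρ y = ε) →
      ∃ (n : ℕ) (ζ : Fin n → (Fin 3 → ℝ) → ℝ),
        (∀ i, ContDiff ℝ ((⊤ : ℕ∞) : WithTop ℕ∞) (ζ i)) ∧
        (∀ i x, 0 ≤ ζ i x ∧ ζ i x ≤ 1) ∧
        (∀ x, ∃ i, ζ i x = 1) ∧
        (∀ x, {i | x ∈ tsupport (ζ i)}.ncard ≤ 4097) ∧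
        (∀ i, ∫ y in tsupport (ζ i), ρ y ≤ ε) ∧
        (∀ i x v, |fderiv ℝ (ζ i) x v| ≤ C / r x * ‖v‖) := by
  classical
  obtain ⟨C0, hC0, hb1, hb2⟩ := hbump
  refine ⟨3 * C0, by positivity, ?_⟩
  intro ρ hρ0 hρi ε hε r r0 hr0 hrr0 hrl hrε
  -- tail
  have htail : ∃ R : ℝ, 0 < R ∧ r 0 ≤ R ∧ ∫ y in {y : Fin 3 → ℝ | R ≤ dist y 0}, ρ y ≤ ε := by
    have hmeas : ∀ n : ℕ, MeasurableSet {y : Fin 3 → ℝ | (n : ℝ) ≤ dist y 0} := fun n =>
      (isClosed_le continuous_const (by fun_prop)).measurableSet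
    have hanti : Antitone (fun n : ℕ => {y : Fin 3 → ℝ | (n : ℝ) ≤ dist y 0}) := by
      intro m n hmn y hy
      have h1 : (m : ℝ) ≤ n := by exact_mod_cast hmn
      exact h1.trans hy
    have ht := tendsto_setIntegral_of_antitone (μ := volume) (f := ρ) hmeas hanti
      ⟨0, hρi.integrableOn⟩
    have hempty : (⋂ n : ℕ, {y : Fin 3 → ℝ | (n : ℝ) ≤ dist y 0}) = ∅ := by
      ext y
      simp only [mem_iInter, mem_ofPred_eq, mem_empty_iff_false, iff_false, not_forall, not_le]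
      exact exists_nat_gt _
    rw [hempty] at ht
    simp only [Measure.restrict_empty, integral_zero_measure] at ht
    have hev1 := ht.eventually (ge_mem_nhds hε)
    have hev2 : ∀ᶠ n : ℕ in Filter.atTop, max 1 (r 0) ≤ (n : ℝ) :=
      (tendsto_natCast_atTop_atTop (R := ℝ)).eventually (Filter.eventually_ge_atTop _)
    obtain ⟨n, hn1, hn2⟩ := (hev1.and hev2).exists
    exact ⟨n, lt_of_lt_of_le one_pos ((le_max_left _ _).trans hn2), (le_max_right _ _).trans hn2, hn1⟩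
  obtain ⟨R, hR, hrR, hRtail⟩ := htail
  obtain ⟨u, hu1, hu2, hu3⟩ := hnet r r0 hr0 hrr0 hrl
  have hrpos : ∀ x, 0 < r x := fun x => lt_of_lt_of_le hr0 (hrr0 x)
  have hFfin : {c ∈ u | ∃ x : Fin 3 → ℝ, dist x 0 ≤ 2 * R ∧ dist x c ≤ r c / 4}.Finite := by
    refine (hu3 ((4 / 3) * (2 * R + r 0 / 4))).subset ?_
    rintro c ⟨hc, x, hx1, hx2⟩
    refine ⟨hc, ?_⟩
    have h1 := hrl 0 c
    have h2 := dist_triangle c x 0
    rw [dist_comm c x] at h2
    rw [dist_comm (0 : Fin 3 → ℝ) c] at h1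
    linarith
  set F : Set (Fin 3 → ℝ) := {c ∈ u | ∃ x : Fin 3 → ℝ, dist x 0 ≤ 2 * R ∧ dist x c ≤ r c / 4}
    with hF
  haveI : Fintype F := hFfin.fintype
  choose Z hZ1 hZ2 hZ3 hZ4 hZ5 using fun c : F => hb1 c.1 (r c.1) (hrpos c.1)
  obtain ⟨Y, hY1, hY2, hY3, hY4, hY5⟩ := hb2 R hR
  -- supports
  have hZs : ∀ c : F, tsupport (Z c) ⊆ Metric.closedBall c.1 (r c.1 / 4) := by
    intro c
    apply closure_minimal _ Metric.isClosed_closedBall
    intro x hx
    by_contra hcon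
    rw [Metric.mem_closedBall, not_le] at hcon
    exact hx (hZ4 c x hcon.le)
  have hYs : tsupport Y ⊆ {y : Fin 3 → ℝ | R ≤ dist y 0} := by
    apply closure_minimal _ (isClosed_le continuous_const (by fun_prop))
    intro x hx
    by_contra hcon
    rw [mem_ofPred_eq, not_le] at hcon
    exact hx (hY3 x hcon.le)
  set e := Fintype.equivFin (Option F) with he
  refine ⟨Fintype.card (Option F), fun i => (e.symm i).elim Y Z, ?_, ?_, ?_, ?_, ?_, ?_⟩
  · intro i
    change ContDiff ℝ ((⊤ : ℕ∞) : WithTop ℕ∞) ((e.symm i).elim Y Z)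
    rcases e.symm i with _ | c
    · exact hY1
    · exact hZ1 c
  · intro i x
    change 0 ≤ (e.symm i).elim Y Z x ∧ (e.symm i).elim Y Z x ≤ 1
    rcases e.symm i with _ | c
    · exact hY2 x
    · exact hZ2 c x
  · intro x
    by_cases hx : 2 * R ≤ dist x 0
    · refine ⟨e none, ?_⟩
      simp only [Equiv.symm_apply_apply]
      exact hY4 x hx
    · obtain ⟨c, hc, hxc⟩ := hu1 x
      have hcF : c ∈ F := ⟨hc, x, (le_of_not_ge hx), by linarith [hrpos c]⟩
      refine ⟨e (some ⟨c, hcF⟩), ?_⟩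
      simp only [Equiv.symm_apply_apply]
      exact hZ3 ⟨c, hcF⟩ x hxc
  · intro x
    obtain ⟨hfin, hcard⟩ := hu2 x
    have hinj : Function.Injective
        (fun i : Fin (Fintype.card (Option F)) => (e.symm i).map (Subtype.val : F → _)) :=
      (Option.map_injective Subtype.val_injective).comp e.symm.injective
    have hT : (insert (none : Option (Fin 3 → ℝ)) (some '' {c ∈ u | dist x c ≤ r c / 3})).Finite :=
      (hfin.image _).insert _
    have h1 := Set.ncard_le_ncard_of_injOn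
      (s := {i | x ∈ tsupport ((fun i => (e.symm i).elim Y Z) i)})
      (t := insert (none : Option (Fin 3 → ℝ)) (some '' {c ∈ u | dist x c ≤ r c / 3}))
      (fun i : Fin (Fintype.card (Option F)) => (e.symm i).map (Subtype.val : F → _)) (by
        intro i hi
        simp only [mem_ofPred_eq] at hi
        change (e.symm i).map (Subtype.val : F → _) ∈ _
        rcases hei : e.symm i with _ | c
        · exact Or.inl rfl
        · rw [hei] at hi
          right
          refine ⟨c.1, ⟨c.2.1, ?_⟩, rfl⟩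
          have h2 := hZs c hi
          rw [Metric.mem_closedBall] at h2
          linarith [hrpos c.1]) hinj.injOn hT
    refine h1.trans ?_
    refine (Set.ncard_insert_le _ _).trans ?_
    rw [Set.ncard_image_of_injective _ (Option.some_injective _)]
    omega
  · intro i
    change ∫ y in tsupport ((e.symm i).elim Y Z), ρ y ≤ ε
    rcases e.symm i with _ | c
    · refine le_trans ?_ hRtail
      exact setIntegral_mono_set hρi.integrableOn (Filter.Eventually.of_forall hρ0)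
        (HasSubset.Subset.eventuallyLE hYs)
    · rw [← hrε c.1]
      apply setIntegral_mono_set hρi.integrableOn (Filter.Eventually.of_forall hρ0)
      apply HasSubset.Subset.eventuallyLE
      exact (hZs c).trans (Metric.closedBall_subset_closedBall (by linarith [hrpos c.1]))
  · intro i x v
    change |fderiv ℝ ((e.symm i).elim Y Z) x v| ≤ 3 * C0 / r x * ‖v‖
    have hrx := hrpos x
    rcases e.symm i with _ | c
    · change |fderiv ℝ Y x v| ≤ 3 * C0 / r x * ‖v‖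
      by_cases hx : 2 * R < dist x 0
      · have hopen : IsOpen {y : Fin 3 → ℝ | 2 * R < dist y 0} :=
          isOpen_lt continuous_const (by fun_prop)
        have heq : Y =ᶠ[nhds x] fun _ => (1 : ℝ) := by
          filter_upwards [hopen.mem_nhds hx] with y hy
          exact hY4 y (le_of_lt hy)
        rw [heq.fderiv_eq]
        simp only [fderiv_fun_const, Pi.zero_apply, ContinuousLinearMap.zero_apply, abs_zero]
        positivity
      · refine (hY5 x v).trans ?_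
        apply mul_le_mul_of_nonneg_right _ (norm_nonneg v)
        rw [div_le_div_iff₀ hR hrx]
        have h1 := hrl 0 x
        rw [dist_comm (0 : Fin 3 → ℝ) x] at h1
        have h2 : r x ≤ 3 * R := by linarith [le_of_not_gt hx]
        nlinarith
    · change |fderiv ℝ (Z c) x v| ≤ 3 * C0 / r x * ‖v‖
      by_cases hx : x ∈ tsupport (Z c)
      · refine (hZ5 c x v).trans ?_
        apply mul_le_mul_of_nonneg_right _ (norm_nonneg v)
        rw [div_le_div_iff₀ (hrpos c.1) hrx]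
        have h1 := hrl c.1 x
        have h2 := hZs c hx
        rw [Metric.mem_closedBall] at h2
        rw [dist_comm c.1 x] at h1
        have h3 : r x ≤ 3 * r c.1 := by linarith [hrpos c.1]
        nlinarith
      · have h1 : fderiv ℝ (Z c) x = 0 := by
          by_contra hne
          exact hx (support_fderiv_subset ℝ hne)
        rw [h1]
        simp only [ContinuousLinearMap.zero_apply, abs_zero]
        positivity


end MYoung
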