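import Mathlib

namespace MYoung
open MeasureTheory Set

/-- `g` is the weak `k`-th partial derivative of `f` on `R^3` (test functions: smooth, compactly
supported, real valued). -/
def WeakPartial {𝕜 : Type} [RCLike 𝕜] (k : Fin 3) (f g : (Fin 3 → ℝ) → 𝕜) : Prop :=
  ∀ ψ : (Fin 3 → ℝ) → ℝ, ContDiff ℝ ((⊤ : ℕ∞) : WithTop ℕ∞) ψ → HasCompactSupport ψ →
    (∫ x, (fderiv ℝ ψ x (Pi.single k 1)) • f x) = - (∫ x, ψ x • g x)

/-- `φ 0, …, φ (N-1)` is an admissible family for the density `ρ`: the functions `φ i σ`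
(`σ` the spin variable) are square integrable with square integrable weak partial derivatives
`Dφ i σ k`, they are orthonormal, and their density is `ρ` almost everywhere. -/
structure Admissible (q N : ℕ) (ρ : (Fin 3 → ℝ) → ℝ) (φ : Fin N → Fin q → (Fin 3 → ℝ) → ℂ)
    (Dφ : Fin N → Fin q → Fin 3 → (Fin 3 → ℝ) → ℂ) : Prop where
  memLp : ∀ i σ, MemLp (φ i σ) 2
  memLp_grad : ∀ i σ k, MemLp (Dφ i σ k) 2
  weak : ∀ i σ k, WeakPartial k (φ i σ) (Dφ i σ k)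
  orthonormal : ∀ i j,
    ∑ σ, (∫ x, (starRingEnd ℂ) (φ i σ x) * φ j σ x) = if i = j then 1 else 0
  density : ∀ᵐ x, ∑ i, ∑ σ, ‖φ i σ x‖ ^ 2 = ρ x

/-- The kinetic energy of a family with weak partial derivatives `Dφ`. -/
noncomputable def kinetic (q N : ℕ) (Dφ : Fin N → Fin q → Fin 3 → (Fin 3 → ℝ) → ℂ) : ENNReal :=
  ∑ i, ∑ σ, ∑ k, (∫⁻ x, ‖Dφ i σ k x‖ₑ ^ 2)

/-- The classical (Thomas-Fermi) constant for the operator `-Δ` in three dimensions. -/
noncomputable def Kc : ℝ := 3 / 5 * (6 * Real.pi ^ 2) ^ (2 / 3 : ℝ)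

end MYoung
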