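import Mathlib
import Pool.Agent.Helper343.MY.Defs

namespace MYoung
open MeasureTheory Set

theorem enorm_sq_cast (a : ℝ) : ‖((a : ℝ) : ℂ)‖ₑ ^ 2 = ENNReal.ofReal (a ^ 2) := by
  rw [← ofReal_norm, Complex.norm_real, ← ENNReal.ofReal_pow (norm_nonneg _),
    Real.norm_eq_abs, sq_abs]

theorem enorm_sq_real (a : ℝ) : ‖a‖ₑ ^ 2 = ENNReal.ofReal (a ^ 2) := by
  rw [← ofReal_norm, ← ENNReal.ofReal_pow (norm_nonneg _),
    Real.norm_eq_abs, sq_abs]

theorem channel_alg {N : ℕ} (u : Fin N → ℝ) (d : Fin N → Fin 3 → ℝ) (g : Fin 3 → ℝ) (f r : ℝ)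
    (hf : f ^ 2 = r) (h1 : ∑ j, u j ^ 2 = 1) (h2 : ∀ k, ∑ j, u j * d j k = 0) :
    ∑ j, ∑ k, (g k * u j + f * d j k) ^ 2 = r * ∑ j, ∑ k, d j k ^ 2 + ∑ k, g k ^ 2 := by
  have e1 : ∀ j, ∑ k, (g k * u j + f * d j k) ^ 2 =
      (∑ k, g k ^ 2) * u j ^ 2 + (∑ k, 2 * f * g k * (u j * d j k)) + r * ∑ k, d j k ^ 2 := by
    intro j
    rw [Finset.sum_mul, Finset.mul_sum, ← Finset.sum_add_distrib, ← Finset.sum_add_distrib]
    apply Finset.sum_congr rfl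
    intro k _
    rw [← hf]
    ring
  simp only [e1]
  rw [Finset.sum_add_distrib, Finset.sum_add_distrib, ← Finset.mul_sum, h1, mul_one,
    ← Finset.mul_sum, Finset.sum_comm]
  have e2 : ∀ k : Fin 3, ∑ j, 2 * f * g k * (u j * d j k) = 0 := by
    intro k
    rw [← Finset.mul_sum, h2, mul_zero]
  simp only [e2, Finset.sum_const_zero]
  ring

/-- One spin channel: from the fields `U j` to orthonormal functions. -/
theorem channel
    (hprod : ∀ (k : Fin 3) (f g : (Fin 3 → ℝ) → ℝ), MemLp f 2 → MemLp g 2 →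
      (∀ ψ : (Fin 3 → ℝ) → ℝ, ContDiff ℝ ((⊤ : ℕ∞) : WithTop ℕ∞) ψ → HasCompactSupport ψ →
        ∫ x, (fderiv ℝ ψ x (Pi.single k 1)) • f x = - ∫ x, ψ x • g x) →
      ∀ (U : (Fin 3 → ℝ) → ℝ), ContDiff ℝ ((⊤ : ℕ∞) : WithTop ℕ∞) U →
      ∀ ψ : (Fin 3 → ℝ) → ℝ, ContDiff ℝ ((⊤ : ℕ∞) : WithTop ℕ∞) ψ → HasCompactSupport ψ →
      ∫ x, (fderiv ℝ ψ x (Pi.single k 1)) • (((f x * U x : ℝ)) : ℂ) =
        - ∫ x, ψ x • (((g x * U x + f x * fderiv ℝ U x (Pi.single k 1) : ℝ)) : ℂ))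
    (N : ℕ) (ρ : (Fin 3 → ℝ) → ℝ) (h0 : ∀ x, 0 ≤ ρ x) (hi : Integrable ρ)
    (g : Fin 3 → (Fin 3 → ℝ) → ℝ) (hg : ∀ k, MemLp (g k) 2)
    (hw : ∀ k, WeakPartial k (fun x => Real.sqrt (ρ x)) (g k))
    (U : Fin N → (Fin 3 → ℝ) → ℝ) (hU : ∀ j, ContDiff ℝ ((⊤ : ℕ∞) : WithTop ℕ∞) (U j))
    (h1 : ∀ x, ∑ j, U j x ^ 2 = 1)
    (horth : ∀ j k, ∫ x, ρ x * (U j x * U k x) = if j = k then 1 else 0)
    (hB : ∃ B : ℝ, ∀ j x v, |fderiv ℝ (U j) x v| ≤ B * ‖v‖)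
    (hUdU : ∀ x v, ∑ j, U j x * fderiv ℝ (U j) x v = 0)
    (E : ENNReal)
    (hE : ∫⁻ x, ENNReal.ofReal (ρ x * ∑ j, ∑ k, (fderiv ℝ (U j) x (Pi.single k 1)) ^ 2) ≤ E) :
    ∃ (φ : Fin N → (Fin 3 → ℝ) → ℂ) (Dφ : Fin N → Fin 3 → (Fin 3 → ℝ) → ℂ),
      (∀ j, MemLp (φ j) 2) ∧ (∀ j k, MemLp (Dφ j k) 2) ∧
      (∀ j k, WeakPartial k (φ j) (Dφ j k)) ∧
      (∀ i j, ∫ x, (starRingEnd ℂ) (φ i x) * φ j x = if i = j then 1 else 0) ∧
      (∀ x, ∑ j, ‖φ j x‖ ^ 2 = ρ x) ∧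
      ∑ j, ∑ k, ∫⁻ x, ‖Dφ j k x‖ₑ ^ 2 ≤ E + ∑ k, ∫⁻ x, ‖g k x‖ₑ ^ 2 := by
  obtain ⟨f, hfdef⟩ : ∃ f : (Fin 3 → ℝ) → ℝ, f = fun x => Real.sqrt (ρ x) := ⟨_, rfl⟩
  have hfsq : ∀ x, f x ^ 2 = ρ x := fun x => by rw [hfdef]; exact Real.sq_sqrt (h0 x)
  have hfm : AEStronglyMeasurable f volume := by
    rw [hfdef]
    exact Real.continuous_sqrt.comp_aestronglyMeasurable hi.1
  have hf : MemLp f 2 := by
    rw [memLp_two_iff_integrable_sq hfm]
    exact hi.congr (Filter.Eventually.of_forall fun x => (hfsq x).symm)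
  have hU1 : ∀ j x, |U j x| ≤ 1 := by
    intro j x
    have h2 : U j x ^ 2 ≤ ∑ i, U i x ^ 2 :=
      Finset.single_le_sum (f := fun i => U i x ^ 2) (fun i _ => sq_nonneg _) (Finset.mem_univ j)
    rw [h1] at h2
    exact abs_le_one_iff_mul_self_le_one.2 (by nlinarith)
  obtain ⟨B, hB⟩ := hB
  have hUc : ∀ j, Continuous (U j) := fun j => (hU j).continuous
  have hdc : ∀ j (v : Fin 3 → ℝ), Continuous fun x => fderiv ℝ (U j) x v := by
    intro j v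
    exact ((hU j).continuous_fderiv (by simp)).clm_apply continuous_const
  have m1 : ∀ j, MemLp (fun x => f x * U j x) 2 := by
    intro j
    apply hf.of_le_mul (c := 1) (hfm.mul (hUc j).aestronglyMeasurable)
    refine Filter.Eventually.of_forall fun x => ?_
    rw [Pi.mul_apply, norm_mul, one_mul]
    exact mul_le_of_le_one_right (norm_nonneg _) (hU1 j x)
  have m2 : ∀ j k, MemLp (fun x => g k x * U j x) 2 := by
    intro j k
    apply (hg k).of_le_mul (c := 1) ((hg k).1.mul (hUc j).aestronglyMeasurable)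
    refine Filter.Eventually.of_forall fun x => ?_
    rw [Pi.mul_apply, norm_mul, one_mul]
    exact mul_le_of_le_one_right (norm_nonneg _) (hU1 j x)
  have m3 : ∀ j (k : Fin 3), MemLp (fun x => f x * fderiv ℝ (U j) x (Pi.single k 1)) 2 := by
    intro j k
    apply hf.of_le_mul (c := B * ‖(Pi.single k 1 : Fin 3 → ℝ)‖)
      (hfm.mul (hdc j _).aestronglyMeasurable)
    refine Filter.Eventually.of_forall fun x => ?_
    rw [Pi.mul_apply, norm_mul, mul_comm]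
    exact mul_le_mul_of_nonneg_right (hB j x _) (norm_nonneg _)
  have m4 : ∀ j (k : Fin 3), MemLp (fun x => g k x * U j x +
      f x * fderiv ℝ (U j) x (Pi.single k 1)) 2 := fun j k => (m2 j k).add (m3 j k)
  refine ⟨fun j x => ((f x * U j x : ℝ) : ℂ),
    fun j k x => ((g k x * U j x + f x * fderiv ℝ (U j) x (Pi.single k 1) : ℝ) : ℂ),
    fun j => (m1 j).ofReal, fun j k => (m4 j k).ofReal, ?_, ?_, ?_, ?_⟩
  · intro j k
    have hw' := hw k
    rw [← hfdef] at hw'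
    exact hprod k f (g k) hf (hg k) hw' (U j) (hU j)
  · intro i j
    have e : ∀ x, (starRingEnd ℂ) ((f x * U i x : ℝ) : ℂ) * ((f x * U j x : ℝ) : ℂ) =
        ((ρ x * (U i x * U j x) : ℝ) : ℂ) := by
      intro x
      rw [Complex.conj_ofReal, ← Complex.ofReal_mul, ← hfsq x]
      congr 1
      ring
    simp only [e]
    rw [integral_complex_ofReal, horth]
    split_ifs <;> simp
  · intro x
    have e : ∀ j, ‖((f x * U j x : ℝ) : ℂ)‖ ^ 2 = ρ x * U j x ^ 2 := by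
      intro j
      rw [Complex.norm_real, Real.norm_eq_abs, sq_abs, mul_pow, hfsq]
    simp only [e]
    rw [← Finset.mul_sum, h1, mul_one]
  · have hmeas : ∀ j (k : Fin 3), AEMeasurable (fun x => ‖((g k x * U j x +
        f x * fderiv ℝ (U j) x (Pi.single k 1) : ℝ) : ℂ)‖ₑ ^ 2) volume := fun j k =>
      ((m4 j k).ofReal (K := ℂ)).1.enorm.pow_const 2
    have hmg : ∀ k, AEMeasurable (fun x => ‖g k x‖ₑ ^ 2) volume := fun k =>
      (hg k).1.enorm.pow_const 2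
    have e1 : ∑ j, ∑ k : Fin 3, ∫⁻ x, ‖((g k x * U j x +
        f x * fderiv ℝ (U j) x (Pi.single k 1) : ℝ) : ℂ)‖ₑ ^ 2 =
        ∫⁻ x, ∑ j, ∑ k : Fin 3, ‖((g k x * U j x +
        f x * fderiv ℝ (U j) x (Pi.single k 1) : ℝ) : ℂ)‖ₑ ^ 2 := by
      rw [lintegral_finsetSum' _ (fun j _ => Finset.aemeasurable_fun_sum _ fun k _ => hmeas j k)]
      apply Finset.sum_congr rfl
      intro j _
      rw [lintegral_finsetSum' _ (fun k _ => hmeas j k)]
    have e2 : ∀ x, ∑ j, ∑ k : Fin 3, ‖((g k x * U j x +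
        f x * fderiv ℝ (U j) x (Pi.single k 1) : ℝ) : ℂ)‖ₑ ^ 2 =
        ENNReal.ofReal (ρ x * ∑ j, ∑ k, (fderiv ℝ (U j) x (Pi.single k 1)) ^ 2) +
          ∑ k, ‖g k x‖ₑ ^ 2 := by
      intro x
      simp only [enorm_sq_cast, enorm_sq_real]
      have e3 : ∀ j, ∑ k : Fin 3, ENNReal.ofReal ((g k x * U j x +
          f x * fderiv ℝ (U j) x (Pi.single k 1)) ^ 2) = ENNReal.ofReal (∑ k : Fin 3, (g k x * U j x +
          f x * fderiv ℝ (U j) x (Pi.single k 1)) ^ 2) := fun j =>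
        (ENNReal.ofReal_sum_of_nonneg fun k _ => sq_nonneg _).symm
      simp only [e3]
      rw [← ENNReal.ofReal_sum_of_nonneg
        (fun j _ => Finset.sum_nonneg fun k _ => sq_nonneg _),
        ← ENNReal.ofReal_sum_of_nonneg (fun k _ => sq_nonneg _),
        channel_alg (fun j => U j x) (fun j k => fderiv ℝ (U j) x (Pi.single k 1))
          (fun k => g k x) (f x) (ρ x) (hfsq x) (h1 x) (fun k => hUdU x _),
        ENNReal.ofReal_add]
      · exact mul_nonneg (h0 x) (Finset.sum_nonneg fun j _ => Finset.sum_nonneg fun k _ =>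
          sq_nonneg _)
      · exact Finset.sum_nonneg fun k _ => sq_nonneg _
    rw [e1]
    simp only [e2]
    rw [lintegral_add_right' _ (Finset.aemeasurable_fun_sum _ fun k _ => hmg k),
      lintegral_finsetSum' _ (fun k _ => hmg k)]
    exact add_le_add hE le_rfl


end MYoung
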