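import Mathlib
import Pool.Agent.Helper343.MY.Defs

namespace MYoung
open MeasureTheory Set

theorem cmb_count (r : ℕ) (q : ℕ) : ∑ i ∈ Finset.range q, (if i < r then 1 else 0) = min q r := by
  induction q with
  | zero => simp
  | succ q ih =>
    rw [Finset.sum_range_succ, ih]
    split_ifs with h <;> omega

theorem cmb_sum (q N : ℕ) (hq : 1 ≤ q) :
    ∑ s : Fin q, (N / q + if s.val < N % q then 1 else 0) = N := by
  rw [Finset.sum_add_distrib, Fin.sum_univ_eq_sum_range (fun i => if i < N % q then 1 else 0) q,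
    cmb_count]
  have h1 : N % q < q := Nat.mod_lt _ hq
  rw [min_eq_right h1.le]
  simp only [Finset.sum_const, Finset.card_univ, Fintype.card_fin, smul_eq_mul]
  exact Nat.div_add_mod N q

theorem cmb_channel (C : ℝ) (hC : 0 < C)
    (H : ∀ (N : ℕ), 1 ≤ N → ∀ (ρ : (Fin 3 → ℝ) → ℝ) (g : Fin 3 → (Fin 3 → ℝ) → ℝ),
      (∀ x, 0 ≤ ρ x) → Integrable ρ → ∫ x, ρ x = N → (∀ k, MemLp (g k) 2) →
      (∀ k, WeakPartial k (fun x => Real.sqrt (ρ x)) (g k)) →
      ∃ (φ : Fin N → (Fin 3 → ℝ) → ℂ) (Dφ : Fin N → Fin 3 → (Fin 3 → ℝ) → ℂ),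
        (∀ j, MemLp (φ j) 2) ∧ (∀ j k, MemLp (Dφ j k) 2) ∧
        (∀ j k, WeakPartial k (φ j) (Dφ j k)) ∧
        (∀ i j, ∫ x, (starRingEnd ℂ) (φ i x) * φ j x = if i = j then 1 else 0) ∧
        (∀ᵐ x, ∑ j, ‖φ j x‖ ^ 2 = ρ x) ∧
        ∑ j, ∑ k, ∫⁻ x, ‖Dφ j k x‖ₑ ^ 2 ≤ ENNReal.ofReal (if N = 1 then 0 else C) *
          (∫⁻ x, ENNReal.ofReal (ρ x) ^ (5 / 3 : ℝ)) + ∑ k, ∫⁻ x, ‖g k x‖ₑ ^ 2)
    (q N : ℕ) (hq : 1 ≤ q) (hN : 1 ≤ N) (ρ : (Fin 3 → ℝ) → ℝ) (g : Fin 3 → (Fin 3 → ℝ) → ℝ)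
    (h0 : ∀ x, 0 ≤ ρ x) (hI : Integrable ρ) (hρ : ∫ x, ρ x = N) (hg : ∀ k, MemLp (g k) 2)
    (hw : ∀ k, WeakPartial k (fun x => Real.sqrt (ρ x)) (g k)) (n : ℕ)
    (hn : 2 ≤ n → (n : ℝ) / N ≤ 2 / q) :
    ∃ (φ : Fin n → (Fin 3 → ℝ) → ℂ) (Dφ : Fin n → Fin 3 → (Fin 3 → ℝ) → ℂ),
        (∀ j, MemLp (φ j) 2) ∧ (∀ j k, MemLp (Dφ j k) 2) ∧
        (∀ j k, WeakPartial k (φ j) (Dφ j k)) ∧
        (∀ i j, ∫ x, (starRingEnd ℂ) (φ i x) * φ j x = if i = j then 1 else 0) ∧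
        (∀ᵐ x, ∑ j, ‖φ j x‖ ^ 2 = (n : ℝ) / N * ρ x) ∧
        ∑ j, ∑ k, ∫⁻ x, ‖Dφ j k x‖ₑ ^ 2 ≤
          ENNReal.ofReal (2 * C * (q : ℝ) ^ (-(2 / 3 : ℝ)) * ((n : ℝ) / N)) *
          (∫⁻ x, ENNReal.ofReal (ρ x) ^ (5 / 3 : ℝ))
            + ENNReal.ofReal ((n : ℝ) / N) * ∑ k, ∫⁻ x, ‖g k x‖ₑ ^ 2 := by
  have hNpos : (0 : ℝ) < N := by exact_mod_cast hN
  have hqpos : (0 : ℝ) < q := by exact_mod_cast hq
  rcases Nat.eq_zero_or_pos n with hn0 | hn1
  · subst hn0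
    refine ⟨fun _ _ => 0, fun _ _ _ => 0, fun j => j.elim0, fun j => j.elim0, fun j => j.elim0,
      fun j => j.elim0, ?_, ?_⟩
    · refine Filter.Eventually.of_forall fun x => ?_
      simp
    · simp
  · set t : ℝ := (n : ℝ) / N with ht
    have htpos : 0 < t := by rw [ht]; positivity
    have hsq : ∀ x, Real.sqrt (t * ρ x) = Real.sqrt t * Real.sqrt (ρ x) := fun x =>
      Real.sqrt_mul htpos.le _
    obtain ⟨φ, Dφ, h1, h2, h3, h4, h5, h6⟩ := H n hn1 (fun x => t * ρ x)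
      (fun k x => Real.sqrt t * g k x) (fun x => mul_nonneg htpos.le (h0 x)) (hI.const_mul t)
      (by rw [integral_const_mul, hρ, ht]; field_simp)
      (fun k => (hg k).const_mul (Real.sqrt t))
      (by
        intro k ψ hψ hψc
        have h := hw k ψ hψ hψc
        have e1 : (∫ x, (fderiv ℝ ψ x (Pi.single k 1)) • (fun x => Real.sqrt (t * ρ x)) x)
            = Real.sqrt t * ∫ x, (fderiv ℝ ψ x (Pi.single k 1)) • (fun x => Real.sqrt (ρ x)) x := by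
          rw [← integral_const_mul]
          refine integral_congr_ae (Filter.Eventually.of_forall fun x => ?_)
          show (fderiv ℝ ψ x (Pi.single k 1)) * Real.sqrt (t * ρ x)
            = Real.sqrt t * ((fderiv ℝ ψ x (Pi.single k 1)) * Real.sqrt (ρ x))
          rw [hsq]
          ring
        have e2 : (∫ x, ψ x • (Real.sqrt t * g k x)) = Real.sqrt t * ∫ x, ψ x • g k x := by
          rw [← integral_const_mul]
          refine integral_congr_ae (Filter.Eventually.of_forall fun x => ?_)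
          show ψ x * (Real.sqrt t * g k x) = Real.sqrt t * (ψ x * g k x)
          ring
        rw [e1, e2, h]
        ring)
    refine ⟨φ, Dφ, h1, h2, h3, h4, h5, h6.trans ?_⟩
    have e1 : ∫⁻ x, ENNReal.ofReal (t * ρ x) ^ (5 / 3 : ℝ)
        = ENNReal.ofReal (t ^ (5 / 3 : ℝ)) * ∫⁻ x, ENNReal.ofReal (ρ x) ^ (5 / 3 : ℝ) := by
      rw [← lintegral_const_mul' _ _ ENNReal.ofReal_ne_top]
      refine lintegral_congr fun x => ?_
      rw [ENNReal.ofReal_mul htpos.le, ENNReal.mul_rpow_of_nonneg _ _ (by norm_num),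
        ENNReal.ofReal_rpow_of_pos htpos]
    have e2 : ∀ k, ∫⁻ x, ‖Real.sqrt t * g k x‖ₑ ^ 2 = ENNReal.ofReal t * ∫⁻ x, ‖g k x‖ₑ ^ 2 := by
      intro k
      rw [← lintegral_const_mul' _ _ ENNReal.ofReal_ne_top]
      refine lintegral_congr fun x => ?_
      rw [enorm_mul, mul_pow]
      congr 1
      rw [Real.enorm_eq_ofReal (Real.sqrt_nonneg t), ← ENNReal.ofReal_pow (Real.sqrt_nonneg t),
        Real.sq_sqrt htpos.le]
    rw [e1]
    simp_rw [e2]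
    rw [← Finset.mul_sum, ← mul_assoc]
    refine add_le_add (mul_le_mul_left ?_ _) le_rfl
    rw [← ENNReal.ofReal_mul (by split_ifs <;> [exact le_rfl; exact hC.le])]
    apply ENNReal.ofReal_le_ofReal
    split_ifs with hone
    · rw [zero_mul]; positivity
    · have h2n : 2 ≤ n := by omega
      have hle := hn h2n
      have e3 : t ^ (5 / 3 : ℝ) = t * t ^ (2 / 3 : ℝ) := by
        have : (5 / 3 : ℝ) = 1 + 2 / 3 := by norm_num
        rw [this, Real.rpow_add htpos, Real.rpow_one]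
      have e4 : t ^ (2 / 3 : ℝ) ≤ (2 / (q : ℝ)) ^ (2 / 3 : ℝ) :=
        Real.rpow_le_rpow htpos.le hle (by norm_num)
      have e5 : (2 / (q : ℝ)) ^ (2 / 3 : ℝ) ≤ 2 * (q : ℝ) ^ (-(2 / 3 : ℝ)) := by
        rw [Real.div_rpow (by norm_num) hqpos.le, Real.rpow_neg hqpos.le, div_eq_mul_inv]
        refine mul_le_mul_of_nonneg_right ?_ (by positivity)
        calc (2 : ℝ) ^ (2 / 3 : ℝ) ≤ 2 ^ (1 : ℝ) :=
              Real.rpow_le_rpow_of_exponent_le (by norm_num) (by norm_num)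
          _ = 2 := Real.rpow_one 2
      rw [e3]
      calc C * (t * t ^ (2 / 3 : ℝ)) ≤ C * (t * (2 * (q : ℝ) ^ (-(2 / 3 : ℝ)))) := by
            refine mul_le_mul_of_nonneg_left ?_ hC.le
            exact mul_le_mul_of_nonneg_left (e4.trans e5) htpos.le
        _ = 2 * C * (q : ℝ) ^ (-(2 / 3 : ℝ)) * t := by ring

/-- Combining the spin channels. NOTE (helper400): the posted statement parsed as `A * ∫⁻ x, (f x + ∑ k, …)`;
this is the version with parentheses `A * (∫⁻ x, f x) + ∑ k, …` in both `H` and the conclusion. -/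
theorem combine (C : ℝ) (hC : 0 < C)
    (H : ∀ (N : ℕ), 1 ≤ N → ∀ (ρ : (Fin 3 → ℝ) → ℝ) (g : Fin 3 → (Fin 3 → ℝ) → ℝ),
      (∀ x, 0 ≤ ρ x) → Integrable ρ → ∫ x, ρ x = N → (∀ k, MemLp (g k) 2) →
      (∀ k, WeakPartial k (fun x => Real.sqrt (ρ x)) (g k)) →
      ∃ (φ : Fin N → (Fin 3 → ℝ) → ℂ) (Dφ : Fin N → Fin 3 → (Fin 3 → ℝ) → ℂ),
        (∀ j, MemLp (φ j) 2) ∧ (∀ j k, MemLp (Dφ j k) 2) ∧
        (∀ j k, WeakPartial k (φ j) (Dφ j k)) ∧
        (∀ i j, ∫ x, (starRingEnd ℂ) (φ i x) * φ j x = if i = j then 1 else 0) ∧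
        (∀ᵐ x, ∑ j, ‖φ j x‖ ^ 2 = ρ x) ∧
        ∑ j, ∑ k, ∫⁻ x, ‖Dφ j k x‖ₑ ^ 2 ≤ ENNReal.ofReal (if N = 1 then 0 else C) *
          (∫⁻ x, ENNReal.ofReal (ρ x) ^ (5 / 3 : ℝ)) + ∑ k, ∫⁻ x, ‖g k x‖ₑ ^ 2) :
    ∀ (q N : ℕ), 1 ≤ q → 1 ≤ N → ∀ (ρ : (Fin 3 → ℝ) → ℝ) (g : Fin 3 → (Fin 3 → ℝ) → ℝ),
      (∀ x, 0 ≤ ρ x) → Integrable ρ → ∫ x, ρ x = N → (∀ k, MemLp (g k) 2) →
      (∀ k, WeakPartial k (fun x => Real.sqrt (ρ x)) (g k)) →
      ∃ (φ : Fin N → Fin q → (Fin 3 → ℝ) → ℂ) (Dφ : Fin N → Fin q → Fin 3 → (Fin 3 → ℝ) → ℂ),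
        Admissible q N ρ φ Dφ ∧
        kinetic q N Dφ ≤ ENNReal.ofReal (2 * C * (q : ℝ) ^ (-(2 / 3 : ℝ))) *
          (∫⁻ x, ENNReal.ofReal (ρ x) ^ (5 / 3 : ℝ)) + ∑ k, ∫⁻ x, ‖g k x‖ₑ ^ 2 := by
  intro q N hq hN ρ g h0 hI hρ hg hw
  classical
  have hNpos : (0 : ℝ) < N := by exact_mod_cast hN
  have hqpos : (0 : ℝ) < q := by exact_mod_cast hq
  set n : Fin q → ℕ := fun s => N / q + if s.val < N % q then 1 else 0 with hn
  have hsum : ∑ s, n s = N := cmb_sum q N hq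
  have htsum : ∑ s, (n s : ℝ) / N = 1 := by
    rw [← Finset.sum_div]
    have : ∑ s, (n s : ℝ) = N := by exact_mod_cast hsum
    rw [this]
    exact div_self hNpos.ne'
  have hbd : ∀ s, 2 ≤ n s → (n s : ℝ) / N ≤ 2 / q := by
    intro s hs
    have h1 : 1 ≤ N / q := by
      have h3 : n s ≤ N / q + 1 := by
        simp only [hn]
        split_ifs <;> omega
      omega
    have h2 : q ≤ N := by
      by_contra h
      rw [Nat.div_eq_of_lt (by omega)] at h1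
      omega
    have h4 : (n s : ℝ) ≤ (N : ℝ) / q + 1 := by
      have h3 : n s ≤ N / q + 1 := by
        simp only [hn]
        split_ifs <;> omega
      have h5 : ((N / q : ℕ) : ℝ) ≤ (N : ℝ) / q := Nat.cast_div_le
      have h6 : (n s : ℝ) ≤ ((N / q : ℕ) : ℝ) + 1 := by exact_mod_cast h3
      linarith
    have h7 : (1 : ℝ) ≤ (N : ℝ) / q := by
      rw [le_div_iff₀ hqpos]
      rw [one_mul]
      exact_mod_cast h2
    rw [div_le_iff₀ hNpos]
    have : 2 / (q : ℝ) * N = (N : ℝ) / q + (N : ℝ) / q := by ring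
    rw [this]
    linarith
  have key := fun s : Fin q => cmb_channel C hC H q N hq hN ρ g h0 hI hρ hg hw (n s) (hbd s)
  choose φs Dφs h1 h2 h3 h4 h5 h6 using key
  set e : (Σ s : Fin q, Fin (n s)) ≃ Fin N := finSigmaFinEquiv.trans (finCongr hsum) with he
  set φ : Fin N → Fin q → (Fin 3 → ℝ) → ℂ := fun i σ =>
    if σ = (e.symm i).1 then φs (e.symm i).1 (e.symm i).2 else 0 with hφ
  set Dφ : Fin N → Fin q → Fin 3 → (Fin 3 → ℝ) → ℂ := fun i σ k =>
    if σ = (e.symm i).1 then Dφs (e.symm i).1 (e.symm i).2 k else 0 with hDφ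
  have hsumE : ∀ {M : Type} [AddCommMonoid M] (F : (Σ s : Fin q, Fin (n s)) → M),
      ∑ i : Fin N, F (e.symm i) = ∑ s, ∑ a, F ⟨s, a⟩ := by
    intro M _ F
    rw [Equiv.sum_comp e.symm F, Fintype.sum_sigma]
  refine ⟨φ, Dφ, ⟨?_, ?_, ?_, ?_, ?_⟩, ?_⟩
  · intro i σ
    simp only [hφ]
    split_ifs
    · exact h1 _ _
    · exact MemLp.zero
  · intro i σ k
    simp only [hDφ]
    split_ifs
    · exact h2 _ _ _
    · exact MemLp.zero
  · intro i σ k
    simp only [hφ, hDφ]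
    split_ifs
    · exact h3 _ _ _
    · intro ψ _ _
      simp
  · intro i j
    have h : ∀ u v : (Σ s : Fin q, Fin (n s)),
        ∑ σ, ∫ x, (starRingEnd ℂ) ((if σ = u.1 then φs u.1 u.2 else 0) x)
          * (if σ = v.1 then φs v.1 v.2 else 0) x = if u = v then 1 else 0 := by
      rintro ⟨s, a⟩ ⟨t, b⟩
      rw [Finset.sum_eq_single s]
      · by_cases hst : s = t
        · subst hst
          simp only [if_true]
          rw [h4 s a b]
          by_cases hab : a = b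
          · subst hab; simp
          · rw [if_neg hab, if_neg]
            intro h'
            apply hab
            simpa using h'
        · simp only [if_true, if_neg hst]
          rw [if_neg]
          · simp
          · intro h'
            exact hst (congrArg Sigma.fst h')
      · intro σ _ hσ
        simp only [if_neg hσ]
        simp
      · intro h'
        exact absurd (Finset.mem_univ _) h'
    have h' := h (e.symm i) (e.symm j)
    simp only [hφ]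
    rw [h']
    simp
  · have hall : ∀ᵐ x, ∀ s, ∑ j, ‖φs s j x‖ ^ 2 = (n s : ℝ) / N * ρ x :=
      ae_all_iff.mpr fun s => h5 s
    filter_upwards [hall] with x hx
    have e1 : ∀ i, ∑ σ, ‖φ i σ x‖ ^ 2 = ‖φs (e.symm i).1 (e.symm i).2 x‖ ^ 2 := by
      intro i
      rw [Finset.sum_eq_single (e.symm i).1]
      · simp only [hφ, if_true]
      · intro σ _ hσ
        simp only [hφ, if_neg hσ]
        simp
      · intro h'
        exact absurd (Finset.mem_univ _) h'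
    simp_rw [e1]
    rw [hsumE (fun u => ‖φs u.1 u.2 x‖ ^ 2)]
    simp only []
    simp_rw [hx]
    rw [← Finset.sum_mul, htsum, one_mul]
  · unfold kinetic
    have e1 : ∀ i, ∑ σ, ∑ k, ∫⁻ x, ‖Dφ i σ k x‖ₑ ^ 2
        = ∑ k, ∫⁻ x, ‖Dφs (e.symm i).1 (e.symm i).2 k x‖ₑ ^ 2 := by
      intro i
      rw [Finset.sum_eq_single (e.symm i).1]
      · simp only [hDφ, if_true]
      · intro σ _ hσ
        simp only [hDφ, if_neg hσ]
        simp
      · intro h'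
        exact absurd (Finset.mem_univ _) h'
    simp_rw [e1]
    rw [hsumE (fun u => ∑ k, ∫⁻ x, ‖Dφs u.1 u.2 k x‖ₑ ^ 2)]
    simp only []
    refine (Finset.sum_le_sum fun s _ => h6 s).trans ?_
    rw [Finset.sum_add_distrib, ← Finset.sum_mul, ← Finset.sum_mul,
      ← ENNReal.ofReal_sum_of_nonneg (fun s _ => by positivity),
      ← ENNReal.ofReal_sum_of_nonneg (fun s _ => by positivity), ← Finset.mul_sum, htsum]
    simp



end MYoung
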