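import Mathlib

namespace MYoung
open MeasureTheory Set

/-- Derivative of a linear combination of the cut-offs (Minkowski). -/
theorem deriv_combo (n N : ℕ) (Q : Fin n → (Fin 3 → ℝ) → ℝ)
    (hQ : ∀ i, ContDiff ℝ ((⊤ : ℕ∞) : WithTop ℕ∞) (Q i))
    (A : Fin N → Fin n → ℝ) (hA : ∀ i, ∑ j, A j i ^ 2 ≤ 4)
    (W : Fin N → (Fin 3 → ℝ) → ℝ) (hW : ∀ j x, W j x = ∑ i, A j i * Q i x)
    (x v : Fin 3 → ℝ) (D : ℝ) (hD : ∑ i, |fderiv ℝ (Q i) x v| ≤ D) :
    (∀ j, ContDiff ℝ ((⊤ : ℕ∞) : WithTop ℕ∞) (W j)) ∧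
    ∑ j, (fderiv ℝ (W j) x v) ^ 2 ≤ 4 * D ^ 2 := by
  have hWf : ∀ j, W j = fun x => ∑ i, A j i * Q i x := fun j => funext (hW j)
  have hdiff : ∀ i, DifferentiableAt ℝ (Q i) x := fun i =>
    (hQ i).contDiffAt.differentiableAt (by simp)
  constructor
  · intro j
    rw [hWf j]
    exact ContDiff.sum (fun i _ => contDiff_const.mul (hQ i))
  · have hder : ∀ j, fderiv ℝ (W j) x v = ∑ i, A j i * fderiv ℝ (Q i) x v := by
      intro j
      have h : HasFDerivAt (W j) (∑ i, A j i • fderiv ℝ (Q i) x) x := by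
        rw [hWf j]
        exact HasFDerivAt.fun_sum (fun i _ => (hdiff i).hasFDerivAt.const_mul (A j i))
      rw [h.fderiv]
      simp [ContinuousLinearMap.sum_apply]
    set d : Fin n → ℝ := fun i => fderiv ℝ (Q i) x v with hd
    have hS0 : 0 ≤ ∑ i, |d i| := Finset.sum_nonneg (fun i _ => abs_nonneg _)
    have hcs : ∀ j, (fderiv ℝ (W j) x v) ^ 2 ≤ (∑ i, |d i|) * ∑ i, A j i ^ 2 * |d i| := by
      intro j
      rw [hder j]
      apply Finset.sum_sq_le_sum_mul_sum_of_sq_eq_mul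
      · intro i _; exact abs_nonneg _
      · intro i _; positivity
      · intro i _
        have := sq_abs (d i)
        show (A j i * d i) ^ 2 = |d i| * (A j i ^ 2 * |d i|)
        nlinarith [this]
    calc ∑ j, (fderiv ℝ (W j) x v) ^ 2
        ≤ ∑ j, (∑ i, |d i|) * ∑ i, A j i ^ 2 * |d i| := Finset.sum_le_sum (fun j _ => hcs j)
      _ = (∑ i, |d i|) * ∑ i, (∑ j, A j i ^ 2) * |d i| := by
          rw [← Finset.mul_sum, Finset.sum_comm]
          congr 1
          apply Finset.sum_congr rfl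
          intro i _
          rw [Finset.sum_mul]
      _ ≤ (∑ i, |d i|) * ∑ i, 4 * |d i| := by
          apply mul_le_mul_of_nonneg_left _ hS0
          apply Finset.sum_le_sum
          intro i _
          exact mul_le_mul_of_nonneg_right (hA i) (abs_nonneg _)
      _ = 4 * (∑ i, |d i|) ^ 2 := by
          rw [← Finset.mul_sum]; ring
      _ ≤ 4 * D ^ 2 := by
          have : (∑ i, |d i|) ^ 2 ≤ D ^ 2 := pow_le_pow_left₀ hS0 hD 2
          linarith


end MYoung
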