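import Mathlib

namespace MYoung
open MeasureTheory Set

/-- The energy estimate (Tonelli). -/
theorem energy (ρ : (Fin 3 → ℝ) → ℝ) (h0 : ∀ x, 0 ≤ ρ x) (hm : Measurable ρ) (hi : Integrable ρ)
    (ε : ℝ) (hε : 0 < ε) (r : (Fin 3 → ℝ) → ℝ) (hr : ∀ x, 0 < r x)
    (hlip : ∀ x y, r y ≤ r x + dist x y)
    (hB : ∀ y, ∫⁻ x in {x | dist x y ≤ r x}, ENNReal.ofReal (ρ x) ≤ ENNReal.ofReal (8 * ε))
    (hC : ∀ x, ENNReal.ofReal ((r x) ^ 2)⁻¹ ≤ ENNReal.ofReal (4 * ε ^ (-(5 / 3 : ℝ))) *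
      ∫⁻ y in Metric.closedBall x (r x), ENNReal.ofReal (ρ y) ^ (5 / 3 : ℝ)) :
    ∫⁻ x, ENNReal.ofReal (ρ x) * ENNReal.ofReal ((r x) ^ 2)⁻¹ ≤
      ENNReal.ofReal (4 * ε ^ (-(5 / 3 : ℝ))) * ENNReal.ofReal (8 * ε) *
        ∫⁻ y, ENNReal.ofReal (ρ y) ^ (5 / 3 : ℝ) := by
  set c : ENNReal := ENNReal.ofReal (4 * ε ^ (-(5 / 3 : ℝ))) with hc
  set f : (Fin 3 → ℝ) → ENNReal := fun x => ENNReal.ofReal (ρ x) with hf
  have hfm : Measurable f := hm.ennreal_ofReal
  have hgm : Measurable (fun y => f y ^ (5 / 3 : ℝ)) := hfm.pow_const _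
  have hrc : Continuous r := by
    have hL : LipschitzWith 1 r := by
      apply LipschitzWith.of_le_add
      intro x y
      rw [dist_comm]
      exact hlip y x
    exact hL.continuous
  have hSclosed : IsClosed {p : (Fin 3 → ℝ) × (Fin 3 → ℝ) | dist p.1 p.2 ≤ r p.1} :=
    isClosed_le (continuous_fst.dist continuous_snd) (hrc.comp continuous_fst)
  set S : Set ((Fin 3 → ℝ) × (Fin 3 → ℝ)) :=
    {p : (Fin 3 → ℝ) × (Fin 3 → ℝ) | dist p.1 p.2 ≤ r p.1} with hS
  have hSm : MeasurableSet S := hSclosed.measurableSet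
  set F : (Fin 3 → ℝ) × (Fin 3 → ℝ) → ENNReal :=
    S.indicator (fun p => f p.1 * f p.2 ^ (5 / 3 : ℝ)) with hF
  have hFm : Measurable F :=
    ((hfm.comp measurable_fst).mul (hgm.comp measurable_snd)).indicator hSm
  -- first step: pointwise bound
  have step1 : ∀ x, f x * ENNReal.ofReal ((r x) ^ 2)⁻¹ ≤ c * ∫⁻ y, F (x, y) := by
    intro x
    have e1 : ∫⁻ y, F (x, y) = f x * ∫⁻ y in Metric.closedBall x (r x), f y ^ (5 / 3 : ℝ) := by
      rw [← lintegral_const_mul _ hgm, ← lintegral_indicator measurableSet_closedBall]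
      congr 1
      funext y
      rw [hF]
      by_cases hy : y ∈ Metric.closedBall x (r x)
      · have hy' : (x, y) ∈ S := by
          rw [hS]
          rw [Metric.mem_closedBall, dist_comm] at hy
          exact hy
        rw [indicator_of_mem hy', indicator_of_mem hy]
      · have hy' : (x, y) ∉ S := by
          intro h
          apply hy
          rw [Metric.mem_closedBall, dist_comm]
          exact h
        rw [indicator_of_notMem hy', indicator_of_notMem hy]
    rw [e1]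
    calc f x * ENNReal.ofReal ((r x) ^ 2)⁻¹
        ≤ f x * (c * ∫⁻ y in Metric.closedBall x (r x), f y ^ (5 / 3 : ℝ)) := by
          gcongr
          exact hC x
      _ = c * (f x * ∫⁻ y in Metric.closedBall x (r x), f y ^ (5 / 3 : ℝ)) := by
          rw [mul_left_comm]
  have hFx : Measurable (fun x => ∫⁻ y, F (x, y)) := hFm.lintegral_prod_right'
  calc ∫⁻ x, f x * ENNReal.ofReal ((r x) ^ 2)⁻¹ ≤ ∫⁻ x, c * ∫⁻ y, F (x, y) :=
        lintegral_mono step1
    _ = c * ∫⁻ x, ∫⁻ y, F (x, y) := lintegral_const_mul _ hFx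
    _ = c * ∫⁻ y, ∫⁻ x, F (x, y) := by
        have hsw := lintegral_lintegral_swap (μ := (volume : Measure (Fin 3 → ℝ)))
          (ν := (volume : Measure (Fin 3 → ℝ))) (f := fun x y => F (x, y)) hFm.aemeasurable
        rw [hsw]
    _ ≤ c * ∫⁻ y, ENNReal.ofReal (8 * ε) * f y ^ (5 / 3 : ℝ) := by
        gcongr with y
        have hmset : MeasurableSet {x | dist x y ≤ r x} :=
          (isClosed_le (continuous_id.dist continuous_const) hrc).measurableSet
        have e2 : ∫⁻ x, F (x, y) = (∫⁻ x in {x | dist x y ≤ r x}, f x) * f y ^ (5 / 3 : ℝ) := by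
          rw [← lintegral_mul_const _ hfm, ← lintegral_indicator hmset]
          congr 1
        rw [e2]
        gcongr
        exact hB y
    _ = c * ENNReal.ofReal (8 * ε) * ∫⁻ y, f y ^ (5 / 3 : ℝ) := by
        rw [lintegral_const_mul _ hgm, mul_assoc]


end MYoung
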