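import Mathlib

namespace MYoung
open MeasureTheory Set

/-- Estimates for the Gram matrix of the normalised fields `W/|W|`, `W = Y + X Y`. -/
theorem gram_est (N : ℕ) {Ω : Type*} [MeasurableSpace Ω] (μ : Measure Ω) [IsFiniteMeasure μ]
    (K1 τ : ℝ) (hτ : 0 ≤ τ) (hK : 1 ≤ K1) (hKτ : K1 * τ ≤ 1 / 100)
    (lam : Fin N → ℝ) (hlam : ∀ j, |lam j - 1| ≤ 1 / 2)
    (Y : Ω → Fin N → ℝ) (hYm : ∀ j, Measurable fun x => Y x j) (hY0 : ∀ x j, 0 ≤ Y x j)
    (hY1 : ∀ x, ∑ j, Y x j ^ 2 = 1) (hYK : ∀ x, ∑ j, Y x j ≤ K1)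
    (P : Fin N → Set Ω) (hPm : ∀ l, MeasurableSet (P l))
    (hP : ∀ l, ∀ x ∈ P l, ∀ j, Y x j = if j = l then 1 else 0)
    (hPμ : ∀ l, |μ.real (P l) - lam l| ≤ τ)
    (hR : ∀ j, ∫ x in (⋃ l, P l)ᶜ, Y x j ∂μ ≤ τ)
    (X : Fin N → Fin N → ℝ) (hXs : ∀ j k, X j k = X k j) (hX0 : ∀ j, X j j = 0)
    (hXr : ∀ j, ∑ k, |X j k| ≤ 1 / 4)
    (W : Ω → Fin N → ℝ) (hW : ∀ x j, W x j = Y x j + ∑ l, X j l * Y x l)
    (G : Fin N → Fin N → ℝ) (hG : ∀ j k, G j k = ∫ x, W x j * W x k / (∑ i, W x i ^ 2) ∂μ) :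
    (∀ x, 9 / 16 ≤ ∑ i, W x i ^ 2) ∧ (∀ j, |G j j - lam j| ≤ 1 / 2) ∧
    (∀ j, ∑ k, |if k = j then 0 else X j k - G j k / 2| ≤ 1 / 4) ∧
    ∑ j, G j j = μ.real univ := by
  classical
  have hXs' : ∀ l, ∑ k, |X k l| ≤ 1 / 4 := by
    intro l
    refine le_trans (le_of_eq ?_) (hXr l)
    exact Finset.sum_congr rfl fun k _ => by rw [hXs]
  have hY1' : ∀ x j, Y x j ≤ 1 := by
    intro x j
    have h1 : Y x j ^ 2 ≤ ∑ j, Y x j ^ 2 :=
      Finset.single_le_sum (f := fun j => Y x j ^ 2) (fun i _ => sq_nonneg _) (Finset.mem_univ j)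
    rw [hY1] at h1
    nlinarith [hY0 x j]
  -- Schur test
  have hZ : ∀ x, ∑ j, (∑ l, X j l * Y x l) ^ 2 ≤ 1 / 16 := by
    intro x
    have h1 : ∀ j, (∑ l, X j l * Y x l) ^ 2 ≤ (1 / 4) * ∑ l, |X j l| * Y x l ^ 2 := by
      intro j
      have h2 : |∑ l, X j l * Y x l| ≤ ∑ l, |X j l| * Y x l := by
        refine (Finset.abs_sum_le_sum_abs _ _).trans (le_of_eq ?_)
        refine Finset.sum_congr rfl fun l _ => ?_
        rw [abs_mul, abs_of_nonneg (hY0 x l)]
      have h3 : (∑ l, |X j l| * Y x l) ^ 2 ≤ (∑ l, |X j l|) * ∑ l, |X j l| * Y x l ^ 2 := by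
        refine Finset.sum_sq_le_sum_mul_sum_of_sq_eq_mul _ (fun _ _ => abs_nonneg _)
          (fun l _ => mul_nonneg (abs_nonneg _) (sq_nonneg _)) ?_
        intro l _
        ring
      have h4 : 0 ≤ ∑ l, |X j l| * Y x l ^ 2 :=
        Finset.sum_nonneg fun l _ => mul_nonneg (abs_nonneg _) (sq_nonneg _)
      calc (∑ l, X j l * Y x l) ^ 2 = |∑ l, X j l * Y x l| ^ 2 := (sq_abs _).symm
        _ ≤ (∑ l, |X j l| * Y x l) ^ 2 := pow_le_pow_left₀ (abs_nonneg _) h2 2
        _ ≤ _ := h3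
        _ ≤ _ := mul_le_mul_of_nonneg_right (hXr j) h4
    calc ∑ j, (∑ l, X j l * Y x l) ^ 2 ≤ ∑ j, (1 / 4) * ∑ l, |X j l| * Y x l ^ 2 :=
          Finset.sum_le_sum fun j _ => h1 j
      _ = (1 / 4) * ∑ l, (∑ j, |X j l|) * Y x l ^ 2 := by
          rw [← Finset.mul_sum, Finset.sum_comm]
          congr 1
          exact Finset.sum_congr rfl fun l _ => by rw [Finset.sum_mul]
      _ ≤ (1 / 4) * ∑ l, (1 / 4) * Y x l ^ 2 := by
          gcongr with l _
          exact hXs' l
      _ = 1 / 16 := by rw [← Finset.mul_sum, hY1]; norm_num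
  have hS : ∀ x, 9 / 16 ≤ ∑ i, W x i ^ 2 := by
    intro x
    have h1 : ∑ i, W x i ^ 2 = 1 + 2 * ∑ i, Y x i * (∑ l, X i l * Y x l) +
        ∑ i, (∑ l, X i l * Y x l) ^ 2 := by
      rw [← hY1 x, Finset.mul_sum, ← Finset.sum_add_distrib, ← Finset.sum_add_distrib]
      refine Finset.sum_congr rfl fun i _ => ?_
      rw [hW]
      ring
    have h2 : (∑ i, Y x i * (∑ l, X i l * Y x l)) ^ 2 ≤
        (∑ i, Y x i ^ 2) * ∑ i, (∑ l, X i l * Y x l) ^ 2 :=
      Finset.sum_mul_sq_le_sq_mul_sq _ _ _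
    rw [hY1, one_mul] at h2
    have h3 := hZ x
    obtain ⟨A, hA⟩ : ∃ A, A = ∑ i, Y x i * (∑ l, X i l * Y x l) := ⟨_, rfl⟩
    obtain ⟨B, hB⟩ : ∃ B, B = ∑ i, (∑ l, X i l * Y x l) ^ 2 := ⟨_, rfl⟩
    rw [← hA, ← hB] at h1 h2
    rw [← hB] at h3
    rw [h1]
    have hA4 : -(1 / 4) ≤ A := by nlinarith [sq_nonneg (A + 1 / 4)]
    nlinarith [sq_nonneg (A + 1 / 4), sq_nonneg A]
  have hS0 : ∀ x, 0 < ∑ i, W x i ^ 2 := fun x => lt_of_lt_of_le (by norm_num) (hS x)
  -- pointwise bounds of W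
  have hWb : ∀ x j, |W x j| ≤ Y x j + ∑ l, |X j l| * Y x l := by
    intro x j
    rw [hW]
    refine (abs_add_le _ _).trans (add_le_add (abs_of_nonneg (hY0 x j)).le ?_)
    refine (Finset.abs_sum_le_sum_abs _ _).trans (le_of_eq ?_)
    refine Finset.sum_congr rfl fun l _ => ?_
    rw [abs_mul, abs_of_nonneg (hY0 x l)]
  have hWs : ∀ x, ∑ k, |W x k| ≤ 5 / 4 * K1 := by
    intro x
    calc ∑ k, |W x k| ≤ ∑ k, (Y x k + ∑ l, |X k l| * Y x l) := Finset.sum_le_sum fun k _ => hWb x k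
      _ = ∑ k, Y x k + ∑ l, (∑ k, |X k l|) * Y x l := by
          rw [Finset.sum_add_distrib, Finset.sum_comm]
          congr 1
          exact Finset.sum_congr rfl fun l _ => by rw [Finset.sum_mul]
      _ ≤ ∑ k, Y x k + ∑ l, (1 / 4) * Y x l := by
          gcongr with l _
          · exact hY0 x l
          · exact hXs' l
      _ = 5 / 4 * ∑ k, Y x k := by rw [← Finset.mul_sum]; ring
      _ ≤ _ := by
          have := hYK x
          linarith
  -- measurability
  have hWm : ∀ j, Measurable fun x => W x j := by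
    intro j
    have h1 : (fun x => W x j) = fun x => Y x j + ∑ l, X j l * Y x l := funext fun x => hW x j
    rw [h1]
    exact (hYm j).add (Finset.measurable_sum _ fun l _ => (hYm l).const_mul _)
  have hFm : ∀ j k, Measurable fun x => W x j * W x k / (∑ i, W x i ^ 2) := by
    intro j k
    exact ((hWm j).mul (hWm k)).div (Finset.measurable_sum _ fun i _ => (hWm i).pow_const 2)
  have hFb : ∀ j k x, |W x j * W x k / (∑ i, W x i ^ 2)| ≤ 1 := by
    intro j k x
    rw [abs_div, abs_of_pos (hS0 x), div_le_one (hS0 x)]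
    have h1 : W x j ^ 2 ≤ ∑ i, W x i ^ 2 :=
      Finset.single_le_sum (f := fun j => W x j ^ 2) (fun i _ => sq_nonneg _) (Finset.mem_univ j)
    have h2 : W x k ^ 2 ≤ ∑ i, W x i ^ 2 :=
      Finset.single_le_sum (f := fun j => W x j ^ 2) (fun i _ => sq_nonneg _) (Finset.mem_univ k)
    rw [abs_le]
    constructor <;> nlinarith [sq_nonneg (W x j - W x k), sq_nonneg (W x j + W x k)]
  have hFi : ∀ j k, Integrable (fun x => W x j * W x k / (∑ i, W x i ^ 2)) μ := fun j k =>
    Integrable.of_bound (hFm j k).aestronglyMeasurable 1 (ae_of_all _ (hFb j k))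
  have hYi : ∀ j, Integrable (fun x => Y x j) μ := fun j =>
    Integrable.of_bound (hYm j).aestronglyMeasurable 1 (ae_of_all _ fun x => by
      rw [Real.norm_eq_abs, abs_of_nonneg (hY0 x j)]
      exact hY1' x j)
  -- decomposition
  have hU : MeasurableSet (⋃ l, P l) := MeasurableSet.iUnion hPm
  have hdis : Pairwise (Function.onFun Disjoint P) := by
    intro l l' hll
    rw [Function.onFun, Set.disjoint_left]
    intro x hx hx'
    have h1 := hP l x hx l
    have h2 := hP l' x hx' l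
    rw [if_pos rfl] at h1
    rw [if_neg hll, h1] at h2
    norm_num at h2
  obtain ⟨q, hq⟩ : ∃ q : Fin N → ℝ, ∀ l, q l = ∑ i, X i l ^ 2 := ⟨_, fun l => rfl⟩
  have hq0 : ∀ l, 0 ≤ q l := fun l => by rw [hq]; exact Finset.sum_nonneg fun i _ => sq_nonneg _
  have hq1 : ∀ l, q l ≤ 1 / 16 := by
    intro l
    rw [hq]
    have h1 : ∀ i, X i l ^ 2 ≤ |X i l| * (1 / 4) := by
      intro i
      rw [← sq_abs, sq]
      refine mul_le_mul_of_nonneg_left ?_ (abs_nonneg _)
      exact (Finset.single_le_sum (f := fun k => |X k l|) (fun i _ => abs_nonneg _)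
        (Finset.mem_univ i)).trans (hXs' l)
    calc ∑ i, X i l ^ 2 ≤ ∑ i, |X i l| * (1 / 4) := Finset.sum_le_sum fun i _ => h1 i
      _ = (∑ i, |X i l|) * (1 / 4) := by rw [Finset.sum_mul]
      _ ≤ (1 / 4) * (1 / 4) := by
          have := hXs' l
          linarith
      _ = 1 / 16 := by norm_num
  have hWP : ∀ l, ∀ x ∈ P l, ∀ j, W x j = (if j = l then 1 else 0) + X j l := by
    intro l x hx j
    rw [hW, hP l x hx j]
    congr 1
    rw [Finset.sum_eq_single l]
    · rw [hP l x hx l, if_pos rfl, mul_one]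
    · intro i _ hi
      rw [hP l x hx i, if_neg hi, mul_zero]
    · intro h
      exact absurd (Finset.mem_univ l) h
  have hSP : ∀ l, ∀ x ∈ P l, ∑ i, W x i ^ 2 = 1 + q l := by
    intro l x hx
    have h1 : ∀ i, W x i ^ 2 = (if i = l then 1 + 2 * X i l else 0) + X i l ^ 2 := by
      intro i
      rw [hWP l x hx i]
      split_ifs <;> ring
    rw [Finset.sum_congr rfl fun i _ => h1 i, Finset.sum_add_distrib, ← hq l,
      Finset.sum_ite_eq' Finset.univ l]
    simp [hX0]
  obtain ⟨α, hα⟩ : ∃ α : Fin N → ℝ, ∀ l, α l = μ.real (P l) / (1 + q l) := ⟨_, fun l => rfl⟩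
  obtain ⟨R, hRd⟩ : ∃ R : Fin N → Fin N → ℝ, ∀ j k, R j k =
    ∫ x in (⋃ l, P l)ᶜ, W x j * W x k / (∑ i, W x i ^ 2) ∂μ := ⟨_, fun j k => rfl⟩
  have hGe : ∀ j k, G j k = (if j = k then α j else 0) + (α j * X k j + α k * X j k) +
      ∑ l, α l * X j l * X k l + R j k := by
    intro j k
    rw [hG, ← integral_add_compl hU (hFi j k), ← hRd]
    congr 1
    rw [integral_iUnion_fintype hPm hdis (fun l => (hFi j k).integrableOn)]
    have h1 : ∀ l, ∫ x in P l, W x j * W x k / (∑ i, W x i ^ 2) ∂μ =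
        (if j = l then (if k = l then α l else 0) else 0) + (if j = l then α l * X k l else 0) +
        (if k = l then α l * X j l else 0) + α l * X j l * X k l := by
      intro l
      have h2 : ∫ x in P l, W x j * W x k / (∑ i, W x i ^ 2) ∂μ =
          ∫ x in P l, (((if j = l then 1 else 0) + X j l) * ((if k = l then 1 else 0) + X k l) /
            (1 + q l)) ∂μ := by
        refine setIntegral_congr_fun (hPm l) fun x hx => ?_
        rw [hSP l x hx, hWP l x hx j, hWP l x hx k]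
      rw [h2, setIntegral_const, smul_eq_mul, hα l]
      split_ifs <;> ring
    rw [Finset.sum_congr rfl fun l _ => h1 l]
    simp only [Finset.sum_add_distrib]
    rw [Finset.sum_ite_eq Finset.univ j, Finset.sum_ite_eq Finset.univ j,
      Finset.sum_ite_eq Finset.univ k]
    simp only [Finset.mem_univ, if_true]
    by_cases hjk : j = k
    · subst hjk
      simp
      ring
    · have hkj : k ≠ j := fun h => hjk h.symm
      simp [hjk, hkj]
  -- bounds of α
  have hτ1 : τ ≤ 1 / 100 := by nlinarith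
  have hm : ∀ l, 49 / 100 ≤ μ.real (P l) ∧ μ.real (P l) ≤ 151 / 100 := by
    intro l
    have h1 := abs_le.1 (hPμ l)
    have h2 := abs_le.1 (hlam l)
    constructor <;> linarith [h1.1, h1.2, h2.1, h2.2]
  have hα1 : ∀ l, 46 / 100 ≤ α l ∧ α l ≤ 151 / 100 := by
    intro l
    have h0 : 0 < 1 + q l := by linarith [hq0 l]
    rw [hα]
    constructor
    · rw [le_div_iff₀ h0]
      nlinarith [hm l, hq1 l]
    · rw [div_le_iff₀ h0]
      nlinarith [hm l, hq0 l]
  -- bound of R
  have hRr : ∀ j, ∑ k, |R j k| ≤ 25 / 900 := by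
    intro j
    have hi : ∀ k, Integrable (fun x => |W x j * W x k / (∑ i, W x i ^ 2)|)
        (μ.restrict (⋃ l, P l)ᶜ) := fun k => (hFi j k).restrict.abs
    have hiY : ∀ l, Integrable (fun x => Y x l) (μ.restrict (⋃ l, P l)ᶜ) := fun l => (hYi l).restrict
    have hiW : Integrable (fun x => Y x j + ∑ l, |X j l| * Y x l) (μ.restrict (⋃ l, P l)ᶜ) :=
      (hiY j).add (integrable_finsetSum _ fun l _ => (hiY l).const_mul _)
    have h1 : ∑ k, |R j k| ≤ ∫ x in (⋃ l, P l)ᶜ, ∑ k, |W x j * W x k / (∑ i, W x i ^ 2)| ∂μ := by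
      rw [integral_finsetSum _ fun k _ => hi k]
      refine Finset.sum_le_sum fun k _ => ?_
      rw [hRd]
      exact abs_integral_le_integral_abs
    have h2 : ∫ x in (⋃ l, P l)ᶜ, ∑ k, |W x j * W x k / (∑ i, W x i ^ 2)| ∂μ ≤
        ∫ x in (⋃ l, P l)ᶜ, (20 / 9 * K1) * (Y x j + ∑ l, |X j l| * Y x l) ∂μ := by
      refine integral_mono (integrable_finsetSum _ fun k _ => hi k) (hiW.const_mul _) fun x => ?_
      simp only
      have h3 : ∑ k, |W x j * W x k / (∑ i, W x i ^ 2)| =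
          |W x j| * (∑ k, |W x k|) / (∑ i, W x i ^ 2) := by
        rw [Finset.mul_sum, Finset.sum_div]
        refine Finset.sum_congr rfl fun k _ => ?_
        rw [abs_div, abs_mul, abs_of_pos (hS0 x)]
      rw [h3, div_le_iff₀ (hS0 x)]
      have h4 : |W x j| * (∑ k, |W x k|) ≤ (Y x j + ∑ l, |X j l| * Y x l) * (5 / 4 * K1) :=
        mul_le_mul (hWb x j) (hWs x) (Finset.sum_nonneg fun k _ => abs_nonneg _)
          ((abs_nonneg _).trans (hWb x j))
      have h5 : 0 ≤ Y x j + ∑ l, |X j l| * Y x l := (abs_nonneg _).trans (hWb x j)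
      have h6 : 0 ≤ (20 / 9 * K1) * (Y x j + ∑ l, |X j l| * Y x l) := by positivity
      nlinarith [mul_le_mul_of_nonneg_left (hS x) h6]
    have h3 : ∫ x in (⋃ l, P l)ᶜ, (20 / 9 * K1) * (Y x j + ∑ l, |X j l| * Y x l) ∂μ ≤
        (20 / 9 * K1) * (5 / 4 * τ) := by
      rw [integral_const_mul]
      refine mul_le_mul_of_nonneg_left ?_ (by linarith)
      rw [integral_add (hiY j) (integrable_finsetSum _ fun l _ => (hiY l).const_mul _),
        integral_finsetSum _ fun l _ => (hiY l).const_mul _]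
      simp only [integral_const_mul]
      have h4 : ∑ l, |X j l| * ∫ x in (⋃ l, P l)ᶜ, Y x l ∂μ ≤ ∑ l, |X j l| * τ :=
        Finset.sum_le_sum fun l _ => mul_le_mul_of_nonneg_left (hR l) (abs_nonneg _)
      rw [← Finset.sum_mul] at h4
      have h5 := hR j
      have h6 := mul_le_mul_of_nonneg_right (hXr j) hτ
      linarith
    refine (h1.trans (h2.trans h3)).trans ?_
    nlinarith
  refine ⟨hS, ?_, ?_, ?_⟩
  · intro j
    rw [hGe j j, if_pos rfl, hX0]
    have h1 : |α j - lam j| ≤ 1 / 100 + 151 / 1600 := by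
      have h0 : 0 < 1 + q j := by linarith [hq0 j]
      have h2 : α j - lam j = (μ.real (P j) - lam j) - α j * q j := by
        have h3 : α j * (1 + q j) = μ.real (P j) := by
          rw [hα]
          field_simp
        linarith
      rw [h2]
      have h4 : |α j * q j| ≤ 151 / 1600 := by
        rw [abs_of_nonneg (mul_nonneg (by linarith [(hα1 j).1]) (hq0 j))]
        nlinarith [(hα1 j).1, (hα1 j).2, hq0 j, hq1 j]
      have h5 := hPμ j
      have h6 := abs_sub (μ.real (P j) - lam j) (α j * q j)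
      linarith
    have h2 : |∑ l, α l * X j l * X j l| ≤ 151 / 1600 := by
      have h3 : ∀ l, 0 ≤ α l * X j l * X j l := by
        intro l
        have := (hα1 l).1
        have h4 : 0 ≤ α l := by linarith
        nlinarith [mul_nonneg h4 (sq_nonneg (X j l))]
      rw [abs_of_nonneg (Finset.sum_nonneg fun l _ => h3 l)]
      have h4 : ∀ l, α l * X j l * X j l ≤ 151 / 100 * X l j ^ 2 := by
        intro l
        rw [hXs l j]
        nlinarith [mul_le_mul_of_nonneg_right (hα1 l).2 (sq_nonneg (X j l))]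
      calc ∑ l, α l * X j l * X j l ≤ ∑ l, 151 / 100 * X l j ^ 2 := Finset.sum_le_sum fun l _ => h4 l
        _ = 151 / 100 * q j := by rw [hq, Finset.mul_sum]
        _ ≤ 151 / 1600 := by linarith [hq1 j]
    have h3 : |R j j| ≤ 25 / 900 :=
      (Finset.single_le_sum (f := fun k => |R j k|) (fun i _ => abs_nonneg _)
        (Finset.mem_univ j)).trans (hRr j)
    rw [abs_le] at h1 h2 h3 ⊢
    constructor <;> linarith [h1.1, h1.2, h2.1, h2.2, h3.1, h3.2]
  · intro j
    have h1 : ∀ k, |if k = j then 0 else X j k - G j k / 2| ≤ 54 / 100 * |X j k| +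
        151 / 200 * ∑ l, |X j l| * |X k l| + |R j k| / 2 := by
      intro k
      have hnn : 0 ≤ ∑ l, |X j l| * |X k l| :=
        Finset.sum_nonneg fun l _ => mul_nonneg (abs_nonneg _) (abs_nonneg _)
      split_ifs with hkj
      · rw [abs_zero]
        have := abs_nonneg (X j k)
        have := abs_nonneg (R j k)
        linarith
      · rw [hGe j k, if_neg (fun h => hkj h.symm), hXs k j]
        have h2 : X j k - (0 + (α j * X j k + α k * X j k) + ∑ l, α l * X j l * X k l + R j k) / 2 =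
            (1 - (α j + α k) / 2) * X j k - (∑ l, α l * X j l * X k l) / 2 - R j k / 2 := by ring
        rw [h2]
        have h3 : |(1 - (α j + α k) / 2) * X j k| ≤ 54 / 100 * |X j k| := by
          rw [abs_mul]
          refine mul_le_mul_of_nonneg_right ?_ (abs_nonneg _)
          rw [abs_le]
          constructor <;> linarith [(hα1 j).1, (hα1 j).2, (hα1 k).1, (hα1 k).2]
        have h4 : |∑ l, α l * X j l * X k l| ≤ 151 / 100 * ∑ l, |X j l| * |X k l| := by
          refine (Finset.abs_sum_le_sum_abs _ _).trans ?_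
          rw [Finset.mul_sum]
          refine Finset.sum_le_sum fun l _ => ?_
          rw [mul_assoc, abs_mul, abs_mul]
          refine mul_le_mul_of_nonneg_right ?_ (mul_nonneg (abs_nonneg _) (abs_nonneg _))
          rw [abs_le]
          constructor <;> linarith [(hα1 l).1, (hα1 l).2]
        rw [abs_le] at h3 h4 ⊢
        have h5 := abs_le.1 (le_refl |R j k|)
        constructor <;> linarith [h3.1, h3.2, h4.1, h4.2, h5.1, h5.2]
    refine (Finset.sum_le_sum fun k _ => h1 k).trans ?_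
    rw [Finset.sum_add_distrib, Finset.sum_add_distrib, ← Finset.mul_sum, ← Finset.mul_sum,
      ← Finset.sum_div]
    have h2 : ∑ k, ∑ l, |X j l| * |X k l| ≤ 1 / 16 := by
      rw [Finset.sum_comm]
      calc ∑ l, ∑ k, |X j l| * |X k l| = ∑ l, |X j l| * ∑ k, |X k l| :=
            Finset.sum_congr rfl fun l _ => by rw [Finset.mul_sum]
        _ ≤ ∑ l, |X j l| * (1 / 4) :=
            Finset.sum_le_sum fun l _ => mul_le_mul_of_nonneg_left (hXs' l) (abs_nonneg _)
        _ = (∑ l, |X j l|) * (1 / 4) := by rw [Finset.sum_mul]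
        _ ≤ 1 / 16 := by
            have := hXr j
            linarith
    have h3 := hXr j
    have h4 := hRr j
    linarith
  · simp only [hG]
    rw [← integral_finsetSum _ fun j _ => hFi j j]
    have h1 : ∀ x, ∑ j, W x j * W x j / (∑ i, W x i ^ 2) = 1 := by
      intro x
      rw [← Finset.sum_div]
      have h2 : ∑ j, W x j * W x j = ∑ i, W x i ^ 2 :=
        Finset.sum_congr rfl fun i _ => by rw [sq]
      rw [h2]
      exact div_self (hS0 x).ne'
    simp only [h1]
    simp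



end MYoung
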