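import Mathlib

namespace MYoung
open MeasureTheory Set

/-- Pointwise facts about the soft fields `V j = ∑ i, Q i * w i j`. -/
theorem field_pointwise (n N K : ℕ) (Q : Fin n → ℝ) (hQ0 : ∀ i, 0 ≤ Q i) (hQ1 : ∑ i, Q i = 1)
    (hK : {i | Q i ≠ 0}.ncard ≤ K)
    (w : Fin n → Fin N → ℝ) (hw0 : ∀ i j, 0 ≤ w i j) (hw1 : ∀ i, ∑ j, w i j ^ 2 = 1)
    (hw2 : ∀ i, ∑ j, w i j ≤ 2) :
    (1 / (K : ℝ) ≤ ∑ j, (∑ i, Q i * w i j) ^ 2) ∧ (∑ j, ∑ i, Q i * w i j ≤ 2) ∧
    (∀ i0, Q i0 = 1 → ∀ j, ∑ i, Q i * w i j = w i0 j) := by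
  classical
  refine ⟨?_, ?_, ?_⟩
  · have h1 : ∀ j, ∑ i, (Q i * w i j) ^ 2 ≤ (∑ i, Q i * w i j) ^ 2 := by
      intro j
      have hnn : ∀ i, 0 ≤ Q i * w i j := fun i => mul_nonneg (hQ0 i) (hw0 i j)
      have h2 : ∀ i ∈ Finset.univ, (Q i * w i j) ^ 2 ≤ (Q i * w i j) * ∑ i, Q i * w i j := by
        intro i _
        rw [sq]
        exact mul_le_mul_of_nonneg_left
          (Finset.single_le_sum (f := fun i => Q i * w i j) (fun i _ => hnn i)
            (Finset.mem_univ i)) (hnn i)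
      refine (Finset.sum_le_sum h2).trans (le_of_eq ?_)
      rw [← Finset.sum_mul, sq]
    have h3 : ∑ i, Q i ^ 2 ≤ ∑ j, (∑ i, Q i * w i j) ^ 2 := by
      refine le_trans (le_of_eq ?_) (Finset.sum_le_sum fun j _ => h1 j)
      rw [Finset.sum_comm]
      refine Finset.sum_congr rfl fun i _ => ?_
      simp_rw [mul_pow]
      rw [← Finset.mul_sum, hw1, mul_one]
    have h4 : (1 : ℝ) ≤ K * ∑ i, Q i ^ 2 := by
      have h5 : ∑ i ∈ Finset.univ.filter (fun i => Q i ≠ 0), Q i = 1 := by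
        rw [Finset.sum_filter_ne_zero]; exact hQ1
      have h6 := sq_sum_le_card_mul_sum_sq (s := Finset.univ.filter (fun i => Q i ≠ 0)) (f := Q)
      rw [h5] at h6
      have h7 : (Finset.univ.filter (fun i => Q i ≠ 0)).card ≤ K := by
        refine le_trans (le_of_eq ?_) hK
        rw [← Set.ncard_coe_finset]
        congr 1
        ext i
        simp
      have h8 : ∑ i ∈ Finset.univ.filter (fun i => Q i ≠ 0), Q i ^ 2 ≤ ∑ i, Q i ^ 2 :=
        Finset.sum_le_sum_of_subset_of_nonneg (Finset.filter_subset _ _)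
          fun i _ _ => by positivity
      have h9 : ((Finset.univ.filter (fun i => Q i ≠ 0)).card : ℝ) ≤ K := by exact_mod_cast h7
      have h10 : 0 ≤ ∑ i ∈ Finset.univ.filter (fun i => Q i ≠ 0), Q i ^ 2 :=
        Finset.sum_nonneg fun i _ => by positivity
      calc (1 : ℝ) = 1 ^ 2 := by norm_num
        _ ≤ _ := h6
        _ ≤ K * ∑ i ∈ Finset.univ.filter (fun i => Q i ≠ 0), Q i ^ 2 :=
          mul_le_mul_of_nonneg_right h9 h10
        _ ≤ _ := mul_le_mul_of_nonneg_left h8 (Nat.cast_nonneg K)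
    have hK0 : (0 : ℝ) < K := by
      rcases Nat.eq_zero_or_pos K with h | h
      · rw [h] at h4
        norm_num at h4
      · exact_mod_cast h
    rw [div_le_iff₀ hK0]
    have := mul_le_mul_of_nonneg_left h3 hK0.le
    linarith
  · rw [Finset.sum_comm]
    have h1 : ∀ i ∈ Finset.univ, ∑ j, Q i * w i j ≤ Q i * 2 := by
      intro i _
      rw [← Finset.mul_sum]
      exact mul_le_mul_of_nonneg_left (hw2 i) (hQ0 i)
    refine (Finset.sum_le_sum h1).trans (le_of_eq ?_)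
    rw [← Finset.sum_mul, hQ1, one_mul]
  · intro i0 hi0 j
    have h1 := Finset.add_sum_erase Finset.univ Q (Finset.mem_univ i0)
    rw [hQ1, hi0] at h1
    have h2 : ∑ i ∈ Finset.univ.erase i0, Q i = 0 := by linarith
    have h3 := (Finset.sum_eq_zero_iff_of_nonneg fun i _ => hQ0 i).1 h2
    rw [Finset.sum_eq_single i0]
    · rw [hi0, one_mul]
    · intro i _ hi
      rw [h3 i (Finset.mem_erase.2 ⟨hi, Finset.mem_univ i⟩), zero_mul]
    · intro h
      exact absurd (Finset.mem_univ i0) h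

/-- Operator bound for `1 + X`. -/
theorem matrix_bound (N : ℕ) (X : Fin N → Fin N → ℝ) (hXs : ∀ j k, X j k = X k j)
    (hXr : ∀ j, ∑ k, |X j k| ≤ 1 / 4) (v : Fin N → ℝ) (hv : ∑ j, v j ^ 2 = 1) :
    ∑ j, (v j + ∑ l, X j l * v l) ^ 2 ≤ 4 := by
  have h1 : ∀ j, (∑ l, X j l * v l) ^ 2 ≤ 1 / 4 * ∑ l, |X j l| * v l ^ 2 := by
    intro j
    have h2 : (∑ l, X j l * v l) ^ 2 ≤ (∑ l, |X j l|) * ∑ l, |X j l| * v l ^ 2 := by
      apply Finset.sum_sq_le_sum_mul_sum_of_sq_eq_mul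
      · intro l _; exact abs_nonneg _
      · intro l _; positivity
      · intro l _
        have : |X j l| * |X j l| = X j l * X j l := abs_mul_abs_self _
        calc (X j l * v l) ^ 2 = (X j l * X j l) * v l ^ 2 := by ring
          _ = |X j l| * (|X j l| * v l ^ 2) := by rw [← this]; ring
    refine h2.trans (mul_le_mul_of_nonneg_right (hXr j) ?_)
    exact Finset.sum_nonneg fun l _ => by positivity
  have h2 : ∑ j, (∑ l, X j l * v l) ^ 2 ≤ 1 / 16 := by
    refine (Finset.sum_le_sum fun j _ => h1 j).trans ?_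
    rw [← Finset.mul_sum, Finset.sum_comm]
    have h3 : ∀ l ∈ Finset.univ, ∑ j, |X j l| * v l ^ 2 ≤ 1 / 4 * v l ^ 2 := by
      intro l _
      rw [← Finset.sum_mul]
      apply mul_le_mul_of_nonneg_right _ (by positivity)
      have : ∑ j, |X j l| = ∑ j, |X l j| := Finset.sum_congr rfl fun j _ => by rw [hXs]
      rw [this]
      exact hXr l
    have h4 := Finset.sum_le_sum h3
    rw [← Finset.mul_sum, hv] at h4
    linarith
  have h3 : ∀ j ∈ Finset.univ, (v j + ∑ l, X j l * v l) ^ 2 ≤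
      2 * v j ^ 2 + 2 * (∑ l, X j l * v l) ^ 2 := by
    intro j _
    nlinarith [sq_nonneg (v j - ∑ l, X j l * v l)]
  refine (Finset.sum_le_sum h3).trans ?_
  rw [Finset.sum_add_distrib, ← Finset.mul_sum, ← Finset.mul_sum, hv]
  linarith


end MYoung
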