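import Mathlib

namespace MYoung
open MeasureTheory Set

/-- The complement of the pure sets carries little of each component. -/
theorem rest_bound {Ω : Type*} [MeasurableSpace Ω] (μ : Measure Ω) [IsFiniteMeasure μ]
    (n N : ℕ) (Q : Fin n → Ω → ℝ) (hQm : ∀ i, Measurable (Q i)) (hQ0 : ∀ i x, 0 ≤ Q i x)
    (hQ1 : ∀ x, ∑ i, Q i x = 1)
    (T : Fin n → Set Ω) (hT : ∀ i, MeasurableSet (T i)) (hQT : ∀ i x, x ∉ T i → Q i x = 0)
    (B : Set Ω) (hB : MeasurableSet B) (hpure : ∀ x, x ∉ B → ∃ i, Q i x = 1)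
    (w : Fin n → Fin N → ℝ) (hw0 : ∀ i j, 0 ≤ w i j) (hw1 : ∀ i, ∑ j, w i j ^ 2 = 1)
    (Y : Ω → Fin N → ℝ) (hYm : ∀ j, Measurable fun x => Y x j) (hY0 : ∀ x j, 0 ≤ Y x j)
    (hYle : ∀ x j, Y x j ≤ 1)
    (hYz : ∀ x j, (∑ i, Q i x * w i j = 0) → Y x j = 0)
    (β α : ℝ) (j : Fin N)
    (hβ : ∑ i with (0 < w i j), μ.real (B ∩ T i) ≤ β)
    (hα : ∑ i with (0 < w i j ∧ w i j ≠ 1), μ.real (Bᶜ ∩ {x | Q i x = 1}) ≤ α) :
    ∫ x in (⋃ l, ⋃ i, ⋃ (_ : w i l = 1), Bᶜ ∩ {x | Q i x = 1})ᶜ, Y x j ∂μ ≤ β + α := by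
  classical
  have hQs : ∀ i, MeasurableSet {x | Q i x = 1} := fun i => (hQm i) (measurableSet_singleton 1)
  have hS1 : ∀ i, MeasurableSet (B ∩ T i) := fun i => hB.inter (hT i)
  have hS2 : ∀ i, MeasurableSet (Bᶜ ∩ {x | Q i x = 1}) := fun i => hB.compl.inter (hQs i)
  have hR : MeasurableSet (⋃ l, ⋃ i, ⋃ (_ : w i l = 1), Bᶜ ∩ {x | Q i x = 1}) :=
    MeasurableSet.iUnion fun l => MeasurableSet.iUnion fun i => MeasurableSet.iUnion fun _ => hS2 i
  obtain ⟨G1, hG1⟩ : ∃ G1 : Ω → ℝ, G1 = fun x => ∑ i with (0 < w i j), (B ∩ T i).indicator (fun _ => (1:ℝ)) x :=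
    ⟨_, rfl⟩
  obtain ⟨G2, hG2⟩ : ∃ G2 : Ω → ℝ, G2 = fun x => ∑ i with (0 < w i j ∧ w i j ≠ 1),
      (Bᶜ ∩ {x | Q i x = 1}).indicator (fun _ => (1:ℝ)) x := ⟨_, rfl⟩
  have hi1 : ∀ i, Integrable ((B ∩ T i).indicator (fun _ => (1:ℝ))) μ := fun i =>
    (integrable_const (1:ℝ)).indicator (hS1 i)
  have hi2 : ∀ i, Integrable ((Bᶜ ∩ {x | Q i x = 1}).indicator (fun _ => (1:ℝ))) μ := fun i =>
    (integrable_const (1:ℝ)).indicator (hS2 i)
  have hG1i : Integrable G1 μ := by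
    rw [hG1]; exact integrable_finset_sum _ fun i _ => hi1 i
  have hG2i : Integrable G2 μ := by
    rw [hG2]; exact integrable_finset_sum _ fun i _ => hi2 i
  have hind0 : ∀ (S : Set Ω) (x : Ω), 0 ≤ S.indicator (fun _ => (1:ℝ)) x := fun S x =>
    indicator_nonneg (fun _ _ => zero_le_one) x
  have hG10 : ∀ x, 0 ≤ G1 x := by
    intro x; rw [hG1]; exact Finset.sum_nonneg fun i _ => hind0 _ _
  have hG20 : ∀ x, 0 ≤ G2 x := by
    intro x; rw [hG2]; exact Finset.sum_nonneg fun i _ => hind0 _ _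
  have hYi : Integrable (fun x => Y x j) μ := by
    refine Integrable.mono' (integrable_const (1:ℝ)) (hYm j).aestronglyMeasurable ?_
    filter_upwards with x
    rw [Real.norm_eq_abs, abs_of_nonneg (hY0 x j)]
    exact hYle x j
  have hpt : ∀ x ∈ (⋃ l, ⋃ i, ⋃ (_ : w i l = 1), Bᶜ ∩ {x | Q i x = 1})ᶜ, Y x j ≤ G1 x + G2 x := by
    intro x hx
    have hge1 : ∀ i, 0 < w i j → x ∈ B ∩ T i → 1 ≤ G1 x := by
      intro i hi hxi
      rw [hG1]
      have := Finset.single_le_sum (f := fun i => (B ∩ T i).indicator (fun _ => (1:ℝ)) x)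
        (s := Finset.univ.filter fun i => 0 < w i j) (fun i _ => hind0 _ _)
        (Finset.mem_filter.mpr ⟨Finset.mem_univ i, hi⟩)
      simpa [indicator_of_mem hxi] using this
    have hge2 : ∀ i, 0 < w i j → w i j ≠ 1 → x ∈ Bᶜ ∩ {x | Q i x = 1} → 1 ≤ G2 x := by
      intro i hi hi' hxi
      rw [hG2]
      have := Finset.single_le_sum (f := fun i => (Bᶜ ∩ {x | Q i x = 1}).indicator (fun _ => (1:ℝ)) x)
        (s := Finset.univ.filter fun i => 0 < w i j ∧ w i j ≠ 1) (fun i _ => hind0 _ _)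
        (Finset.mem_filter.mpr ⟨Finset.mem_univ i, hi, hi'⟩)
      have h1 : (Bᶜ ∩ {x | Q i x = 1}).indicator (fun _ => (1:ℝ)) x = 1 := indicator_of_mem hxi _
      rw [h1] at this
      exact this
    by_cases hs : ∑ i, Q i x * w i j = 0
    · rw [hYz x j hs]
      exact add_nonneg (hG10 x) (hG20 x)
    by_cases hxB : x ∈ B
    · obtain ⟨i, -, hi⟩ := Finset.exists_ne_zero_of_sum_ne_zero hs
      have hQi : Q i x ≠ 0 := left_ne_zero_of_mul hi
      have hwi : 0 < w i j := lt_of_le_of_ne (hw0 i j) (right_ne_zero_of_mul hi).symm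
      have hxT : x ∈ T i := by
        by_contra h; exact hQi (hQT i x h)
      have := hge1 i hwi ⟨hxB, hxT⟩
      linarith [hYle x j, hG20 x]
    · obtain ⟨i, hi⟩ := hpure x hxB
      have hoth : ∀ k, k ≠ i → Q k x = 0 := by
        intro k hk
        have h1 := hQ1 x
        rw [← Finset.add_sum_erase _ _ (Finset.mem_univ i), hi] at h1
        have h2 : ∑ k ∈ Finset.univ.erase i, Q k x = 0 := by linarith
        exact (Finset.sum_eq_zero_iff_of_nonneg (fun k _ => hQ0 k x)).mp h2 k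
          (Finset.mem_erase.mpr ⟨hk, Finset.mem_univ k⟩)
      have hsum : ∑ k, Q k x * w k j = w i j := by
        rw [Finset.sum_eq_single i]
        · rw [hi, one_mul]
        · intro k _ hk
          rw [hoth k hk, zero_mul]
        · intro h; exact absurd (Finset.mem_univ i) h
      rw [hsum] at hs
      have hwi : 0 < w i j := lt_of_le_of_ne (hw0 i j) (Ne.symm hs)
      have hw1' : w i j ≠ 1 := by
        intro h
        apply hx
        simp only [mem_iUnion]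
        exact ⟨j, i, h, hxB, hi⟩
      have := hge2 i hwi hw1' ⟨hxB, hi⟩
      linarith [hYle x j, hG10 x]
  calc ∫ x in (⋃ l, ⋃ i, ⋃ (_ : w i l = 1), Bᶜ ∩ {x | Q i x = 1})ᶜ, Y x j ∂μ
      ≤ ∫ x in (⋃ l, ⋃ i, ⋃ (_ : w i l = 1), Bᶜ ∩ {x | Q i x = 1})ᶜ, (G1 x + G2 x) ∂μ :=
        setIntegral_mono_on hYi.integrableOn (hG1i.add hG2i).integrableOn hR.compl hpt
    _ ≤ ∫ x, (G1 x + G2 x) ∂μ := by
        apply setIntegral_le_integral (hG1i.add hG2i)
        filter_upwards with x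
        exact add_nonneg (hG10 x) (hG20 x)
    _ = (∫ x, G1 x ∂μ) + ∫ x, G2 x ∂μ := integral_add hG1i hG2i
    _ ≤ β + α := by
        have e1 : ∫ x, G1 x ∂μ = ∑ i with (0 < w i j), μ.real (B ∩ T i) := by
          rw [hG1, integral_finset_sum _ fun i _ => hi1 i]
          refine Finset.sum_congr rfl fun i _ => ?_
          rw [integral_indicator_const _ (hS1 i)]; simp
        have e2 : ∫ x, G2 x ∂μ = ∑ i with (0 < w i j ∧ w i j ≠ 1), μ.real (Bᶜ ∩ {x | Q i x = 1}) := by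
          rw [hG2, integral_finset_sum _ fun i _ => hi2 i]
          refine Finset.sum_congr rfl fun i _ => ?_
          rw [integral_indicator_const _ (hS2 i)]; simp
        rw [e1, e2]
        exact add_le_add hβ hα


end MYoung
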