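import Mathlib
import Pool.Agent.Helper343.MY.GramEst
import Pool.Agent.Helper343.MY.Pointwise
import Pool.Agent.Helper343.MY.Rest

namespace MYoung
open MeasureTheory Set

/-- For fixed parameters, the Gram estimates for the fields. -/
theorem facts {Ω : Type*} [MeasurableSpace Ω] (μ : Measure Ω) [IsFiniteMeasure μ]
    (N n K : ℕ) (hK : 1 ≤ K)
    (Q : Fin n → Ω → ℝ) (hQm : ∀ i, Measurable (Q i)) (hQ0 : ∀ i x, 0 ≤ Q i x)
    (hQ1 : ∀ x, ∑ i, Q i x = 1)
    (T : Fin n → Set Ω) (hT : ∀ i, MeasurableSet (T i)) (hQT : ∀ i x, x ∉ T i → Q i x = 0)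
    (hov : ∀ x, {i | x ∈ T i}.ncard ≤ K)
    (B : Set Ω) (hB : MeasurableSet B) (hpure : ∀ x, x ∉ B → ∃ i, Q i x = 1)
    (K1 τ β α : ℝ) (hτ : 0 ≤ τ) (hK1 : 2 * Real.sqrt K ≤ K1) (hKτ : K1 * τ ≤ 1 / 100)
    (hβα : β + α ≤ τ)
    (lam : Fin N → ℝ) (hlam : ∀ j, |lam j - 1| ≤ 1 / 2)
    (w : Fin n → Fin N → ℝ) (hw0 : ∀ i j, 0 ≤ w i j) (hw1 : ∀ i, ∑ j, w i j ^ 2 = 1)
    (hw2 : ∀ i, ∑ j, w i j ≤ 2)
    (hw3 : ∀ j, |∑ i with (w i j = 1), μ.real (Bᶜ ∩ {x | Q i x = 1}) - lam j| ≤ τ)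
    (hβ : ∀ j, ∑ i with (0 < w i j), μ.real (B ∩ T i) ≤ β)
    (hα : ∀ j, ∑ i with (0 < w i j ∧ w i j ≠ 1), μ.real (Bᶜ ∩ {x | Q i x = 1}) ≤ α)
    (X : Fin N → Fin N → ℝ) (hXs : ∀ j k, X j k = X k j) (hX0 : ∀ j, X j j = 0)
    (hXr : ∀ j, ∑ k, |X j k| ≤ 1 / 4)
    (W : Ω → Fin N → ℝ)
    (hW : ∀ x j, W x j = ∑ i, Q i x * w i j + ∑ l, X j l * ∑ i, Q i x * w i l)
    (G : Fin N → Fin N → ℝ) (hG : ∀ j k, G j k = ∫ x, W x j * W x k / (∑ i, W x i ^ 2) ∂μ) :
    (∀ x, 9 / (16 * (K : ℝ)) ≤ ∑ i, W x i ^ 2) ∧ (∀ j, |G j j - lam j| ≤ 1 / 2) ∧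
    (∀ j, ∑ k, |if k = j then 0 else X j k - G j k / 2| ≤ 1 / 4) ∧
    ∑ j, G j j = μ.real univ := by
  classical
  have hKr : (1 : ℝ) ≤ K := by exact_mod_cast hK
  have hKpos : (0 : ℝ) < K := by linarith
  have hsK : 1 ≤ Real.sqrt K := by
    rw [show (1 : ℝ) = Real.sqrt 1 by simp]
    exact Real.sqrt_le_sqrt hKr
  have hcard : ∀ x, {i | Q i x ≠ 0}.ncard ≤ K := by
    intro x
    refine le_trans (Set.ncard_le_ncard ?_ (Set.toFinite _)) (hov x)
    intro i hi
    by_contra h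
    exact hi (hQT i x h)
  have hfp : ∀ x, _ := fun x => field_pointwise n N K (fun i => Q i x) (fun i => hQ0 i x) (hQ1 x)
    (hcard x) w hw0 hw1 hw2
  set V : Ω → Fin N → ℝ := fun x j => ∑ i, Q i x * w i j with hVdef
  set s : Ω → ℝ := fun x => Real.sqrt (∑ j, V x j ^ 2) with hsdef
  have hV0 : ∀ x j, 0 ≤ V x j := fun x j =>
    Finset.sum_nonneg fun i _ => mul_nonneg (hQ0 i x) (hw0 i j)
  have hVS : ∀ x, 1 / (K : ℝ) ≤ ∑ j, V x j ^ 2 := fun x => (hfp x).1
  have hVSpos : ∀ x, 0 < ∑ j, V x j ^ 2 := fun x =>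
    lt_of_lt_of_le (by positivity) (hVS x)
  have hspos : ∀ x, 0 < s x := fun x => Real.sqrt_pos.mpr (hVSpos x)
  have hs2 : ∀ x, s x ^ 2 = ∑ j, V x j ^ 2 := fun x => Real.sq_sqrt (hVSpos x).le
  have hVm : ∀ j, Measurable fun x => V x j := by
    intro j
    exact Finset.measurable_sum _ fun i _ => (hQm i).mul_const _
  have hsm : Measurable s := by
    apply Measurable.sqrt
    exact Finset.measurable_sum _ fun j _ => (hVm j).pow_const 2
  set Y : Ω → Fin N → ℝ := fun x j => V x j / s x with hYdef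
  have hYm : ∀ j, Measurable fun x => Y x j := fun j => (hVm j).div hsm
  have hY0 : ∀ x j, 0 ≤ Y x j := fun x j => div_nonneg (hV0 x j) (hspos x).le
  have hY1 : ∀ x, ∑ j, Y x j ^ 2 = 1 := by
    intro x
    have : ∀ j, Y x j ^ 2 = V x j ^ 2 / s x ^ 2 := fun j => by rw [hYdef]; simp only; rw [div_pow]
    rw [Finset.sum_congr rfl fun j _ => this j, ← Finset.sum_div, ← hs2,
      div_self (pow_ne_zero 2 (hspos x).ne')]
  have hsinv : ∀ x, 1 ≤ Real.sqrt K * s x := by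
    intro x
    rw [hsdef]
    simp only
    rw [← Real.sqrt_mul hKpos.le, show (1 : ℝ) = Real.sqrt 1 by simp]
    apply Real.sqrt_le_sqrt
    have := hVS x
    rw [div_le_iff₀ hKpos] at this
    linarith [mul_comm (K : ℝ) (∑ j, V x j ^ 2)]
  have hYK : ∀ x, ∑ j, Y x j ≤ K1 := by
    intro x
    have h1 : ∑ j, Y x j = (∑ j, V x j) / s x := by
      rw [Finset.sum_div]
    rw [h1, div_le_iff₀ (hspos x)]
    have h2 : ∑ j, V x j ≤ 2 := (hfp x).2.1
    nlinarith [hsinv x, hspos x]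
  have hYle : ∀ x j, Y x j ≤ 1 := by
    intro x j
    have h1 : Y x j ^ 2 ≤ 1 := by
      rw [← hY1 x]
      exact Finset.single_le_sum (f := fun j => Y x j ^ 2) (fun i _ => sq_nonneg _)
        (Finset.mem_univ j)
    nlinarith [hY0 x j]
  set P : Fin N → Set Ω := fun l => ⋃ i, ⋃ (_ : w i l = 1), Bᶜ ∩ {x | Q i x = 1} with hPdef
  have hA0m : ∀ i, MeasurableSet (Bᶜ ∩ {x | Q i x = 1}) := fun i =>
    hB.compl.inter (hQm i (measurableSet_singleton 1))
  have hPm : ∀ l, MeasurableSet (P l) := fun l =>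
    MeasurableSet.iUnion fun i => MeasurableSet.iUnion fun _ => hA0m i
  have hP : ∀ l, ∀ x ∈ P l, ∀ j, Y x j = if j = l then 1 else 0 := by
    intro l x hx j
    simp only [hPdef, mem_iUnion] at hx
    obtain ⟨i, hi, hxi⟩ := hx
    have hVx : ∀ j, V x j = w i j := fun j => (hfp x).2.2 i hxi.2 j
    have hS1 : ∑ j, V x j ^ 2 = 1 := by
      rw [Finset.sum_congr rfl fun j _ => by rw [hVx j]]
      exact hw1 i
    have hsx : s x = 1 := by
      rw [hsdef]; simp only; rw [hS1]; simp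
    have hYx : Y x j = w i j := by
      rw [hYdef]; simp only; rw [hsx, hVx, div_one]
    rw [hYx]
    by_cases hjl : j = l
    · subst hjl; simp [hi]
    · rw [if_neg hjl]
      have h2 : w i j ^ 2 + w i l ^ 2 ≤ 1 := by
        rw [← hw1 i]
        have := Finset.sum_le_sum_of_subset_of_nonneg (s := {j, l}) (t := Finset.univ)
          (f := fun j => w i j ^ 2) (Finset.subset_univ _) (fun _ _ _ => sq_nonneg _)
        rw [Finset.sum_pair hjl] at this
        exact this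
      rw [hi] at h2
      have : w i j ^ 2 ≤ 0 := by linarith
      have := pow_eq_zero_iff (two_ne_zero) |>.mp (le_antisymm this (sq_nonneg _))
      exact this
  have hQone : ∀ x i, Q i x = 1 → ∀ j, j ≠ i → Q j x = 0 := by
    intro x i hi j hji
    have h2 : Q j x + Q i x ≤ 1 := by
      rw [← hQ1 x]
      have := Finset.sum_le_sum_of_subset_of_nonneg (s := {j, i}) (t := Finset.univ)
        (f := fun j => Q j x) (Finset.subset_univ _) (fun _ _ _ => hQ0 _ x)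
      rw [Finset.sum_pair hji] at this
      exact this
    linarith [hQ0 j x]
  have hdisj : ∀ i j, i ≠ j → Disjoint (Bᶜ ∩ {x | Q i x = 1}) (Bᶜ ∩ {x | Q j x = 1}) := by
    intro i j hij
    rw [Set.disjoint_left]
    intro x hx hx'
    have := hQone x i hx.2 j hij.symm
    rw [hx'.2] at this
    norm_num at this
  have hPμ : ∀ l, |μ.real (P l) - lam l| ≤ τ := by
    intro l
    have h1 : P l = ⋃ i ∈ (Finset.univ.filter fun i => w i l = 1), Bᶜ ∩ {x | Q i x = 1} := by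
      rw [hPdef]; ext x; simp
    have h2 : μ.real (P l) = ∑ i with (w i l = 1), μ.real (Bᶜ ∩ {x | Q i x = 1}) := by
      rw [h1, measureReal_biUnion_finset]
      · intro i _ j _ hij
        exact hdisj i j hij
      · intro i _
        exact hA0m i
    rw [h2]
    exact hw3 l
  have hR : ∀ j, ∫ x in (⋃ l, P l)ᶜ, Y x j ∂μ ≤ τ := by
    intro j
    refine le_trans ?_ hβα
    refine rest_bound μ n N Q hQm hQ0 hQ1 T hT hQT B hB hpure w hw0 hw1 Y hYm hY0 hYle ?_ β α j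
      (hβ j) (hα j)
    intro x j hx
    rw [hYdef]; simp only
    rw [show V x j = 0 from hx, zero_div]
  set W0 : Ω → Fin N → ℝ := fun x j => Y x j + ∑ l, X j l * Y x l with hW0def
  have hWW0 : ∀ x j, W x j = s x * W0 x j := by
    intro x j
    rw [hW, hW0def]
    simp only
    rw [mul_add, Finset.mul_sum]
    have h1 : ∀ l, s x * Y x l = V x l := fun l => by
      rw [hYdef]; simp only; rw [mul_div_cancel₀ _ (hspos x).ne']
    rw [h1]
    congr 1
    apply Finset.sum_congr rfl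
    intro l _
    rw [show s x * (X j l * Y x l) = X j l * (s x * Y x l) by ring, h1]
  have hsumW : ∀ x, ∑ i, W x i ^ 2 = s x ^ 2 * ∑ i, W0 x i ^ 2 := by
    intro x
    rw [Finset.mul_sum]
    apply Finset.sum_congr rfl
    intro i _
    rw [hWW0]; ring
  have hest := gram_est N μ K1 τ hτ (by linarith) hKτ lam hlam Y hYm hY0 hY1 hYK P hPm hP hPμ hR
    X hXs hX0 hXr W0 (fun x j => rfl) G (by
      intro j k
      rw [hG]
      apply integral_congr_ae
      refine ae_of_all _ fun x => ?_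
      simp only
      rw [hsumW, hWW0, hWW0, show s x * W0 x j * (s x * W0 x k) = s x ^ 2 * (W0 x j * W0 x k) by ring,
        mul_div_mul_left _ _ (pow_ne_zero 2 (hspos x).ne')])
  refine ⟨fun x => ?_, hest.2.1, hest.2.2.1, hest.2.2.2⟩
  rw [hsumW, hs2]
  have h1 := hest.1 x
  have h2 := hVS x
  have h3 : 9 / (16 * (K : ℝ)) = (1 / K) * (9 / 16) := by field_simp
  rw [h3]
  exact mul_le_mul h2 h1 (by norm_num) (hVSpos x).le

end MYoung
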