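import Mathlib

namespace MYoung
open MeasureTheory Set

/-- Continuity of the Gram matrix in the parameters. -/
theorem gram_cont {Ω : Type*} [MeasurableSpace Ω] (μ : Measure Ω) [IsFiniteMeasure μ]
    (n N : ℕ) (Q : Fin n → Ω → ℝ) (hQm : ∀ i, Measurable (Q i))
    (Λ : Set (Fin N → ℝ)) (Ξ : Set (Fin N → Fin N → ℝ))
    (w : (Fin N → ℝ) → Fin n → Fin N → ℝ) (hw : ∀ i j, ContinuousOn (fun lam => w lam i j) Λ)
    (W : (Fin N → ℝ) → (Fin N → Fin N → ℝ) → Ω → Fin N → ℝ)
    (hW : ∀ lam X x j, W lam X x j =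
      ∑ i, Q i x * w lam i j + ∑ l, X j l * ∑ i, Q i x * w lam i l)
    (hpos : ∀ lam ∈ Λ, ∀ X ∈ Ξ, ∀ x, 0 < ∑ i, W lam X x i ^ 2)
    (G : (Fin N → ℝ) → (Fin N → Fin N → ℝ) → Fin N → Fin N → ℝ)
    (hG : ∀ lam X j k, G lam X j k =
      ∫ x, W lam X x j * W lam X x k / (∑ i, W lam X x i ^ 2) ∂μ) :
    ∀ j k, ContinuousOn (fun p : (Fin N → ℝ) × (Fin N → Fin N → ℝ) => G p.1 p.2 j k) (Λ ×ˢ Ξ) := by
  intro j k
  have hWm : ∀ lam X j, Measurable (fun x => W lam X x j) := by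
    intro lam X j
    have : (fun x => W lam X x j) = fun x =>
        ∑ i, Q i x * w lam i j + ∑ l, X j l * ∑ i, Q i x * w lam i l := by
      funext x; exact hW lam X x j
    rw [this]
    refine Measurable.add ?_ ?_
    · exact Finset.measurable_sum _ (fun i _ => (hQm i).mul_const _)
    · refine Finset.measurable_sum _ (fun l _ => ?_)
      exact (Finset.measurable_sum _ (fun i _ => (hQm i).mul_const _)).const_mul _
  have hWc : ∀ x j, ContinuousOn
      (fun p : (Fin N → ℝ) × (Fin N → Fin N → ℝ) => W p.1 p.2 x j) (Λ ×ˢ Ξ) := by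
    intro x j
    have : (fun p : (Fin N → ℝ) × (Fin N → Fin N → ℝ) => W p.1 p.2 x j) = fun p =>
        ∑ i, Q i x * w p.1 i j + ∑ l, p.2 j l * ∑ i, Q i x * w p.1 i l := by
      funext p; exact hW p.1 p.2 x j
    rw [this]
    have h1 : ∀ i j, ContinuousOn
        (fun p : (Fin N → ℝ) × (Fin N → Fin N → ℝ) => w p.1 i j) (Λ ×ˢ Ξ) := by
      intro i j
      exact (hw i j).comp continuousOn_fst (fun p hp => hp.1)
    refine ContinuousOn.add ?_ ?_
    · exact continuousOn_finsetSum _ (fun i _ => continuousOn_const.mul (h1 i j))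
    · refine continuousOn_finsetSum _ (fun l _ => ?_)
      refine ContinuousOn.mul ?_ ?_
      · exact Continuous.continuousOn (by fun_prop)
      · exact continuousOn_finsetSum _ (fun i _ => continuousOn_const.mul (h1 i l))
  have hfun : (fun p : (Fin N → ℝ) × (Fin N → Fin N → ℝ) => G p.1 p.2 j k) = fun p =>
      ∫ x, W p.1 p.2 x j * W p.1 p.2 x k / (∑ i, W p.1 p.2 x i ^ 2) ∂μ := by
    funext p; exact hG p.1 p.2 j k
  rw [hfun]
  refine continuousOn_of_dominated (bound := fun _ => (1:ℝ)) ?_ ?_ ?_ ?_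
  · intro p _
    refine Measurable.aestronglyMeasurable ?_
    refine Measurable.div ((hWm _ _ j).mul (hWm _ _ k)) ?_
    exact Finset.measurable_sum _ (fun i _ => (hWm _ _ i).pow_const 2)
  · intro p hp
    refine Filter.Eventually.of_forall (fun x => ?_)
    have hs : 0 < ∑ i, W p.1 p.2 x i ^ 2 := hpos p.1 hp.1 p.2 hp.2 x
    have hj : W p.1 p.2 x j ^ 2 ≤ ∑ i, W p.1 p.2 x i ^ 2 :=
      Finset.single_le_sum (f := fun i => W p.1 p.2 x i ^ 2) (fun i _ => sq_nonneg _)
        (Finset.mem_univ j)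
    have hk : W p.1 p.2 x k ^ 2 ≤ ∑ i, W p.1 p.2 x i ^ 2 :=
      Finset.single_le_sum (f := fun i => W p.1 p.2 x i ^ 2) (fun i _ => sq_nonneg _)
        (Finset.mem_univ k)
    rw [Real.norm_eq_abs, abs_div, abs_of_pos hs, div_le_one hs, abs_le]
    constructor
    · nlinarith [sq_nonneg (W p.1 p.2 x j + W p.1 p.2 x k)]
    · nlinarith [sq_nonneg (W p.1 p.2 x j - W p.1 p.2 x k)]
  · exact integrable_const _
  · refine Filter.Eventually.of_forall (fun x => ?_)
    refine ContinuousOn.div ((hWc x j).mul (hWc x k)) ?_ ?_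
    · exact continuousOn_finsetSum _ (fun i _ => (hWc x i).pow 2)
    · intro p hp
      exact (hpos p.1 hp.1 p.2 hp.2 x).ne'


end MYoung
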