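import Mathlib

namespace MYoung
open MeasureTheory Set

/-- Fixed point argument (Brouwer is given as the hypothesis `hbr`). -/
theorem gram_fixed
    (hbr : ∀ (E : Type) [NormedAddCommGroup E] [NormedSpace ℝ E] [FiniteDimensional ℝ E]
      (f : E → E), Continuous f → ∀ R : ℝ, (∀ x, ‖f x‖ ≤ R) → ∃ x, f x = x)
    (N : ℕ) (hN : 1 ≤ N)
    (Λ : Set (Fin N → ℝ)) (hΛ : Λ = {lam | (∀ j, |lam j - 1| ≤ 1 / 2) ∧ ∑ j, lam j = (N : ℝ)})
    (Ξ : Set (Fin N → Fin N → ℝ))
    (hΞ : Ξ = {X | (∀ j k, X j k = X k j) ∧ (∀ j, X j j = 0) ∧ ∀ j, ∑ k, |X j k| ≤ 1 / 4})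
    (G : (Fin N → ℝ) → (Fin N → Fin N → ℝ) → Fin N → Fin N → ℝ)
    (hGc : ∀ j k, ContinuousOn (fun p : (Fin N → ℝ) × (Fin N → Fin N → ℝ) => G p.1 p.2 j k) (Λ ×ˢ Ξ))
    (hGs : ∀ lam ∈ Λ, ∀ X ∈ Ξ, ∀ j k, G lam X j k = G lam X k j)
    (h1 : ∀ lam ∈ Λ, ∀ X ∈ Ξ, ∀ j, |G lam X j j - lam j| ≤ 1 / 2)
    (h2 : ∀ lam ∈ Λ, ∀ X ∈ Ξ, ∀ j, ∑ k, |if k = j then 0 else X j k - G lam X j k / 2| ≤ 1 / 4)
    (h3 : ∀ lam ∈ Λ, ∀ X ∈ Ξ, ∑ j, G lam X j j = N) :
    ∃ lam ∈ Λ, ∃ X ∈ Ξ, ∀ j k, G lam X j k = if j = k then 1 else 0 := by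
  have hN0 : (0 : ℝ) < N := by exact_mod_cast hN
  -- the centered vector
  let z : (Fin N → ℝ) → Fin N → ℝ := fun lam j => (lam j - 1) - (∑ i, (lam i - 1)) / N
  have hzc : Continuous z := by
    refine continuous_pi fun j => ?_
    fun_prop
  have hzs : ∀ lam, ∑ j, z lam j = 0 := by
    intro lam
    simp only [z]
    rw [Finset.sum_sub_distrib, Finset.sum_const, Finset.card_univ, Fintype.card_fin, nsmul_eq_mul]
    field_simp
    ring
  let r1 : (Fin N → ℝ) → Fin N → ℝ := fun lam j => 1 + z lam j / max 1 (2 * ‖z lam‖)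
  have hr1c : Continuous r1 := by
    refine continuous_pi fun j => ?_
    refine continuous_const.add (Continuous.div ((continuous_apply j).comp hzc) ?_ ?_)
    · exact continuous_const.max (continuous_const.mul hzc.norm)
    · intro lam
      exact (lt_of_lt_of_le one_pos (le_max_left _ _)).ne'
  have hr1m : ∀ lam, r1 lam ∈ Λ := by
    intro lam
    rw [hΛ]
    refine ⟨fun j => ?_, ?_⟩
    · simp only [r1, add_sub_cancel_left]
      have hm : 0 < max 1 (2 * ‖z lam‖) := lt_of_lt_of_le one_pos (le_max_left _ _)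
      rw [abs_div, abs_of_pos hm, div_le_iff₀ hm]
      have h4 : |z lam j| ≤ ‖z lam‖ := norm_le_pi_norm (z lam) j
      have h5 : 2 * ‖z lam‖ ≤ max 1 (2 * ‖z lam‖) := le_max_right _ _
      linarith
    · simp only [r1]
      rw [Finset.sum_add_distrib, ← Finset.sum_div, hzs, zero_div, add_zero, Finset.sum_const,
        Finset.card_univ, Fintype.card_fin, nsmul_eq_mul, mul_one]
  have hr1id : ∀ lam ∈ Λ, r1 lam = lam := by
    intro lam hlam
    rw [hΛ] at hlam
    obtain ⟨ha, hb⟩ := hlam
    have hs : ∑ i, (lam i - 1) = 0 := by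
      rw [Finset.sum_sub_distrib, hb, Finset.sum_const, Finset.card_univ, Fintype.card_fin, nsmul_eq_mul]
      ring
    have hz : z lam = fun j => lam j - 1 := by
      funext j
      simp only [z]
      rw [hs, zero_div, sub_zero]
    have hzn : ‖z lam‖ ≤ 1 / 2 := by
      rw [pi_norm_le_iff_of_nonneg (by norm_num)]
      intro j
      rw [hz, Real.norm_eq_abs]
      exact ha j
    funext j
    simp only [r1]
    rw [max_eq_left (by linarith), hz]
    ring
  -- symmetrization
  let y : (Fin N → Fin N → ℝ) → Fin N → Fin N → ℝ := fun X j k => if j = k then 0 else (X j k + X k j) / 2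
  have hyc : Continuous y := by
    refine continuous_pi fun j => continuous_pi fun k => ?_
    by_cases hjk : j = k
    · simp only [y, if_pos hjk]
      exact continuous_const
    · simp only [y, if_neg hjk]
      fun_prop
  let nu : (Fin N → Fin N → ℝ) → ℝ := fun X => ‖(fun j => ∑ k, |y X j k| : Fin N → ℝ)‖
  have hnuc : Continuous nu := by
    refine Continuous.norm ?_
    refine continuous_pi fun j => ?_
    refine continuous_finsetSum _ fun k _ => ?_
    exact ((continuous_apply k).comp ((continuous_apply j).comp hyc)).abs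
  let r2 : (Fin N → Fin N → ℝ) → Fin N → Fin N → ℝ := fun X j k => y X j k / max 1 (4 * nu X)
  have hr2c : Continuous r2 := by
    refine continuous_pi fun j => continuous_pi fun k => ?_
    refine Continuous.div ((continuous_apply k).comp ((continuous_apply j).comp hyc)) ?_ ?_
    · exact continuous_const.max (continuous_const.mul hnuc)
    · intro lam
      exact (lt_of_lt_of_le one_pos (le_max_left _ _)).ne'
  have hr2m : ∀ X, r2 X ∈ Ξ := by
    intro X
    have hm : 0 < max 1 (4 * nu X) := lt_of_lt_of_le one_pos (le_max_left _ _)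
    rw [hΞ]
    refine ⟨fun j k => ?_, fun j => ?_, fun j => ?_⟩
    · simp only [r2, y]
      by_cases hjk : j = k
      · rw [if_pos hjk, if_pos hjk.symm]
      · rw [if_neg hjk, if_neg (Ne.symm hjk), add_comm]
    · simp only [r2, y]
      simp
    · simp only [r2]
      have h4 : ∑ k, |y X j k / max 1 (4 * nu X)| = (∑ k, |y X j k|) / max 1 (4 * nu X) := by
        rw [Finset.sum_div]
        refine Finset.sum_congr rfl fun k _ => ?_
        rw [abs_div, abs_of_pos hm]
      rw [h4, div_le_iff₀ hm]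
      have h5 : ∑ k, |y X j k| ≤ nu X := by
        have h6 := norm_le_pi_norm (fun j => ∑ k, |y X j k| : Fin N → ℝ) j
        simp only [Real.norm_eq_abs] at h6
        rw [abs_of_nonneg (Finset.sum_nonneg fun k _ => abs_nonneg _)] at h6
        exact h6
      have h6 : 4 * nu X ≤ max 1 (4 * nu X) := le_max_right _ _
      linarith
  have hr2id : ∀ X ∈ Ξ, r2 X = X := by
    intro X hX
    rw [hΞ] at hX
    obtain ⟨ha, hb, hc⟩ := hX
    have hy : y X = X := by
      funext j k
      simp only [y]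
      by_cases hjk : j = k
      · rw [if_pos hjk, hjk, hb]
      · rw [if_neg hjk, ha k j]
        ring
    have hnu : nu X ≤ 1 / 4 := by
      simp only [nu]
      rw [pi_norm_le_iff_of_nonneg (by norm_num)]
      intro j
      rw [hy, Real.norm_eq_abs, abs_of_nonneg (Finset.sum_nonneg fun k _ => abs_nonneg _)]
      exact hc j
    funext j k
    simp only [r2]
    rw [max_eq_left (by linarith), hy, div_one]
  -- the map
  let g : (Fin N → ℝ) × (Fin N → Fin N → ℝ) → (Fin N → ℝ) × (Fin N → Fin N → ℝ) := fun p =>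
    (fun j => p.1 j - G p.1 p.2 j j + 1, fun j k => if k = j then 0 else p.2 j k - G p.1 p.2 j k / 2)
  let r : (Fin N → ℝ) × (Fin N → Fin N → ℝ) → (Fin N → ℝ) × (Fin N → Fin N → ℝ) := fun p => (r1 p.1, r2 p.2)
  have hrc : Continuous r := (hr1c.comp continuous_fst).prodMk (hr2c.comp continuous_snd)
  have hrm : ∀ p, r p ∈ Λ ×ˢ Ξ := fun p => ⟨hr1m _, hr2m _⟩
  have hgm : ∀ p ∈ Λ ×ˢ Ξ, g p ∈ Λ ×ˢ Ξ := by
    rintro ⟨lam, X⟩ ⟨hlam, hX⟩
    have hlam' := hlam
    have hX' := hX
    simp only at hlam hX hlam' hX'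
    rw [hΛ] at hlam'
    rw [hΞ] at hX'
    refine ⟨?_, ?_⟩
    · rw [hΛ]
      refine ⟨fun j => ?_, ?_⟩
      · simp only [g]
        have h4 := h1 lam hlam X hX j
        rw [abs_sub_comm] at h4
        have h5 : lam j - G lam X j j + 1 - 1 = lam j - G lam X j j := by ring
        rw [h5]
        exact h4
      · simp only [g]
        rw [Finset.sum_add_distrib, Finset.sum_sub_distrib, h3 lam hlam X hX, hlam'.2, Finset.sum_const,
          Finset.card_univ, Fintype.card_fin, nsmul_eq_mul]
        ring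
    · rw [hΞ]
      refine ⟨fun j k => ?_, fun j => ?_, fun j => ?_⟩
      · simp only [g]
        by_cases hjk : k = j
        · rw [if_pos hjk, if_pos hjk.symm]
        · rw [if_neg hjk, if_neg (Ne.symm hjk), hX'.1 j k, hGs lam hlam X hX j k]
      · simp [g]
      · exact h2 lam hlam X hX j
  have hfc : Continuous (fun p => g (r p)) := by
    refine Continuous.prodMk ?_ ?_
    · refine continuous_pi fun j => ?_
      refine Continuous.add (Continuous.sub ?_ ?_) continuous_const
      · exact (continuous_apply j).comp (continuous_fst.comp hrc)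
      · exact (hGc j j).comp_continuous hrc hrm
    · refine continuous_pi fun j => continuous_pi fun k => ?_
      by_cases hjk : k = j
      · simp only [if_pos hjk]
        exact continuous_const
      · simp only [if_neg hjk]
        refine Continuous.sub ?_ ?_
        · exact (continuous_apply k).comp ((continuous_apply j).comp (continuous_snd.comp hrc))
        · exact ((hGc j k).comp_continuous hrc hrm).div_const 2
  have hbd : ∀ p, ‖g (r p)‖ ≤ 2 := by
    intro p
    have h4 := hgm _ (hrm p)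
    obtain ⟨h5, h6⟩ := h4
    rw [hΛ] at h5
    rw [hΞ] at h6
    rw [Prod.norm_def, max_le_iff]
    refine ⟨?_, ?_⟩
    · rw [pi_norm_le_iff_of_nonneg (by norm_num)]
      intro j
      have h7 := h5.1 j
      rw [abs_le] at h7
      rw [Real.norm_eq_abs, abs_le]
      constructor <;> linarith [h7.1, h7.2]
    · rw [pi_norm_le_iff_of_nonneg (by norm_num)]
      intro j
      rw [pi_norm_le_iff_of_nonneg (by norm_num)]
      intro k
      rw [Real.norm_eq_abs]
      have h7 : |(g (r p)).2 j k| ≤ ∑ k, |(g (r p)).2 j k| :=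
        Finset.single_le_sum (f := fun k => |(g (r p)).2 j k|) (fun k _ => abs_nonneg _) (Finset.mem_univ k)
      have h8 := h6.2.2 j
      linarith
  obtain ⟨p, hp⟩ := hbr ((Fin N → ℝ) × (Fin N → Fin N → ℝ)) (fun p => g (r p)) hfc 2 hbd
  have hpm : p ∈ Λ ×ˢ Ξ := by
    rw [← hp]
    exact hgm _ (hrm p)
  have hrp : r p = p := Prod.ext (hr1id _ hpm.1) (hr2id _ hpm.2)
  rw [hrp] at hp
  refine ⟨p.1, hpm.1, p.2, hpm.2, fun j k => ?_⟩
  by_cases hjk : j = k
  · rw [if_pos hjk, ← hjk]
    have h4 := congrFun (congrArg Prod.fst hp) j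
    simp only [g] at h4
    linarith
  · rw [if_neg hjk]
    have h4 := congrFun (congrFun (congrArg Prod.snd hp) j) k
    simp only [g] at h4
    rw [if_neg (Ne.symm hjk)] at h4
    linarith


end MYoung
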