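import Mathlib

namespace MYoung
open Finset

noncomputable def gtt (N : ℕ) (r : ℝ) (lam : Fin N → ℝ) (j : ℕ) : ℝ :=
  r * ∑ i ∈ Finset.univ.filter (fun i : Fin N => (i : ℕ) < j), lam i

noncomputable def gkk (N : ℕ) (t : ℕ → ℝ) (ε : ℝ) (j : ℕ) (s : ℝ) : ℝ :=
  if j = 0 then 1 else if N ≤ j then 0 else max 0 (min 1 ((s - t j) / ε))

theorem gtt_zero (N : ℕ) (r : ℝ) (lam : Fin N → ℝ) : gtt N r lam 0 = 0 := by
  simp [gtt]

theorem gtt_succ (N : ℕ) (r : ℝ) (lam : Fin N → ℝ) (j : Fin N) :
    gtt N r lam (j + 1) = gtt N r lam j + r * lam j := by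
  unfold gtt
  rw [← mul_add]
  congr 1
  have : (Finset.univ.filter (fun i : Fin N => (i : ℕ) < (j : ℕ) + 1)) =
      insert j (Finset.univ.filter (fun i : Fin N => (i : ℕ) < (j : ℕ))) := by
    ext i
    simp only [Finset.mem_filter, Finset.mem_univ, true_and, Finset.mem_insert]
    constructor
    · intro h
      rcases Nat.lt_succ_iff_lt_or_eq.1 h with h | h
      · exact Or.inr h
      · exact Or.inl (Fin.ext h)
    · rintro (h | h)
      · rw [h]; exact Nat.lt_succ_self _
      · exact Nat.lt_succ_of_lt h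
  rw [this, Finset.sum_insert (by simp)]
  ring

theorem gtt_N (N : ℕ) (r : ℝ) (lam : Fin N → ℝ) : gtt N r lam N = r * ∑ i, lam i := by
  unfold gtt
  congr 1
  refine Finset.sum_congr ?_ fun _ _ => rfl
  ext i
  simp

theorem gtt_mono (N : ℕ) (r : ℝ) (hr : 0 ≤ r) (lam : Fin N → ℝ) (h : ∀ i, 0 ≤ lam i) (j k : ℕ)
    (hjk : j ≤ k) : gtt N r lam j ≤ gtt N r lam k := by
  unfold gtt
  refine mul_le_mul_of_nonneg_left ?_ hr
  refine Finset.sum_le_sum_of_subset_of_nonneg ?_ fun i _ _ => h i
  intro i hi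
  simp only [Finset.mem_filter, Finset.mem_univ, true_and] at hi ⊢
  omega

theorem gtt_cont (N : ℕ) (r : ℝ) (j : ℕ) : Continuous (fun lam : Fin N → ℝ => gtt N r lam j) := by
  unfold gtt
  refine continuous_const.mul (continuous_finsetSum _ fun i _ => continuous_apply i)

section gk
variable (N : ℕ) (t : ℕ → ℝ) (ε : ℝ)

theorem gkk_nonneg (j : ℕ) (s : ℝ) : 0 ≤ gkk N t ε j s := by
  unfold gkk
  split_ifs
  · norm_num
  · norm_num
  · exact le_max_left _ _

theorem gkk_le_one (j : ℕ) (s : ℝ) : gkk N t ε j s ≤ 1 := by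
  unfold gkk
  split_ifs
  · norm_num
  · norm_num
  · exact max_le (by norm_num) (min_le_left _ _)

theorem gkk_one (hε : 0 < ε) (j : ℕ) (s : ℝ) (h : j = 0 ∨ (j < N ∧ t j + ε ≤ s)) :
    gkk N t ε j s = 1 := by
  unfold gkk
  rcases h with h | ⟨h1, h2⟩
  · rw [if_pos h]
  · by_cases h0 : j = 0
    · rw [if_pos h0]
    · rw [if_neg h0, if_neg (by omega)]
      have h3 : 1 ≤ (s - t j) / ε := by
        rw [le_div_iff₀ hε]
        linarith
      rw [min_eq_left h3]
      norm_num

theorem gkk_one_iff (hε : 0 < ε) (j : ℕ) (hj : j < N) (s : ℝ) :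
    gkk N t ε j s = 1 ↔ (j = 0 ∨ t j + ε ≤ s) := by
  constructor
  · intro h
    unfold gkk at h
    by_cases h0 : j = 0
    · exact Or.inl h0
    · right
      rw [if_neg h0, if_neg (by omega)] at h
      by_contra hc
      push Not at hc
      have h3 : (s - t j) / ε < 1 := by
        rw [div_lt_one hε]
        linarith
      have h4 : max 0 (min 1 ((s - t j) / ε)) < 1 :=
        max_lt (by norm_num) (lt_of_le_of_lt (min_le_right _ _) h3)
      linarith
  · intro h
    apply gkk_one N t ε hε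
    rcases h with h | h
    · exact Or.inl h
    · exact Or.inr ⟨hj, h⟩

theorem gkk_zero_iff (hε : 0 < ε) (j : ℕ) (hj : 1 ≤ j) (s : ℝ) :
    gkk N t ε j s = 0 ↔ (N ≤ j ∨ s ≤ t j) := by
  unfold gkk
  rw [if_neg (by omega)]
  constructor
  · intro h
    by_cases h0 : N ≤ j
    · exact Or.inl h0
    · right
      rw [if_neg h0] at h
      by_contra hc
      push Not at hc
      have h3 : 0 < (s - t j) / ε := div_pos (by linarith) hε
      have h4 : 0 < max 0 (min 1 ((s - t j) / ε)) :=
        lt_max_of_lt_right (lt_min (by norm_num) h3)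
      linarith
  · intro h
    by_cases h0 : N ≤ j
    · rw [if_pos h0]
    · rw [if_neg h0]
      rcases h with h | h
      · exact absurd h h0
      · apply max_eq_left
        refine (min_le_right _ _).trans ?_
        exact div_nonpos_of_nonpos_of_nonneg (by linarith) hε.le

theorem gkk_anti (hε : 0 < ε) (j : ℕ) (ht : t j ≤ t (j + 1)) (hj : j < N) (s : ℝ) :
    gkk N t ε (j + 1) s ≤ gkk N t ε j s := by
  by_cases h0 : j = 0
  · have : gkk N t ε j s = 1 := gkk_one N t ε hε j s (Or.inl h0)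
    rw [this]
    exact gkk_le_one N t ε _ s
  · by_cases h1 : N ≤ j + 1
    · have : gkk N t ε (j + 1) s = 0 := (gkk_zero_iff N t ε hε _ (by omega) s).2 (Or.inl h1)
      rw [this]
      exact gkk_nonneg N t ε _ s
    · unfold gkk
      rw [if_neg (by omega), if_neg h1, if_neg h0, if_neg (by omega)]
      refine max_le_max le_rfl (min_le_min le_rfl ?_)
      exact div_le_div_of_nonneg_right (by linarith) hε.le

theorem gkk_sum (hN : 1 ≤ N) (hε : 0 < ε) (s : ℝ) :
    ∑ j : Fin N, (gkk N t ε j s - gkk N t ε (j + 1) s) = 1 := by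
  have h1 := Fin.sum_univ_eq_sum_range (fun j => gkk N t ε j s - gkk N t ε (j + 1) s) N
  rw [h1, Finset.sum_range_sub']
  rw [gkk_one N t ε hε 0 s (Or.inl rfl), (gkk_zero_iff N t ε hε N hN s).2 (Or.inl le_rfl)]
  norm_num

theorem gkk_pos (hε : 0 < ε) (j : ℕ) (hj : j < N) (s : ℝ)
    (h : 0 < gkk N t ε j s - gkk N t ε (j + 1) s) :
    (j = 0 ∨ t j < s) ∧ (j + 1 = N ∨ s < t (j + 1) + ε) := by
  have a1 := gkk_nonneg N t ε j s
  have a2 := gkk_le_one N t ε j s
  have a3 := gkk_nonneg N t ε (j + 1) s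
  have a4 := gkk_le_one N t ε (j + 1) s
  constructor
  · by_cases h0 : j = 0
    · exact Or.inl h0
    · right
      by_contra hc
      push Not at hc
      have := (gkk_zero_iff N t ε hε j (by omega) s).2 (Or.inr hc)
      linarith
  · by_cases h0 : j + 1 = N
    · exact Or.inl h0
    · right
      by_contra hc
      push Not at hc
      have := (gkk_one_iff N t ε hε (j + 1) (by omega) s).2 (Or.inr hc)
      linarith

theorem gkk_p_one (hε : 0 < ε) (j : ℕ) (hj : j < N) (s : ℝ) :
    gkk N t ε j s - gkk N t ε (j + 1) s = 1 ↔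
      ((j = 0 ∨ t j + ε ≤ s) ∧ (j + 1 = N ∨ s ≤ t (j + 1))) := by
  have a1 := gkk_nonneg N t ε j s
  have a2 := gkk_le_one N t ε j s
  have a3 := gkk_nonneg N t ε (j + 1) s
  have a4 := gkk_le_one N t ε (j + 1) s
  have b1 := gkk_one_iff N t ε hε j hj s
  have b2 := gkk_zero_iff N t ε hε (j + 1) (by omega) s
  constructor
  · intro h
    refine ⟨b1.1 (by linarith), ?_⟩
    rcases b2.1 (by linarith) with h | h
    · left; omega
    · exact Or.inr h
  · rintro ⟨h1, h2⟩
    rw [b1.2 h1, b2.2 (by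
      rcases h2 with h | h
      · left; omega
      · exact Or.inr h)]
    norm_num

theorem gkk_card (hε : 0 < ε) (ht : ∀ j, j < N → t j + ε < t (j + 1))
    (hmono : ∀ j k, j ≤ k → t j ≤ t k) (s : ℝ) :
    (Finset.univ.filter (fun j : Fin N =>
      0 < gkk N t ε j s - gkk N t ε (j + 1) s)).card ≤ 2 := by
  set F := (Finset.univ.filter (fun j : Fin N =>
      0 < gkk N t ε j s - gkk N t ε (j + 1) s)) with hF
  rcases F.eq_empty_or_nonempty with h0 | h0
  · rw [h0]; simp
  · obtain ⟨j0, hj0, hmin⟩ := F.exists_min_image (fun j => (j : ℕ)) h0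
    have hsub : ∀ j ∈ F, (j : ℕ) ≤ j0 + 1 := by
      intro j hj
      by_contra hc
      push Not at hc
      have p1 := gkk_pos N t ε hε j j.2 s (Finset.mem_filter.1 hj).2
      have p0 := gkk_pos N t ε hε j0 j0.2 s (Finset.mem_filter.1 hj0).2
      have hjN := j.2
      have q1 : t j < s := by
        rcases p1.1 with h | h
        · omega
        · exact h
      have q0 : s < t (j0 + 1) + ε := by
        rcases p0.2 with h | h
        · omega
        · exact h
      have q2 := ht (j0 + 1) (by omega)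
      have q3 := hmono (j0 + 1 + 1) j (by omega)
      linarith
    have hc2 : F.card ≤ (Finset.Icc (j0 : ℕ) (j0 + 1)).card := by
      refine Finset.card_le_card_of_injOn (fun j => (j : ℕ)) ?_ ?_
      · intro j hj
        rw [Finset.mem_coe, Finset.mem_Icc]
        exact ⟨hmin j hj, hsub j hj⟩
      · intro a _ b _ hab
        exact Fin.ext hab
    refine hc2.trans ?_
    rw [Nat.card_Icc]
    omega

end gk

/-- Soft assignment of `n` items to `N` groups, continuous in the group sizes `lam`. -/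
theorem groups (N n : ℕ) (hN : 1 ≤ N) (m b S : Fin n → ℝ) (hm : ∀ i, 0 ≤ m i) (hb : ∀ i, 0 ≤ b i)
    (ε : ℝ) (hε : 0 < ε) (hε1 : ε ≤ 1 / 100) (κ η : ℝ) (hκ : 0 ≤ κ) (hη : 0 ≤ η) (hη1 : η ≤ 1 / 2)
    (hM : N * (1 - η) ≤ ∑ i, m i) (hM' : ∑ i, m i ≤ N)
    (hS0 : ∀ i, 0 ≤ S i ∧ S i ≤ ∑ i, m i)
    (hS1 : ∀ a c : ℝ, a ≤ c → ∑ i with (a ≤ S i ∧ S i ≤ c), m i ≤ c - a + ε)
    (hS2 : ∀ a c : ℝ, 0 ≤ a → a ≤ c → c ≤ ∑ i, m i →
        c - a - 2 * ε ≤ ∑ i with (a ≤ S i ∧ S i ≤ c), m i)
    (hS3 : ∀ a c : ℝ, a ≤ c → ∑ i with (a ≤ S i ∧ S i ≤ c), b i ≤ κ * (c - a + ε) + 4 * ε)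
    (Λ : Set (Fin N → ℝ)) (hΛ : Λ = {lam | (∀ j, |lam j - 1| ≤ 1 / 2) ∧ ∑ j, lam j = (N : ℝ)}) :
    ∃ w : (Fin N → ℝ) → Fin n → Fin N → ℝ, (∀ i j, ContinuousOn (fun lam => w lam i j) Λ) ∧
      ∀ lam ∈ Λ, (∀ i j, 0 ≤ w lam i j) ∧ (∀ i, ∑ j, w lam i j ^ 2 = 1) ∧
        (∀ i, ∑ j, w lam i j ≤ 2) ∧
        (∀ j, |∑ i with (w lam i j = 1), m i - lam j| ≤ 2 * η + 10 * ε) ∧
        (∀ j, ∑ i with (0 < w lam i j), b i ≤ 3 * κ + 10 * ε) ∧
        (∀ j, ∑ i with (0 < w lam i j ∧ w lam i j ≠ 1), m i ≤ 10 * ε) := by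
  set M := ∑ i, m i with hMdef
  have hNR : (1 : ℝ) ≤ N := by exact_mod_cast hN
  have hNpos : (0 : ℝ) < N := by linarith
  have hMpos : 0 < M := by
    have : 0 < (N : ℝ) * (1 - η) := mul_pos hNpos (by linarith)
    linarith
  set r := M / N with hr
  have hrpos : 0 < r := div_pos hMpos hNpos
  have hr1 : r ≤ 1 := by
    rw [hr, div_le_one hNpos]
    exact hM'
  have hr2 : 1 - η ≤ r := by
    rw [hr, le_div_iff₀ hNpos]
    linarith
  refine ⟨fun lam i j => Real.sqrt (gkk N (gtt N r lam) ε j (S i) -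
    gkk N (gtt N r lam) ε (j + 1) (S i)), ?_, ?_⟩
  · intro i j
    refine Continuous.continuousOn ?_
    have hk : ∀ k : ℕ, Continuous (fun lam : Fin N → ℝ => gkk N (gtt N r lam) ε k (S i)) := by
      intro k
      unfold gkk
      split_ifs
      · exact continuous_const
      · exact continuous_const
      · refine continuous_const.max (continuous_const.min ?_)
        exact (continuous_const.sub (gtt_cont N r k)).div_const _
    exact ((hk _).sub (hk _)).sqrt
  intro lam hlam
  rw [hΛ] at hlam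
  obtain ⟨hl1, hl2⟩ := hlam
  set t := gtt N r lam with htdef
  have hlo : ∀ j, 1 / 2 ≤ lam j := by
    intro j
    have := (abs_le.1 (hl1 j)).1
    linarith
  have hhi : ∀ j, lam j ≤ 3 / 2 := by
    intro j
    have := (abs_le.1 (hl1 j)).2
    linarith
  have hmono : ∀ j k, j ≤ k → t j ≤ t k := gtt_mono N r hrpos.le lam (fun i => by
    have := hlo i
    linarith)
  have ht0 : t 0 = 0 := gtt_zero N r lam
  have htN : t N = M := by
    rw [htdef, gtt_N, hl2, hr]
    field_simp
  have hts : ∀ j : Fin N, t (j + 1) = t j + r * lam j := gtt_succ N r lam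
  have hstep : ∀ j : Fin N, t j + ε < t (j + 1) := by
    intro j
    rw [hts j]
    have h1 : (1 / 2 : ℝ) * (1 / 2) ≤ r * lam j :=
      mul_le_mul (by linarith) (hlo j) (by norm_num) hrpos.le
    linarith
  have hstep' : ∀ j, j < N → t j + ε < t (j + 1) := fun j hj => hstep ⟨j, hj⟩
  have hpn : ∀ (j : Fin N) (s : ℝ), 0 ≤ gkk N t ε j s - gkk N t ε (j + 1) s := by
    intro j s
    have := gkk_anti N t ε hε j (hmono _ _ (Nat.le_succ _)) j.2 s
    linarith
  have hp1 : ∀ (j : Fin N) (s : ℝ), gkk N t ε j s - gkk N t ε (j + 1) s ≤ 1 := by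
    intro j s
    have h1 := gkk_le_one N t ε j s
    have h2 := gkk_nonneg N t ε (j + 1) s
    linarith
  have hw1 : ∀ (j : Fin N) (s : ℝ),
      Real.sqrt (gkk N t ε j s - gkk N t ε (j + 1) s) = 1 ↔
      ((j : ℕ) = 0 ∨ t j + ε ≤ s) ∧ ((j : ℕ) + 1 = N ∨ s ≤ t (j + 1)) := by
    intro j s
    rw [Real.sqrt_eq_one]
    exact gkk_p_one N t ε hε j j.2 s
  have hw0 : ∀ (j : Fin N) (s : ℝ), 0 ≤ s → s ≤ M →
      0 < Real.sqrt (gkk N t ε j s - gkk N t ε (j + 1) s) →
      t j ≤ s ∧ s ≤ t (j + 1) + ε := by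
    intro j s hs0 hsM h
    rw [Real.sqrt_pos] at h
    have h2 := gkk_pos N t ε hε j j.2 s h
    constructor
    · rcases h2.1 with h3 | h3
      · rw [h3, ht0]; exact hs0
      · exact h3.le
    · rcases h2.2 with h3 | h3
      · rw [h3, htN]; linarith
      · exact h3.le
  refine ⟨?_, ?_, ?_, ?_, ?_, ?_⟩
  · intro i j
    exact Real.sqrt_nonneg _
  · intro i
    rw [← gkk_sum N t ε hN hε (S i)]
    refine Finset.sum_congr rfl fun j _ => ?_
    exact Real.sq_sqrt (hpn j (S i))
  · intro i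
    have hc := gkk_card N t ε hε hstep' hmono (S i)
    calc ∑ j : Fin N, Real.sqrt (gkk N t ε j (S i) - gkk N t ε (j + 1) (S i))
        ≤ ∑ j : Fin N, (if 0 < gkk N t ε j (S i) - gkk N t ε (j + 1) (S i) then (1:ℝ) else 0) := by
          refine Finset.sum_le_sum fun j _ => ?_
          split_ifs with h
          · rw [← Real.sqrt_one]; apply Real.sqrt_le_sqrt
            exact hp1 j _
          · rw [Real.sqrt_eq_zero_of_nonpos (not_lt.1 h)]
      _ = ((Finset.univ.filter (fun j : Fin N =>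
            0 < gkk N t ε j (S i) - gkk N t ε (j + 1) (S i))).card : ℝ) := by
          rw [Finset.sum_boole]
      _ ≤ 2 := by exact_mod_cast hc
  · intro j
    set a : ℝ := if (j : ℕ) = 0 then 0 else t j + ε with ha
    set c : ℝ := t (j + 1) with hc
    have hfil : (Finset.univ.filter (fun i : Fin n =>
        Real.sqrt (gkk N t ε j (S i) - gkk N t ε (j + 1) (S i)) = 1)) =
        (Finset.univ.filter (fun i : Fin n => a ≤ S i ∧ S i ≤ c)) := by
      ext i
      simp only [Finset.mem_filter, Finset.mem_univ, true_and]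
      rw [hw1]
      apply and_congr
      · rw [ha]
        split_ifs with h
        · simp [h, (hS0 i).1]
        · simp [h]
      · rw [hc]
        constructor
        · rintro (h | h)
          · rw [h, htN]; exact (hS0 i).2
          · exact h
        · intro h
          exact Or.inr h
    have ha0 : 0 ≤ a := by
      rw [ha]
      split_ifs
      · exact le_rfl
      · have := hmono 0 j (Nat.zero_le _)
        linarith
    have hat : t j ≤ a ∧ a ≤ t j + ε := by
      rw [ha]
      split_ifs with h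
      · rw [h, ht0]
        constructor <;> linarith
      · constructor <;> linarith
    have hst := hstep j
    have hac : a ≤ c := by linarith [hat.2]
    have hcM : c ≤ M := by
      rw [hc, ← htN]
      exact hmono _ _ j.2
    have e1 := hS1 a c hac
    have e2 := hS2 a c ha0 hac hcM
    have hlen := hts j
    have f1 : r * lam j ≤ lam j := by
      have := hlo j
      nlinarith
    have f2 : lam j - 2 * η ≤ r * lam j := by
      have g1 := hlo j
      have g2 := hhi j
      have g3 : (1 - η) * lam j ≤ r * lam j := mul_le_mul_of_nonneg_right hr2 (by linarith)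
      nlinarith
    have hgoal : |∑ i with (Real.sqrt (gkk N t ε j (S i) - gkk N t ε (j + 1) (S i)) = 1), m i -
        lam j| ≤ 2 * η + 10 * ε := by
      rw [hfil, abs_le]
      constructor <;> linarith [hat.1, hat.2]
    exact hgoal
  · intro j
    have hst := hstep j
    have h1 : ∑ i with (0 < Real.sqrt (gkk N t ε j (S i) - gkk N t ε (j + 1) (S i))), b i ≤
        ∑ i with (t j ≤ S i ∧ S i ≤ t (j + 1) + ε), b i := by
      refine Finset.sum_le_sum_of_subset_of_nonneg ?_ fun i _ _ => hb i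
      intro i hi
      simp only [Finset.mem_filter, Finset.mem_univ, true_and] at hi ⊢
      exact hw0 j (S i) (hS0 i).1 (hS0 i).2 hi
    have h2 := hS3 (t j) (t (j + 1) + ε) (by linarith)
    have h3 : t (j + 1) + ε - t j + ε ≤ 3 := by
      rw [hts j]
      have g1 := hlo j
      have g2 := hhi j
      have : r * lam j ≤ lam j := by nlinarith
      linarith
    have h4 : κ * (t (j + 1) + ε - t j + ε) ≤ κ * 3 := mul_le_mul_of_nonneg_left h3 hκ
    have h5 : ∑ i with (0 < Real.sqrt (gkk N t ε j (S i) - gkk N t ε (j + 1) (S i))), b i ≤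
        3 * κ + 10 * ε := by linarith
    exact h5
  · intro j
    have h1 : ∑ i with (0 < Real.sqrt (gkk N t ε j (S i) - gkk N t ε (j + 1) (S i)) ∧
        Real.sqrt (gkk N t ε j (S i) - gkk N t ε (j + 1) (S i)) ≠ 1), m i ≤
        ∑ i with (t j ≤ S i ∧ S i ≤ t j + ε), m i +
        ∑ i with (t (j + 1) ≤ S i ∧ S i ≤ t (j + 1) + ε), m i := by
      rw [Finset.sum_filter, Finset.sum_filter, Finset.sum_filter, ← Finset.sum_add_distrib]
      refine Finset.sum_le_sum fun i _ => ?_
      by_cases c1 : t j ≤ S i ∧ S i ≤ t j + ε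
      · rw [if_pos c1]
        have x1 : 0 ≤ (if t (j + 1) ≤ S i ∧ S i ≤ t (j + 1) + ε then m i else 0) := by
          split_ifs
          · exact hm i
          · exact le_rfl
        have x2 : (if 0 < Real.sqrt (gkk N t ε j (S i) - gkk N t ε (j + 1) (S i)) ∧
            Real.sqrt (gkk N t ε j (S i) - gkk N t ε (j + 1) (S i)) ≠ 1 then m i else 0) ≤ m i := by
          split_ifs
          · exact le_rfl
          · exact hm i
        linarith
      · rw [if_neg c1]
        by_cases c2 : t (j + 1) ≤ S i ∧ S i ≤ t (j + 1) + ε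
        · rw [if_pos c2, zero_add]
          split_ifs
          · exact le_rfl
          · exact hm i
        · rw [if_neg c2, if_neg]
          · norm_num
          · rintro ⟨d1, d2⟩
            apply d2
            have d3 := hw0 j (S i) (hS0 i).1 (hS0 i).2 d1
            rw [hw1]
            constructor
            · right
              by_contra hcon
              push Not at hcon
              exact c1 ⟨d3.1, hcon.le⟩
            · right
              by_contra hcon
              push Not at hcon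
              exact c2 ⟨hcon.le, d3.2⟩
    have h2 := hS1 (t j) (t j + ε) (by linarith)
    have h3 := hS1 (t (j + 1)) (t (j + 1) + ε) (by linarith)
    have h5 : ∑ i with (0 < Real.sqrt (gkk N t ε j (S i) - gkk N t ε (j + 1) (S i)) ∧
        Real.sqrt (gkk N t ε j (S i) - gkk N t ε (j + 1) (S i)) ≠ 1), m i ≤ 10 * ε := by
      linarith
    exact h5


end MYoung
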