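import Mathlib

namespace MYoung
open Finset

theorem greedy_step {ι : Type*} [DecidableEq ι] (d : ι → ℝ) (ε : ℝ) (F : Finset ι) (hF : F.Nonempty)
    (hd : ∀ i ∈ F, |d i| ≤ ε) (v : ℝ) (hv : |v| ≤ ε) (hv2 : |v + ∑ i ∈ F, d i| ≤ ε) :
    ∃ i ∈ F, |v + d i| ≤ ε := by
  rw [abs_le] at hv hv2
  rcases le_or_gt 0 v with h0 | h0
  · by_cases h : ∃ i ∈ F, d i ≤ 0
    · obtain ⟨i, hi, hdi⟩ := h
      have := hd i hi
      rw [abs_le] at this
      exact ⟨i, hi, by rw [abs_le]; constructor <;> linarith⟩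
    · push Not at h
      obtain ⟨i, hi⟩ := hF
      have h1 : d i ≤ ∑ j ∈ F, d j := Finset.single_le_sum (fun j hj => (h j hj).le) hi
      have h2 := h i hi
      exact ⟨i, hi, by rw [abs_le]; constructor <;> linarith⟩
  · by_cases h : ∃ i ∈ F, 0 ≤ d i
    · obtain ⟨i, hi, hdi⟩ := h
      have := hd i hi
      rw [abs_le] at this
      exact ⟨i, hi, by rw [abs_le]; constructor <;> linarith⟩
    · push Not at h
      obtain ⟨i, hi⟩ := hF
      have h1 : - d i ≤ ∑ j ∈ F, - d j :=
        Finset.single_le_sum (f := fun j => - d j) (fun j hj => by have := h j hj; linarith) hi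
      rw [Finset.sum_neg_distrib] at h1
      have h2 := h i hi
      exact ⟨i, hi, by rw [abs_le]; constructor <;> linarith⟩

theorem greedy {ι : Type*} [DecidableEq ι] [Nonempty ι] (d : ι → ℝ) (ε : ℝ) (s : ℕ) :
    ∀ (F : Finset ι), F.card = s → (∀ i ∈ F, |d i| ≤ ε) → ∀ v : ℝ, |v| ≤ ε → |v + ∑ i ∈ F, d i| ≤ ε →
    ∃ f : ℕ → ι, Set.InjOn f (range s : Finset ℕ) ∧ (range s).image f = F ∧
      ∀ k ≤ s, |v + ∑ j ∈ range k, d (f j)| ≤ ε := by
  induction s with
  | zero =>
    intro F hF _ v hv _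
    rw [Finset.card_eq_zero] at hF
    subst hF
    refine ⟨fun _ => Classical.arbitrary ι, by simp, by simp, ?_⟩
    intro k hk
    have : k = 0 := by omega
    subst this
    simpa using hv
  | succ s ih =>
    intro F hF hd v hv hv2
    have hne : F.Nonempty := by
      rw [← Finset.card_pos]; omega
    obtain ⟨i0, hi0, hvi⟩ := greedy_step d ε F hne hd v hv hv2
    have hcard : (F.erase i0).card = s := by
      rw [Finset.card_erase_of_mem hi0]; omega
    have hsum : v + d i0 + ∑ i ∈ F.erase i0, d i = v + ∑ i ∈ F, d i := by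
      rw [← Finset.add_sum_erase F d hi0]; ring
    obtain ⟨f, hinj, him, hpar⟩ := ih (F.erase i0) hcard (fun i hi => hd i (Finset.mem_of_mem_erase hi))
      (v + d i0) hvi (by rw [hsum]; exact hv2)
    have hfmem : ∀ k, k < s → f k ∈ F.erase i0 := by
      intro k hk
      rw [← him]
      exact Finset.mem_image_of_mem f (Finset.mem_range.mpr hk)
    let g : ℕ → ι := fun k => Nat.casesOn k i0 f
    have g0 : g 0 = i0 := rfl
    have gs : ∀ k, g (k + 1) = f k := fun _ => rfl
    refine ⟨g, ?_, ?_, ?_⟩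
    · intro x hx y hy hxy
      simp only [Finset.coe_range, Set.mem_Iio] at hx hy
      rcases x with _ | x
      · rcases y with _ | y
        · rfl
        · exfalso
          rw [g0, gs] at hxy
          have := hfmem y (by omega)
          rw [← hxy] at this
          exact (Finset.notMem_erase i0 F) this
      · rcases y with _ | y
        · exfalso
          rw [g0, gs] at hxy
          have := hfmem x (by omega)
          rw [hxy] at this
          exact (Finset.notMem_erase i0 F) this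
        · rw [gs, gs] at hxy
          have := hinj (by simp; omega) (by simp; omega) hxy
          omega
    · ext i
      rw [Finset.mem_image]
      constructor
      · rintro ⟨k, hk, rfl⟩
        rw [Finset.mem_range] at hk
        rcases k with _ | k
        · exact hi0
        · exact Finset.mem_of_mem_erase (hfmem k (by omega))
      · intro hi
        by_cases h : i = i0
        · exact ⟨0, by simp, by rw [g0, h]⟩
        · have : i ∈ F.erase i0 := Finset.mem_erase.mpr ⟨h, hi⟩
          rw [← him, Finset.mem_image] at this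
          obtain ⟨k, hk, hk2⟩ := this
          rw [Finset.mem_range] at hk
          exact ⟨k + 1, by rw [Finset.mem_range]; omega, by rw [gs, hk2]⟩
    · intro k hk
      rcases k with _ | k
      · simpa using hv
      · rw [Finset.sum_range_succ']
        have := hpar k (by omega)
        have e : v + (∑ j ∈ range k, d (g (j + 1)) + d (g 0)) = v + d i0 + ∑ j ∈ range k, d (f j) := by
          simp only [gs, g0]; ring
        rw [e]; exact this

theorem initial (p : ℕ → Prop) (hp : ∀ k l, k ≤ l → p l → p k) (n : ℕ) :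
    ∃ k0 ≤ n, ∀ k < n, (p k ↔ k < k0) := by
  induction n with
  | zero => exact ⟨0, le_rfl, fun k hk => absurd hk (by omega)⟩
  | succ n ih =>
    obtain ⟨k0, hk0, h⟩ := ih
    by_cases hn : p n
    · refine ⟨n + 1, le_rfl, fun k hk => ⟨fun _ => hk, fun _ => hp k n (by omega) hn⟩⟩
    · refine ⟨k0, by omega, fun k hk => ?_⟩
      rcases Nat.lt_succ_iff_lt_or_eq.mp hk with h1 | h1
      · exact h k h1
      · subst h1
        exact ⟨fun h2 => absurd h2 hn, fun h2 => absurd h2 (by omega)⟩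

theorem windows (n : ℕ) (m d : ℕ → ℝ) (hm : ∀ i, 0 ≤ m i)
    (ε : ℝ) (hε : 0 ≤ ε) (hmε : ∀ i, m i ≤ ε)
    (hd : ∀ k ≤ n, |∑ j ∈ range k, d j| ≤ ε) (a c : ℝ) (hac : a ≤ c) :
    (∑ k ∈ range n with (a ≤ ∑ j ∈ range k, m j ∧ ∑ j ∈ range k, m j ≤ c), m k ≤ c - a + ε) ∧
    (0 ≤ a → c ≤ ∑ k ∈ range n, m k → c - a - 2 * ε ≤
      ∑ k ∈ range n with (a ≤ ∑ j ∈ range k, m j ∧ ∑ j ∈ range k, m j ≤ c), m k) ∧
    (∑ k ∈ range n with (a ≤ ∑ j ∈ range k, m j ∧ ∑ j ∈ range k, m j ≤ c), d k ≤ 2 * ε) := by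
  set P : ℕ → ℝ := fun k => ∑ j ∈ range k, m j with hP
  have hPs : ∀ k, P (k + 1) = P k + m k := fun k => Finset.sum_range_succ m k
  have hmono : Monotone P := monotone_nat_of_le_succ (fun k => by rw [hPs]; linarith [hm k])
  obtain ⟨k0, hk0n, hk0⟩ := initial (fun k => P k < a) (fun k l hkl h => lt_of_le_of_lt (hmono hkl) h) n
  obtain ⟨k1, hk1n, hk1⟩ := initial (fun k => P k ≤ c) (fun k l hkl h => le_trans (hmono hkl) h) n
  have hk01 : k0 ≤ k1 := by
    by_contra hcon
    push Not at hcon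
    have h1 : P k1 < a := (hk0 k1 (by omega)).mpr hcon
    have h2 := (hk1 k1 (by omega)).mp (by linarith)
    omega
  have hW : (range n).filter (fun k => a ≤ P k ∧ P k ≤ c) = Finset.Ico k0 k1 := by
    ext k
    rw [Finset.mem_filter, Finset.mem_range, Finset.mem_Ico]
    constructor
    · rintro ⟨hk, h1, h2⟩
      refine ⟨?_, (hk1 k hk).mp h2⟩
      by_contra hcon
      push Not at hcon
      have := (hk0 k hk).mpr hcon
      linarith
    · rintro ⟨h1, h2⟩
      have hk : k < n := by omega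
      refine ⟨hk, ?_, (hk1 k hk).mpr h2⟩
      by_contra hcon
      push Not at hcon
      have := (hk0 k hk).mp hcon
      omega
  have hsumW : ∀ f : ℕ → ℝ, ∑ k ∈ Finset.Ico k0 k1, f k = ∑ k ∈ range k1, f k - ∑ k ∈ range k0, f k := by
    intro f; rw [Finset.sum_Ico_eq_sub _ hk01]
  have hWm : ∑ k ∈ (range n).filter (fun k => a ≤ P k ∧ P k ≤ c), m k = P k1 - P k0 := by
    rw [hW, hsumW]
  have hWd : ∑ k ∈ (range n).filter (fun k => a ≤ P k ∧ P k ≤ c), d k
      = ∑ k ∈ range k1, d k - ∑ k ∈ range k0, d k := by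
    rw [hW, hsumW]
  refine ⟨?_, ?_, ?_⟩
  · refine hWm.trans_le ?_
    rcases Nat.eq_or_lt_of_le hk01 with h | h
    · rw [h]; linarith
    · have h1 : a ≤ P k0 := by
        by_contra hcon
        push Not at hcon
        have := (hk0 k0 (by omega)).mp hcon
        omega
      obtain ⟨k2, rfl⟩ : ∃ k2, k1 = k2 + 1 := ⟨k1 - 1, by omega⟩
      have h2 : P k2 ≤ c := (hk1 k2 (by omega)).mpr (by omega)
      rw [hPs]
      have := hmε k2
      linarith
  · intro ha hc
    refine le_trans ?_ hWm.ge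
    have h1 : P k0 ≤ a + ε := by
      rcases k0 with _ | k0
      · have : P 0 = 0 := by simp [hP]
        rw [this]; linarith
      · have h2 : P k0 < a := (hk0 k0 (by omega)).mpr (by omega)
        rw [hPs]
        have := hmε k0
        linarith
    have h2 : c ≤ P k1 := by
      rcases Nat.eq_or_lt_of_le hk1n with h | h
      · rw [h]; exact hc
      · by_contra hcon
        push Not at hcon
        have := (hk1 k1 h).mp hcon.le
        omega
    linarith
  · refine hWd.trans_le ?_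
    have h1 := hd k1 hk1n
    have h2 := hd k0 hk0n
    rw [abs_le] at h1 h2
    linarith

/-- Balanced ordering: positions `S i` (cumulative masses) such that every window of
positions has `m`-mass about its length and small `b`-mass. -/
theorem ordering (n : ℕ) (m b : Fin n → ℝ) (hm : ∀ i, 0 ≤ m i) (hb : ∀ i, 0 ≤ b i)
    (ε : ℝ) (hε : 0 ≤ ε) (hmε : ∀ i, m i ≤ ε) (hbε : ∀ i, b i ≤ ε)
    (κ : ℝ) (hκ : 0 ≤ κ) (hκ1 : κ ≤ 1) (hsum : ∑ i, b i ≤ κ * ∑ i, m i) :
    ∃ S : Fin n → ℝ, (∀ i, 0 ≤ S i ∧ S i ≤ ∑ i, m i) ∧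
      (∀ a c : ℝ, a ≤ c → ∑ i with (a ≤ S i ∧ S i ≤ c), m i ≤ c - a + ε) ∧
      (∀ a c : ℝ, 0 ≤ a → a ≤ c → c ≤ ∑ i, m i →
        c - a - 2 * ε ≤ ∑ i with (a ≤ S i ∧ S i ≤ c), m i) ∧
      (∀ a c : ℝ, a ≤ c → ∑ i with (a ≤ S i ∧ S i ≤ c), b i ≤ κ * (c - a + ε) + 4 * ε) := by
  rcases Nat.eq_zero_or_pos n with hn | hn
  · subst hn
    refine ⟨fun _ => 0, fun i => i.elim0, ?_, ?_, ?_⟩
    · intro a c hac; simp; linarith
    · intro a c ha hac hc
      simp at hc ⊢; linarith
    · intro a c hac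
      simp
      have : 0 ≤ κ * (c - a + ε) := mul_nonneg hκ (by linarith)
      linarith
  have : Nonempty (Fin n) := ⟨⟨0, hn⟩⟩
  set M := ∑ i, m i with hM
  have hM0 : 0 ≤ M := Finset.sum_nonneg (fun i _ => hm i)
  have hB0 : 0 ≤ ∑ i, b i := Finset.sum_nonneg (fun i _ => hb i)
  set κ1 := (∑ i, b i) / M with hκ1def
  have hκ10 : 0 ≤ κ1 := div_nonneg hB0 hM0
  have hκ1M : κ1 * M = ∑ i, b i := by
    rcases hM0.eq_or_lt with h | h
    · rw [← h, mul_zero] at hsum
      rw [← h, mul_zero]; linarith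
    · rw [hκ1def]; field_simp
  have hκ1κ : κ1 ≤ κ := by
    rcases hM0.eq_or_lt with h | h
    · rw [hκ1def, ← h, div_zero]; exact hκ
    · rw [hκ1def, div_le_iff₀ h]; exact hsum
  let d : Fin n → ℝ := fun i => b i - κ1 * m i
  have hd : ∀ i, |d i| ≤ ε := by
    intro i
    have h1 : 0 ≤ κ1 * m i := mul_nonneg hκ10 (hm i)
    have h2 : κ1 * m i ≤ 1 * ε := mul_le_mul (by linarith) (hmε i) (hm i) (by norm_num)
    have h3 := hb i
    have h4 := hbε i
    rw [abs_le]; constructor <;> simp only [d] <;> linarith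
  have hd0 : ∑ i, d i = 0 := by
    simp only [d]
    rw [Finset.sum_sub_distrib, ← Finset.mul_sum, ← hM, hκ1M]; ring
  obtain ⟨f, hinj, him, hpar⟩ := greedy d ε n (Finset.univ : Finset (Fin n)) (by simp)
    (fun i _ => hd i) 0 (by simpa using hε) (by rw [hd0]; simpa using hε)
  have hex : ∀ i : Fin n, ∃ k, k < n ∧ f k = i := by
    intro i
    have : i ∈ (range n).image f := by rw [him]; exact Finset.mem_univ i
    rw [Finset.mem_image] at this
    obtain ⟨k, hk, hk2⟩ := this
    exact ⟨k, Finset.mem_range.mp hk, hk2⟩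
  choose g hg1 hg2 using hex
  have hgf : ∀ k, k < n → g (f k) = k := by
    intro k hk
    exact hinj (by simpa using hg1 (f k)) (by simpa using hk) (hg2 (f k))
  have hsumc : ∀ w : Fin n → ℝ, ∑ i, w i = ∑ k ∈ range n, w (f k) := by
    intro w
    rw [← him, Finset.sum_image]
    intro x hx y hy hxy
    exact hinj hx hy hxy
  let P : ℕ → ℝ := fun k => ∑ j ∈ range k, m (f j)
  have hPs : ∀ k, P (k + 1) = P k + m (f k) := fun k => Finset.sum_range_succ _ k
  have hmono : Monotone P := monotone_nat_of_le_succ (fun k => by rw [hPs]; linarith [hm (f k)])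
  have hP0 : P 0 = 0 := by simp [P]
  have hPn : P n = M := by rw [hM, hsumc m]
  have hwin : ∀ (w : Fin n → ℝ) (a c : ℝ), ∑ i with (a ≤ P (g i) ∧ P (g i) ≤ c), w i
      = ∑ k ∈ range n with (a ≤ P k ∧ P k ≤ c), w (f k) := by
    intro w a c
    rw [Finset.sum_filter, Finset.sum_filter, hsumc]
    refine Finset.sum_congr rfl (fun k hk => ?_)
    rw [hgf k (Finset.mem_range.mp hk)]
  have hwd := windows n (fun k => m (f k)) (fun k => d (f k)) (fun k => hm _) ε hε (fun k => hmε _)
    (fun k hk => by have := hpar k hk; rwa [zero_add] at this)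
  refine ⟨fun i => P (g i), ?_, ?_, ?_, ?_⟩
  · intro i
    refine ⟨?_, ?_⟩
    · have := hmono (Nat.zero_le (g i)); rw [hP0] at this; exact this
    · have := hmono (hg1 i).le; rw [hPn] at this; exact this
  · intro a c hac
    refine (hwin m a c).trans_le ?_
    exact (hwd a c hac).1
  · intro a c ha hac hc
    refine le_trans ?_ (hwin m a c).ge
    exact (hwd a c hac).2.1 ha (by rw [← hPn] at hc; exact hc)
  · intro a c hac
    refine (hwin b a c).trans_le ?_
    have h1 := (hwd a c hac).1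
    have h2 := (hwd a c hac).2.2
    have e : ∑ k ∈ range n with (a ≤ P k ∧ P k ≤ c), b (f k)
        = ∑ k ∈ range n with (a ≤ P k ∧ P k ≤ c), d (f k)
          + κ1 * ∑ k ∈ range n with (a ≤ P k ∧ P k ≤ c), m (f k) := by
      rw [Finset.mul_sum, ← Finset.sum_add_distrib]
      refine Finset.sum_congr rfl (fun k _ => ?_)
      simp only [d]; ring
    rw [e]
    have h3 : κ1 * ∑ k ∈ range n with (a ≤ P k ∧ P k ≤ c), m (f k) ≤ κ1 * (c - a + ε) :=
      mul_le_mul_of_nonneg_left h1 hκ10
    have h4 : κ1 * (c - a + ε) ≤ κ * (c - a + ε) := mul_le_mul_of_nonneg_right hκ1κ (by linarith)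
    have h5 : ∑ k ∈ range n with (a ≤ P k ∧ P k ≤ c), d (f k) ≤ 2 * ε := h2
    linarith


end MYoung
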