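import Mathlib

namespace MYoung
open MeasureTheory Set

/-- Sum of the masses of a family of sets with bounded overlap. -/
theorem overlap_sum {Ω : Type*} [MeasurableSpace Ω] (μ : Measure Ω) [IsFiniteMeasure μ]
    (n K : ℕ) (T : Fin n → Set Ω) (hT : ∀ i, MeasurableSet (T i))
    (hov : ∀ x, {i | x ∈ T i}.ncard ≤ K) (A : Set Ω) (hA : MeasurableSet A) :
    ∑ i, μ.real (A ∩ T i) ≤ K * μ.real A := by
  classical
  have h1 : ∑ i, μ (A ∩ T i) ≤ (K : ENNReal) * μ A := by
    have e1 : ∀ i, μ (A ∩ T i) = ∫⁻ x in A, (T i).indicator 1 x ∂μ := by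
      intro i
      rw [lintegral_indicator_one (hT i), Measure.restrict_apply (hT i), Set.inter_comm]
    have e2 : ∑ i, μ (A ∩ T i) = ∫⁻ x in A, ∑ i, (T i).indicator (1 : Ω → ENNReal) x ∂μ := by
      rw [lintegral_finsetSum]
      · exact Finset.sum_congr rfl (fun i _ => e1 i)
      · intro i _
        exact measurable_one.indicator (hT i)
    rw [e2]
    calc ∫⁻ x in A, ∑ i, (T i).indicator (1 : Ω → ENNReal) x ∂μ
        ≤ ∫⁻ x in A, (K : ENNReal) ∂μ := by
          apply lintegral_mono
          intro x
          have : ∑ i, (T i).indicator (1 : Ω → ENNReal) x = (({i | x ∈ T i}.ncard : ℕ) : ENNReal) := by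
            have e3 : {i | x ∈ T i} = ((Finset.univ.filter (fun i => x ∈ T i) : Finset (Fin n)) : Set (Fin n)) := by
              ext i; simp
            rw [e3, Set.ncard_coe_finset, Finset.card_filter]
            push_cast
            apply Finset.sum_congr rfl
            intro i _
            simp [Set.indicator_apply]
          simp only [this]
          exact_mod_cast hov x
      _ = (K : ENNReal) * μ A := by
          simp
  have h2 : ∑ i, μ.real (A ∩ T i) = (∑ i, μ (A ∩ T i)).toReal := by
    rw [ENNReal.toReal_sum]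
    · rfl
    · intro i _
      exact measure_ne_top μ _
  rw [h2]
  have h3 : (K : ℝ) * μ.real A = ((K : ENNReal) * μ A).toReal := by
    rw [ENNReal.toReal_mul]
    simp [Measure.real]
  rw [h3]
  apply ENNReal.toReal_mono _ h1
  exact ENNReal.mul_ne_top (by simp) (measure_ne_top μ _)


end MYoung
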