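import Mathlib
import Pool.Agent.Helper343.MY.Facts
import Pool.Agent.Helper343.MY.Brouwer
import Pool.Agent.Helper343.MY.GramCont
import Pool.Agent.Helper343.MY.GramFixed
import Pool.Agent.Helper343.MY.Overlap
import Pool.Agent.Helper343.MY.Ordering
import Pool.Agent.Helper343.MY.Groups

namespace MYoung
open MeasureTheory Set

/-- Existence of a linear combination of the cut-offs with identity Gram matrix. -/
theorem field {Ω : Type*} [MeasurableSpace Ω] (μ : Measure Ω) [IsFiniteMeasure μ]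
    (N : ℕ) (hN : 1 ≤ N) (hμ : μ.real univ = N) (n K : ℕ) (hK : 1 ≤ K)
    (Q : Fin n → Ω → ℝ) (hQm : ∀ i, Measurable (Q i)) (hQ0 : ∀ i x, 0 ≤ Q i x)
    (hQ1 : ∀ x, ∑ i, Q i x = 1)
    (T : Fin n → Set Ω) (hT : ∀ i, MeasurableSet (T i)) (hQT : ∀ i x, x ∉ T i → Q i x = 0)
    (hov : ∀ x, {i | x ∈ T i}.ncard ≤ K)
    (B : Set Ω) (hB : MeasurableSet B) (hpure : ∀ x, x ∉ B → ∃ i, Q i x = 1)
    (ε η : ℝ) (hε : 0 < ε) (hη : 0 ≤ η) (hTε : ∀ i, μ.real (T i) ≤ ε)
    (hBη : μ.real B ≤ η * N)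
    (K1 : ℝ) (hK1 : 2 * Real.sqrt K ≤ K1)
    (hsmall : K1 * (6 * K * η + 2 * η + 20 * ε) ≤ 1 / 100) :
    ∃ A : Fin N → Fin n → ℝ, (∀ i, ∑ j, A j i ^ 2 ≤ 4) ∧
      (∀ x, 9 / (16 * (K : ℝ)) ≤ ∑ j, (∑ i, A j i * Q i x) ^ 2) ∧
      ∀ j k, ∫ x, (∑ i, A j i * Q i x) * (∑ i, A k i * Q i x) /
        (∑ l, (∑ i, A l i * Q i x) ^ 2) ∂μ = if j = k then 1 else 0 := by
  classical
  have hNpos : (0 : ℝ) < N := by exact_mod_cast hN
  have hKr : (1 : ℝ) ≤ K := by exact_mod_cast hK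
  have hKpos : (0 : ℝ) < K := by linarith
  have hsK : 1 ≤ Real.sqrt K := by
    rw [show (1 : ℝ) = Real.sqrt 1 by simp]
    exact Real.sqrt_le_sqrt hKr
  have hK12 : 2 ≤ K1 := by linarith
  have hKη : 0 ≤ K * η := by positivity
  have hsum3 : 6 * K * η + 2 * η + 20 * ε ≤ 1 / 200 := by
    have h0 : 0 ≤ 6 * K * η + 2 * η + 20 * ε := by positivity
    nlinarith
  set m : Fin n → ℝ := fun i => μ.real (Bᶜ ∩ {x | Q i x = 1}) with hmdef
  set b : Fin n → ℝ := fun i => μ.real (B ∩ T i) with hbdef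
  have hA0m : ∀ i, MeasurableSet (Bᶜ ∩ {x | Q i x = 1}) := fun i =>
    hB.compl.inter (hQm i (measurableSet_singleton 1))
  have hQone : ∀ x i, Q i x = 1 → ∀ j, j ≠ i → Q j x = 0 := by
    intro x i hi j hji
    have h2 : Q j x + Q i x ≤ 1 := by
      rw [← hQ1 x]
      have := Finset.sum_le_sum_of_subset_of_nonneg (s := {j, i}) (t := Finset.univ)
        (f := fun j => Q j x) (Finset.subset_univ _) (fun _ _ _ => hQ0 _ x)
      rw [Finset.sum_pair hji] at this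
      exact this
    linarith [hQ0 j x]
  have hdisj : ∀ i j, i ≠ j → Disjoint (Bᶜ ∩ {x | Q i x = 1}) (Bᶜ ∩ {x | Q j x = 1}) := by
    intro i j hij
    rw [Set.disjoint_left]
    intro x hx hx'
    have := hQone x i hx.2 j hij.symm
    rw [hx'.2] at this
    norm_num at this
  have hm0 : ∀ i, 0 ≤ m i := fun i => measureReal_nonneg
  have hb0 : ∀ i, 0 ≤ b i := fun i => measureReal_nonneg
  have hmε : ∀ i, m i ≤ ε := by
    intro i
    refine le_trans (measureReal_mono ?_) (hTε i)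
    rintro x ⟨_, hx⟩
    by_contra h
    have := hQT i x h
    rw [hx] at this
    norm_num at this
  have hbε : ∀ i, b i ≤ ε := fun i =>
    le_trans (measureReal_mono inter_subset_right) (hTε i)
  have hmsum : ∑ i, m i = N - μ.real B := by
    rw [← hμ, ← measureReal_compl hB]
    have h1 : Bᶜ = ⋃ i ∈ (Finset.univ : Finset (Fin n)), Bᶜ ∩ {x | Q i x = 1} := by
      ext x
      simp only [mem_compl_iff, Finset.mem_univ, iUnion_true, mem_iUnion, mem_inter_iff, mem_setOf_eq,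
        exists_and_left]
      constructor
      · intro hx; exact ⟨hx, hpure x hx⟩
      · intro hx; exact hx.1
    conv_rhs => rw [h1]
    rw [measureReal_biUnion_finset]
    · intro i _ j _ hij
      exact hdisj i j hij
    · intro i _
      exact hA0m i
  have hμB : 0 ≤ μ.real B := measureReal_nonneg
  have hM : N * (1 - η) ≤ ∑ i, m i := by rw [hmsum]; linarith [mul_comm η (N : ℝ)]
  have hM' : ∑ i, m i ≤ N := by rw [hmsum]; linarith
  have hη1 : η ≤ 1 / 2 := by nlinarith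
  have hbsum : ∑ i, b i ≤ (2 * K * η) * ∑ i, m i := by
    have h1 : ∑ i, b i ≤ K * μ.real B := overlap_sum μ n K T hT hov B hB
    have h2 : (N : ℝ) / 2 ≤ ∑ i, m i := by nlinarith
    calc ∑ i, b i ≤ K * μ.real B := h1
      _ ≤ K * (η * N) := by gcongr
      _ = (2 * K * η) * (N / 2) := by ring
      _ ≤ _ := by gcongr
  have hκ1 : 2 * K * η ≤ 1 := by nlinarith
  obtain ⟨S, hS0, hS1, hS2, hS3⟩ := ordering n m b hm0 hb0 ε hε.le hmε hbε (2 * K * η)
    (by positivity) hκ1 hbsum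
  set Λ : Set (Fin N → ℝ) := {lam | (∀ j, |lam j - 1| ≤ 1 / 2) ∧ ∑ j, lam j = (N : ℝ)} with hΛ
  set Ξ : Set (Fin N → Fin N → ℝ) :=
    {X | (∀ j k, X j k = X k j) ∧ (∀ j, X j j = 0) ∧ ∀ j, ∑ k, |X j k| ≤ 1 / 4} with hΞ
  obtain ⟨w, hwc, hw⟩ := groups N n hN m b S hm0 hb0 ε hε (by nlinarith) (2 * K * η) η
    (by positivity) hη hη1 hM hM' hS0 hS1 hS2 hS3 Λ hΛ
  set W : (Fin N → ℝ) → (Fin N → Fin N → ℝ) → Ω → Fin N → ℝ := fun lam X x j =>
    ∑ i, Q i x * w lam i j + ∑ l, X j l * ∑ i, Q i x * w lam i l with hWdef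
  set G : (Fin N → ℝ) → (Fin N → Fin N → ℝ) → Fin N → Fin N → ℝ := fun lam X j k =>
    ∫ x, W lam X x j * W lam X x k / (∑ i, W lam X x i ^ 2) ∂μ with hGdef
  have hfacts : ∀ lam ∈ Λ, ∀ X ∈ Ξ, (∀ x, 9 / (16 * (K : ℝ)) ≤ ∑ i, W lam X x i ^ 2) ∧
      (∀ j, |G lam X j j - lam j| ≤ 1 / 2) ∧
      (∀ j, ∑ k, |if k = j then 0 else X j k - G lam X j k / 2| ≤ 1 / 4) ∧
      ∑ j, G lam X j j = μ.real univ := by
    intro lam hlam X hX
    obtain ⟨h1, h2, h3, h4, h5, h6⟩ := hw lam hlam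
    exact facts μ N n K hK Q hQm hQ0 hQ1 T hT hQT hov B hB hpure K1
      (6 * K * η + 2 * η + 20 * ε) (3 * (2 * K * η) + 10 * ε) (10 * ε) (by positivity) hK1 hsmall
      (by linarith) lam hlam.1 (w lam) h1 h2 h3
      (fun j => le_trans (h4 j) (by linarith)) h5 h6 X hX.1 hX.2.1 hX.2.2 (W lam X)
      (fun x j => rfl) (G lam X) (fun j k => rfl)
  have hGc := gram_cont μ n N Q hQm Λ Ξ w hwc W (fun lam X x j => rfl)
    (fun lam hlam X hX x => lt_of_lt_of_le (by positivity) ((hfacts lam hlam X hX).1 x)) G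
    (fun lam X j k => rfl)
  have hbr : ∀ (E : Type) [NormedAddCommGroup E] [NormedSpace ℝ E] [FiniteDimensional ℝ E]
      (f : E → E), Continuous f → ∀ R : ℝ, (∀ x, ‖f x‖ ≤ R) → ∃ x, f x = x := by
    intro E _ _ _ f hf R hR
    exact Brouwer.brouwer f hf R hR
  obtain ⟨lam, hlam, X, hX, hGX⟩ := gram_fixed hbr N hN Λ hΛ Ξ hΞ G hGc
    (fun lam _ X _ j k => by
      simp only [hGdef]
      apply integral_congr_ae
      refine ae_of_all _ fun x => ?_
      simp only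
      rw [mul_comm (W lam X x j)])
    (fun lam hlam X hX => (hfacts lam hlam X hX).2.1)
    (fun lam hlam X hX => (hfacts lam hlam X hX).2.2.1)
    (fun lam hlam X hX => by rw [(hfacts lam hlam X hX).2.2.2, hμ])
  obtain ⟨h1, h2, h3, h4, h5, h6⟩ := hw lam hlam
  have hA : ∀ j x, ∑ i, (w lam i j + ∑ l, X j l * w lam i l) * Q i x = W lam X x j := by
    intro j x
    simp only [hWdef]
    simp only [add_mul, Finset.sum_add_distrib]
    congr 1
    · exact Finset.sum_congr rfl fun i _ => mul_comm _ _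
    · simp only [Finset.sum_mul, Finset.mul_sum]
      rw [Finset.sum_comm]
      exact Finset.sum_congr rfl fun i _ => Finset.sum_congr rfl fun l _ => by ring
  refine ⟨fun j i => w lam i j + ∑ l, X j l * w lam i l, ?_, ?_, ?_⟩
  · intro i
    exact matrix_bound N X hX.1 hX.2.2 (fun j => w lam i j) (h2 i)
  · intro x
    have := (hfacts lam hlam X hX).1 x
    simp only [hA]
    exact this
  · intro j k
    simp only [hA]
    exact hGX j k

end MYoung
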