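import Mathlib

namespace MYoung
open MeasureTheory Set

/-- Pointwise lower bound of the local energy (Hoelder). -/
theorem holder_ball (ρ : (Fin 3 → ℝ) → ℝ) (h0 : ∀ x, 0 ≤ ρ x) (hm : Measurable ρ) (hi : Integrable ρ)
    (ε : ℝ) (hε : 0 < ε) (x : Fin 3 → ℝ) (r : ℝ) (hr : 0 < r)
    (hball : ∫ y in Metric.closedBall x r, ρ y = ε) :
    ENNReal.ofReal (r ^ 2)⁻¹ ≤ ENNReal.ofReal (4 * ε ^ (-(5 / 3 : ℝ))) *
      ∫⁻ y in Metric.closedBall x r, ENNReal.ofReal (ρ y) ^ (5 / 3 : ℝ) := by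
  set I : ENNReal := ∫⁻ y in Metric.closedBall x r, ENNReal.ofReal (ρ y) ^ (5 / 3 : ℝ) with hI
  have hcpos : 0 < 4 * ε ^ (-(5 / 3 : ℝ)) := by positivity
  have h1 : ENNReal.ofReal ε = ∫⁻ y in Metric.closedBall x r, ENNReal.ofReal (ρ y) := by
    rw [← hball]
    exact ofReal_integral_eq_lintegral_ofReal hi.integrableOn (Filter.Eventually.of_forall h0)
  have hconj : Real.HolderConjugate (5 / 3 : ℝ) (5 / 2 : ℝ) := by
    rw [Real.holderConjugate_iff]
    constructor <;> norm_num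
  have h2 := ENNReal.lintegral_mul_le_Lp_mul_Lq (volume.restrict (Metric.closedBall x r)) hconj
    (f := fun y => ENNReal.ofReal (ρ y)) (g := fun _ => 1)
    (hm.ennreal_ofReal.aemeasurable) aemeasurable_const
  have hvol : volume (Metric.closedBall x r) = ENNReal.ofReal (8 * r ^ 3) := by
    rw [Real.volume_pi_closedBall x hr.le]
    congr 1
    rw [Fintype.card_fin]
    ring
  simp only [Pi.mul_apply, mul_one, ENNReal.one_rpow, lintegral_const, one_mul,
    Measure.restrict_apply, MeasurableSet.univ, Set.univ_inter] at h2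
  rw [hvol, ← h1, ← hI] at h2
  by_cases hItop : I = ⊤
  · rw [hItop, ENNReal.mul_top (by simpa using hcpos)]
    exact le_top
  · obtain ⟨i, hi0, hieq⟩ : ∃ i : ℝ, 0 ≤ i ∧ I = ENNReal.ofReal i :=
      ⟨I.toReal, ENNReal.toReal_nonneg, (ENNReal.ofReal_toReal hItop).symm⟩
    rw [hieq] at h2 ⊢
    rw [ENNReal.ofReal_rpow_of_nonneg hi0 (by norm_num),
      ENNReal.ofReal_rpow_of_nonneg (by positivity) (by norm_num),
      ← ENNReal.ofReal_mul (by positivity)] at h2
    have h3 : ε ≤ i ^ (1 / (5 / 3) : ℝ) * (8 * r ^ 3) ^ (1 / (5 / 2) : ℝ) :=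
      (ENNReal.ofReal_le_ofReal_iff (by positivity)).1 h2
    have h4 : ε ^ (5 / 3 : ℝ) ≤ i * (4 * r ^ 2) := by
      have h5 := Real.rpow_le_rpow hε.le h3 (by norm_num : (0 : ℝ) ≤ 5 / 3)
      rw [Real.mul_rpow (by positivity) (by positivity), ← Real.rpow_mul hi0,
        ← Real.rpow_mul (by positivity)] at h5
      have e1 : (1 / (5 / 3) * (5 / 3) : ℝ) = 1 := by norm_num
      have e2 : (1 / (5 / 2) * (5 / 3) : ℝ) = 2 * (1 / 3) := by norm_num
      rw [e1, e2, Real.rpow_one] at h5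
      have e3 : (8 * r ^ 3) ^ (2 * (1 / 3) : ℝ) = 4 * r ^ 2 := by
        have : (8 * r ^ 3) = ((4 * r ^ 2) ^ (1 / 2 : ℝ)) ^ (3 : ℝ) := by
          rw [← Real.sqrt_eq_rpow]
          have : Real.sqrt (4 * r ^ 2) = 2 * r := by
            rw [show (4 * r ^ 2 : ℝ) = (2 * r) ^ 2 by ring]
            exact Real.sqrt_sq (by positivity)
          rw [this]
          rw [show (3 : ℝ) = ((3 : ℕ) : ℝ) by norm_num, Real.rpow_natCast]
          ring
        rw [this, ← Real.rpow_mul (by positivity), ← Real.rpow_mul (by positivity)]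
        norm_num
      rw [e3] at h5
      exact h5
    rw [← ENNReal.ofReal_mul (by positivity)]
    apply ENNReal.ofReal_le_ofReal
    rw [Real.rpow_neg hε.le, inv_eq_one_div (r ^ 2), div_le_iff₀ (by positivity)]
    have h6 : 0 < ε ^ (5 / 3 : ℝ) := by positivity
    have h7 : 4 * (ε ^ (5 / 3 : ℝ))⁻¹ * i * r ^ 2 = (i * (4 * r ^ 2)) / ε ^ (5 / 3 : ℝ) := by
      field_simp
    rw [h7, le_div_iff₀ h6, one_mul]
    exact h4


end MYoung
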