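import Mathlib

namespace MYoung
open MeasureTheory Set

/-- A thin layer of small mass. -/
theorem layer (ρ : (Fin 3 → ℝ) → ℝ) (h0 : ∀ x, 0 ≤ ρ x) (hi : Integrable ρ)
    (ζ : (Fin 3 → ℝ) → ℝ) (hc : Continuous ζ) (L : ℕ) (hL : 1 ≤ L) :
    ∃ ξ : ℝ, 1 / 4 + 1 / (4 * (L : ℝ)) ≤ ξ ∧ ξ ≤ 3 / 4 - 1 / (4 * (L : ℝ)) ∧
      ∫ x in {x | |ζ x - ξ| < 1 / (4 * (L : ℝ))}, ρ x ≤ (1 / (L : ℝ)) * ∫ x in tsupport ζ, ρ x := by
  have hLpos : (0 : ℝ) < L := by exact_mod_cast hL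
  obtain ⟨θ, hθ⟩ : ∃ θ : ℝ, θ = 1 / (4 * (L : ℝ)) := ⟨_, rfl⟩
  have hθpos : 0 < θ := by rw [hθ]; positivity
  have hθL : θ * L = 1 / 4 := by rw [hθ]; field_simp
  rw [← hθ]
  have hmeas : ∀ l : ℕ, MeasurableSet {x : Fin 3 → ℝ | |ζ x - (1 / 4 + (2 * (l : ℝ) + 1) * θ)| < θ} := by
    intro l
    apply IsOpen.measurableSet
    apply isOpen_lt
    · fun_prop
    · fun_prop
  have hdisj : ∀ l m : ℕ, l ≠ m → Disjoint {x : Fin 3 → ℝ | |ζ x - (1 / 4 + (2 * (l : ℝ) + 1) * θ)| < θ}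
      {x : Fin 3 → ℝ | |ζ x - (1 / 4 + (2 * (m : ℝ) + 1) * θ)| < θ} := by
    have hlt : ∀ l m : ℕ, l < m → Disjoint {x : Fin 3 → ℝ | |ζ x - (1 / 4 + (2 * (l : ℝ) + 1) * θ)| < θ}
      {x : Fin 3 → ℝ | |ζ x - (1 / 4 + (2 * (m : ℝ) + 1) * θ)| < θ} := by
      intro l m hlm
      rw [Set.disjoint_left]
      intro x hx hy
      simp only [Set.mem_setOf_eq, abs_lt] at hx hy
      have h1 : (l : ℝ) + 1 ≤ m := by exact_mod_cast hlm
      nlinarith
    intro l m hlm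
    rcases lt_or_gt_of_ne hlm with h | h
    · exact hlt l m h
    · exact (hlt m l h).symm
  have hsum : ∑ l ∈ Finset.range L, ∫ x in {x : Fin 3 → ℝ | |ζ x - (1 / 4 + (2 * (l : ℝ) + 1) * θ)| < θ}, ρ x
      ≤ ∫ x in tsupport ζ, ρ x := by
    rw [← integral_biUnion_finset (Finset.range L) (fun l _ => hmeas l)
      (fun l _ m _ hlm => hdisj l m hlm) (fun l _ => hi.integrableOn)]
    apply setIntegral_mono_set hi.integrableOn
    · exact Filter.Eventually.of_forall fun x => h0 x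
    · apply HasSubset.Subset.eventuallyLE
      apply iUnion₂_subset
      intro l _ x hx
      apply subset_tsupport
      simp only [Set.mem_setOf_eq, abs_lt] at hx
      rw [Function.mem_support]
      have : 0 ≤ (l : ℝ) := Nat.cast_nonneg l
      have h2 : 0 ≤ (l : ℝ) * θ := by positivity
      intro h0
      rw [h0] at hx
      nlinarith [hx.1, hx.2]
  by_contra hcon
  push Not at hcon
  have hgt : ∀ l ∈ Finset.range L, (1 / (L : ℝ)) * ∫ x in tsupport ζ, ρ x <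
      ∫ x in {x : Fin 3 → ℝ | |ζ x - (1 / 4 + (2 * (l : ℝ) + 1) * θ)| < θ}, ρ x := by
    intro l hl
    rw [Finset.mem_range] at hl
    have h1 : (l : ℝ) + 1 ≤ L := by exact_mod_cast hl
    have h3 : 0 ≤ (l : ℝ) := Nat.cast_nonneg l
    apply hcon
    · nlinarith
    · nlinarith
  have hlt := Finset.sum_lt_sum_of_nonempty (s := Finset.range L) (by simp; omega) hgt
  rw [Finset.sum_const, Finset.card_range, nsmul_eq_mul, ← mul_assoc, mul_one_div_cancel hLpos.ne', one_mul] at hlt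
  linarith


end MYoung
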