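import Mathlib

namespace MYoung
open MeasureTheory Set

theorem net_count (S : Set (Fin 3 → ℝ)) (s ρ : ℝ) (hs : 0 < s) (hρ0 : 0 < ρ) (x : Fin 3 → ℝ) (N : ℕ)
    (hdisj : S.PairwiseDisjoint (fun c => Metric.ball c s))
    (hsub : ∀ c ∈ S, Metric.ball c s ⊆ Metric.ball x ρ)
    (hρ : (2 * ρ) ^ 3 ≤ N * (2 * s) ^ 3) : S.Finite ∧ S.ncard ≤ N := by
  have key : ∀ t : Finset (Fin 3 → ℝ), (↑t : Set (Fin 3 → ℝ)) ⊆ S → t.card ≤ N := by
    intro t ht
    have h1 : volume (⋃ c ∈ t, Metric.ball c s) = ∑ c ∈ t, volume (Metric.ball c s) :=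
      measure_biUnion_finset (fun a ha b hb hab => hdisj (ht ha) (ht hb) hab)
        (fun c _ => measurableSet_ball)
    have h2 : volume (⋃ c ∈ t, Metric.ball c s) ≤ volume (Metric.ball x ρ) :=
      measure_mono (iUnion₂_subset fun c hc => hsub c (ht hc))
    rw [h1] at h2
    rw [Real.volume_pi_ball x hρ0] at h2
    have h3 : ∀ c ∈ t, volume (Metric.ball c s) = ENNReal.ofReal ((2 * s) ^ 3) := by
      intro c _
      rw [Real.volume_pi_ball c hs]
      simp
    rw [Finset.sum_congr rfl h3, Finset.sum_const, nsmul_eq_mul] at h2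
    rw [← ENNReal.ofReal_natCast, ← ENNReal.ofReal_mul (by positivity)] at h2
    rw [ENNReal.ofReal_le_ofReal_iff (by positivity)] at h2
    simp only [Fintype.card_fin] at h2
    have h4 : (t.card : ℝ) * (2 * s) ^ 3 ≤ N * (2 * s) ^ 3 := h2.trans hρ
    have h5 : (t.card : ℝ) ≤ N := le_of_mul_le_mul_right h4 (by positivity)
    exact_mod_cast h5
  have hfin : S.Finite := by
    by_contra hinf
    obtain ⟨t, ht, hc⟩ := Set.Infinite.exists_subset_card_eq (s := S) hinf (N + 1)
    have := key t ht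
    omega
  refine ⟨hfin, ?_⟩
  rw [Set.ncard_eq_toFinset_card S hfin]
  exact key _ (by simp)

/-- A net adapted to a Lipschitz scale function (sup norm of R^3). -/
theorem net (r : (Fin 3 → ℝ) → ℝ) (r0 : ℝ) (hr0 : 0 < r0) (hr : ∀ x, r0 ≤ r x)
    (hlip : ∀ x y, r y ≤ r x + dist x y) :
    ∃ u : Set (Fin 3 → ℝ), (∀ x, ∃ c ∈ u, dist x c ≤ r c / 8) ∧
      (∀ x, {c ∈ u | dist x c ≤ r c / 3}.Finite ∧ {c ∈ u | dist x c ≤ r c / 3}.ncard ≤ 4096) ∧
      (∀ R : ℝ, {c ∈ u | dist c 0 ≤ R}.Finite) := by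
  obtain ⟨u, -, hu, hcov⟩ := Vitali.exists_disjoint_subfamily_covering_enlargement
    (fun a : Fin 3 → ℝ => Metric.ball a (r a / 20)) Set.univ (fun _ => (1 : ℝ)) 2 (by norm_num)
    (fun _ _ => zero_le_one) 1 (fun _ _ => le_refl _)
    (fun a _ => Metric.nonempty_ball.2 (by linarith [hr a]))
  refine ⟨u, ?_, ?_, ?_⟩
  · intro x
    obtain ⟨c, hc, ⟨z, hz1, hz2⟩, -⟩ := hcov x (Set.mem_univ _)
    refine ⟨c, hc, ?_⟩
    rw [Metric.mem_ball] at hz1 hz2
    have h1 : dist x c ≤ dist z x + dist z c := by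
      have := dist_triangle x z c
      rw [dist_comm x z] at this
      exact this
    have h2 := hlip c x
    rw [dist_comm c x] at h2
    linarith [hr c, hr x]
  · intro x
    have hr0x : 0 < r x := lt_of_lt_of_le hr0 (hr x)
    apply net_count _ (3 / 80 * r x) (6 / 10 * r x) (by positivity) (by positivity) x 4096
    · intro a ha b hb hab
      have h := hu ha.1 hb.1 hab
      have hball : ∀ c : Fin 3 → ℝ, dist x c ≤ r c / 3 → Metric.ball c (3 / 80 * r x) ⊆ Metric.ball c (r c / 20) := by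
        intro c hc
        apply Metric.ball_subset_ball
        have h2 := hlip c x
        rw [dist_comm c x] at h2
        linarith
      exact Disjoint.mono (hball a ha.2) (hball b hb.2) h
    · intro c hc z hz
      rw [Metric.mem_ball] at hz ⊢
      have h1 := dist_triangle z c x
      have h2 := hlip x c
      have h3 := hc.2
      rw [dist_comm c x] at h1
      linarith
    · have : (2 * (6 / 10 * r x)) ^ 3 = 4096 * (2 * (3 / 80 * r x)) ^ 3 := by ring
      rw [this]
      norm_num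
  · intro R
    obtain ⟨N, hN⟩ := exists_nat_ge ((2 * (|R| + r0)) ^ 3 / (2 * (r0 / 20)) ^ 3)
    have hRpos : 0 < |R| + r0 := by positivity
    refine (net_count {c ∈ u | dist c 0 ≤ R} (r0 / 20) (|R| + r0) (by positivity) hRpos 0 N ?_ ?_ ?_).1
    · intro a ha b hb hab
      have h := hu ha.1 hb.1 hab
      have hball : ∀ c : Fin 3 → ℝ, Metric.ball c (r0 / 20) ⊆ Metric.ball c (r c / 20) := by
        intro c
        apply Metric.ball_subset_ball
        linarith [hr c]
      exact Disjoint.mono (hball a) (hball b) h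
    · intro c hc z hz
      rw [Metric.mem_ball] at hz ⊢
      have h1 := dist_triangle z c 0
      have h2 := hc.2
      linarith [le_abs_self R]
    · rwa [div_le_iff₀ (by positivity)] at hN


end MYoung
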