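import Mathlib

namespace MYoung
open MeasureTheory Set

/-- Derivative bound for a normalised smooth vector field. -/
theorem normalise (N : ℕ) (W : Fin N → (Fin 3 → ℝ) → ℝ)
    (hW : ∀ j, ContDiff ℝ ((⊤ : ℕ∞) : WithTop ℕ∞) (W j)) (c : ℝ) (hc : 0 < c)
    (hpos : ∀ x, c ≤ ∑ i, W i x ^ 2) :
    ∃ U : Fin N → (Fin 3 → ℝ) → ℝ, (∀ j, ContDiff ℝ ((⊤ : ℕ∞) : WithTop ℕ∞) (U j)) ∧
      (∀ j x, U j x = W j x / Real.sqrt (∑ i, W i x ^ 2)) ∧
      (∀ x, ∑ j, U j x ^ 2 = 1) ∧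
      (∀ x v, ∑ j, (fderiv ℝ (U j) x v) ^ 2 ≤ (∑ j, (fderiv ℝ (W j) x v) ^ 2) / c) ∧
      (∀ x v, ∑ j, U j x * fderiv ℝ (U j) x v = 0) := by
  obtain ⟨S, hS⟩ : ∃ S : (Fin 3 → ℝ) → ℝ, S = fun x => ∑ i, W i x ^ 2 := ⟨_, rfl⟩
  have hSx : ∀ x, S x = ∑ i, W i x ^ 2 := fun x => by rw [hS]
  have hSc : ∀ x, c ≤ S x := fun x => by rw [hSx]; exact hpos x
  have hSpos : ∀ x, 0 < S x := fun x => lt_of_lt_of_le hc (hSc x)
  have hSd : ContDiff ℝ ((⊤ : ℕ∞) : WithTop ℕ∞) S := by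
    rw [hS]
    exact ContDiff.sum fun i _ => (hW i).pow 2
  obtain ⟨s, hs⟩ : ∃ s : (Fin 3 → ℝ) → ℝ, s = fun x => Real.sqrt (S x) := ⟨_, rfl⟩
  have hsx : ∀ x, s x = Real.sqrt (S x) := fun x => by rw [hs]
  have hspos : ∀ x, 0 < s x := fun x => by rw [hsx]; exact Real.sqrt_pos.2 (hSpos x)
  have hsd : ContDiff ℝ ((⊤ : ℕ∞) : WithTop ℕ∞) s := by
    rw [hs]
    exact hSd.sqrt (fun x => (hSpos x).ne')
  have hssq : ∀ x, s x ^ 2 = S x := fun x => by rw [hsx]; exact Real.sq_sqrt (hSpos x).le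
  obtain ⟨U, hU⟩ : ∃ U : Fin N → (Fin 3 → ℝ) → ℝ, U = fun j x => W j x / s x := ⟨_, rfl⟩
  have hUx : ∀ j x, U j x = W j x / s x := fun j x => by rw [hU]
  have hUd : ∀ j, ContDiff ℝ ((⊤ : ℕ∞) : WithTop ℕ∞) (U j) := by
    intro j
    rw [hU]
    exact (hW j).div hsd (fun x => (hspos x).ne')
  have hU1 : ∀ x, ∑ j, U j x ^ 2 = 1 := by
    intro x
    simp only [hUx, div_pow, hssq]
    rw [← Finset.sum_div, ← hSx]
    exact div_self (hSpos x).ne'
  have hdU : ∀ j x, DifferentiableAt ℝ (U j) x := fun j x =>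
    (hUd j).differentiable (by simp) x
  have hds : ∀ x, DifferentiableAt ℝ s x := fun x => hsd.differentiable (by simp) x
  have horth : ∀ x v, ∑ j, U j x * fderiv ℝ (U j) x v = 0 := by
    intro x v
    have h1 : HasFDerivAt (fun x => ∑ j, U j x ^ 2)
        (∑ j, (2 * U j x ^ (2 - 1)) • fderiv ℝ (U j) x) x := by
      apply HasFDerivAt.fun_sum
      intro j _
      have := (hdU j x).hasFDerivAt.pow 2
      simpa using this
    have h2 : HasFDerivAt (fun x => ∑ j, U j x ^ 2) (0 : (Fin 3 → ℝ) →L[ℝ] ℝ) x := by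
      have : (fun x => ∑ j, U j x ^ 2) = fun _ => (1:ℝ) := by
        funext x; exact hU1 x
      rw [this]
      exact hasFDerivAt_const _ _
    have h3 := h1.unique h2
    have h4 := congrArg (fun L : (Fin 3 → ℝ) →L[ℝ] ℝ => L v) h3
    simp only [ContinuousLinearMap.sum_apply, ContinuousLinearMap.smul_apply,
      ContinuousLinearMap.zero_apply, smul_eq_mul] at h4
    have h5 : ∑ j, 2 * U j x ^ (2 - 1) * fderiv ℝ (U j) x v =
        2 * ∑ j, U j x * fderiv ℝ (U j) x v := by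
      rw [Finset.mul_sum]
      apply Finset.sum_congr rfl
      intro j _
      norm_num
      ring
    rw [h5] at h4
    linarith
  refine ⟨U, hUd, fun j x => by rw [hUx, hsx, hSx], hU1, ?_, horth⟩
  intro x v
  have hWj : ∀ j, fderiv ℝ (W j) x v = s x * fderiv ℝ (U j) x v + U j x * fderiv ℝ s x v := by
    intro j
    have e : W j = fun y => s y * U j y := by
      funext y
      rw [hUx]
      have := hspos y
      field_simp
    have h1 := (hds x).hasFDerivAt.mul (hdU j x).hasFDerivAt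
    have h2 : fderiv ℝ (W j) x = s x • fderiv ℝ (U j) x + U j x • fderiv ℝ s x := by
      rw [e]
      exact h1.fderiv
    rw [h2]
    simp
  have hsum : ∑ j, (fderiv ℝ (W j) x v) ^ 2 =
      S x * ∑ j, (fderiv ℝ (U j) x v) ^ 2 + (fderiv ℝ s x v) ^ 2 := by
    have e1 : ∀ j, (fderiv ℝ (W j) x v) ^ 2 = S x * (fderiv ℝ (U j) x v) ^ 2 +
        2 * s x * fderiv ℝ s x v * (U j x * fderiv ℝ (U j) x v) +
        (fderiv ℝ s x v) ^ 2 * U j x ^ 2 := by
      intro j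
      rw [hWj, ← hssq]
      ring
    simp only [e1, Finset.sum_add_distrib, ← Finset.mul_sum, horth, hU1]
    ring
  rw [le_div_iff₀ hc, hsum]
  have h6 : 0 ≤ ∑ j, (fderiv ℝ (U j) x v) ^ 2 := Finset.sum_nonneg fun j _ => sq_nonneg _
  nlinarith [hSc x, sq_nonneg (fderiv ℝ s x v)]


end MYoung
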