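import Mathlib

namespace MYoung
open MeasureTheory Set

theorem octant_aux (ρ : (Fin 3 → ℝ) → ℝ) (h0 : ∀ x, 0 ≤ ρ x) (hi : Integrable ρ)
    (ε : ℝ) (r : (Fin 3 → ℝ) → ℝ)
    (hball : ∀ x, ∫ y in Metric.closedBall x (r x), ρ y = ε) (y : Fin 3 → ℝ) (s : Fin 3 → Bool)
    (T : Set (Fin 3 → ℝ)) (hT : IsCompact T) (hTS : ∀ x ∈ T, dist x y ≤ r x)
    (hTO : ∀ x ∈ T, ∀ k, if s k then y k ≤ x k else x k ≤ y k) :
    (volume.withDensity (fun x => ENNReal.ofReal (ρ x))) T ≤ ENNReal.ofReal ε := by
  rcases T.eq_empty_or_nonempty with hE | hne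
  · rw [hE, measure_empty]; exact zero_le
  · obtain ⟨z, hz, hmax⟩ := hT.exists_isMaxOn hne
      ((continuous_id.dist continuous_const).continuousOn (f := fun x => dist x y))
    have hsub : T ⊆ Metric.closedBall z (r z) := by
      intro x hx
      have h1 : dist x y ≤ dist z y := hmax hx
      rw [Metric.mem_closedBall]
      refine le_trans ?_ (hTS z hz)
      rw [dist_pi_le_iff dist_nonneg]
      intro k
      have a1 := dist_le_pi_dist x y k
      have a2 := dist_le_pi_dist z y k
      rw [Real.dist_eq, abs_le] at a1 a2 ⊢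
      have b1 := hTO x hx k
      have b2 := hTO z hz k
      split_ifs at b1 b2
      · constructor <;> linarith
      · constructor <;> linarith
    refine (measure_mono hsub).trans (le_of_eq ?_)
    rw [withDensity_apply _ Metric.isClosed_closedBall.measurableSet,
      ← ofReal_integral_eq_lintegral_ofReal hi.restrict (Filter.Eventually.of_forall h0), hball]

/-- Octant lemma. -/
theorem octant (ρ : (Fin 3 → ℝ) → ℝ) (h0 : ∀ x, 0 ≤ ρ x) (hi : Integrable ρ)
    (ε : ℝ) (hε : 0 < ε) (r : (Fin 3 → ℝ) → ℝ) (hr : ∀ x, 0 < r x)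
    (hlip : ∀ x y, r y ≤ r x + dist x y)
    (hball : ∀ x, ∫ y in Metric.closedBall x (r x), ρ y = ε) (y : Fin 3 → ℝ) :
    ∫⁻ x in {x | dist x y ≤ r x}, ENNReal.ofReal (ρ x) ≤ ENNReal.ofReal (8 * ε) := by
  have hrc : Continuous r := by
    have : LipschitzWith 1 r := LipschitzWith.of_le_add (fun x z => by
      have := hlip z x
      rw [dist_comm] at this
      exact this)
    exact this.continuous
  have hSc : IsClosed {x : Fin 3 → ℝ | dist x y ≤ r x} :=
    isClosed_le (continuous_id.dist continuous_const) hrc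
  obtain ⟨μ, hμ⟩ : ∃ μ : Measure (Fin 3 → ℝ), μ = volume.withDensity (fun x => ENNReal.ofReal (ρ x)) :=
    ⟨_, rfl⟩
  rw [← withDensity_apply _ hSc.measurableSet]
  have hOc : ∀ s : Fin 3 → Bool, IsClosed {x : Fin 3 → ℝ | ∀ k, if s k then y k ≤ x k else x k ≤ y k} := by
    intro s
    have h1 : {x : Fin 3 → ℝ | ∀ k, if s k then y k ≤ x k else x k ≤ y k} =
        ⋂ k, {x : Fin 3 → ℝ | if s k then y k ≤ x k else x k ≤ y k} := by
      ext x; simp only [Set.mem_iInter]; rfl
    rw [h1]
    refine isClosed_iInter (fun k => ?_)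
    by_cases hs : s k = true
    · simp only [hs, if_true]
      exact isClosed_le continuous_const (continuous_apply k)
    · simp only [hs]
      exact isClosed_le (continuous_apply k) continuous_const
  have hcover : {x : Fin 3 → ℝ | dist x y ≤ r x} ⊆ ⋃ s : Fin 3 → Bool,
      ({x : Fin 3 → ℝ | dist x y ≤ r x} ∩
        {x : Fin 3 → ℝ | ∀ k, if s k then y k ≤ x k else x k ≤ y k}) := by
    intro x hx
    refine mem_iUnion.2 ⟨fun k => decide (y k ≤ x k), hx, ?_⟩
    intro k
    by_cases hk : y k ≤ x k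
    · simp only [hk, decide_true, if_true]
    · simp only [hk, decide_false]
      exact (not_le.1 hk).le
  have hpiece : ∀ s : Fin 3 → Bool, (volume.withDensity (fun x => ENNReal.ofReal (ρ x)))
      ({x : Fin 3 → ℝ | dist x y ≤ r x} ∩
        {x : Fin 3 → ℝ | ∀ k, if s k then y k ≤ x k else x k ≤ y k}) ≤ ENNReal.ofReal ε := by
    intro s
    have hun : ({x : Fin 3 → ℝ | dist x y ≤ r x} ∩
        {x : Fin 3 → ℝ | ∀ k, if s k then y k ≤ x k else x k ≤ y k}) =
        ⋃ n : ℕ, (({x : Fin 3 → ℝ | dist x y ≤ r x} ∩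
        {x : Fin 3 → ℝ | ∀ k, if s k then y k ≤ x k else x k ≤ y k}) ∩ Metric.closedBall y n) := by
      rw [← Set.inter_iUnion]
      have : (⋃ n : ℕ, Metric.closedBall y (n : ℝ)) = univ := Metric.iUnion_closedBall_nat y
      rw [this, Set.inter_univ]
    rw [hun, Monotone.measure_iUnion]
    · refine iSup_le (fun n => ?_)
      refine octant_aux ρ h0 hi ε r hball y s _ ?_ (fun x hx => hx.1.1) (fun x hx => hx.1.2)
      exact (isCompact_closedBall y (n : ℝ)).inter_left (hSc.inter (hOc s))
    · intro n m hnm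
      refine Set.inter_subset_inter_right _ (Metric.closedBall_subset_closedBall ?_)
      exact_mod_cast hnm
  refine (measure_mono hcover).trans ((measure_iUnion_fintype_le _ _).trans ?_)
  refine (Finset.sum_le_sum (fun s _ => hpiece s)).trans (le_of_eq ?_)
  rw [Finset.sum_const, Finset.card_univ, nsmul_eq_mul]
  have : (Fintype.card (Fin 3 → Bool)) = 8 := by simp
  rw [this, ENNReal.ofReal_mul (by norm_num)]
  norm_num


end MYoung
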