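import Mathlib

namespace MYoung
open MeasureTheory Set

/-- Local scale of an integrable density in the sup norm of R^3. -/
theorem scale_exists (ρ : (Fin 3 → ℝ) → ℝ) (h0 : ∀ x, 0 ≤ ρ x) (hi : Integrable ρ)
    (ε : ℝ) (hε : 0 < ε) (hμ : ε < ∫ x, ρ x) :
    ∃ r : (Fin 3 → ℝ) → ℝ, (∃ r0 : ℝ, 0 < r0 ∧ ∀ x, r0 ≤ r x) ∧
      (∀ x y, r y ≤ r x + dist x y) ∧
      (∀ x, ∫ y in Metric.closedBall x (r x), ρ y = ε) := by
  classical
  set ν : Measure (Fin 3 → ℝ) := volume.withDensity (fun x => ENNReal.ofReal (ρ x)) with hνdef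
  have : IsFiniteMeasure ν := isFiniteMeasure_withDensity_ofReal hi.2
  have hν : ∀ s, MeasurableSet s → ν s = ENNReal.ofReal (∫ y in s, ρ y) := by
    intro s hs
    rw [hνdef, withDensity_apply _ hs,
      ← ofReal_integral_eq_lintegral_ofReal hi.integrableOn (ae_of_all _ h0)]
  have hac : ν ≪ volume := withDensity_absolutelyContinuous _ _
  have hsph : ∀ x (s : ℝ), ν (Metric.sphere x s) = 0 := by
    intro x s
    apply hac
    exact Measure.addHaar_sphere volume x s
  set E : ENNReal := ENNReal.ofReal ε with hE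
  have hE0 : 0 < E := ENNReal.ofReal_pos.mpr hε
  set S : (Fin 3 → ℝ) → Set ℝ := fun x => {s | 0 ≤ s ∧ E ≤ ν (Metric.closedBall x s)} with hS
  have hbdd : ∀ x, BddBelow (S x) := fun x => ⟨0, fun s hs => hs.1⟩
  have hne : ∀ x, (S x).Nonempty := by
    intro x
    have hmono : Monotone (fun n : ℕ => Metric.closedBall x (n : ℝ)) := by
      intro a b hab
      exact Metric.closedBall_subset_closedBall (by exact_mod_cast hab)
    have ht := tendsto_measure_iUnion_atTop (μ := ν) hmono
    have hU : (⋃ n : ℕ, Metric.closedBall x (n : ℝ)) = univ := Metric.iUnion_closedBall_nat x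
    rw [hU] at ht
    have hu : ν univ = ENNReal.ofReal (∫ y, ρ y) := by
      rw [hν _ MeasurableSet.univ, Measure.restrict_univ]
    have hlt : E < ν univ := by
      rw [hu, hE]
      exact (ENNReal.ofReal_lt_ofReal_iff (hε.trans hμ)).mpr hμ
    obtain ⟨n, hn⟩ := (ht.eventually (lt_mem_nhds hlt)).exists
    exact ⟨n, Nat.cast_nonneg n, hn.le⟩
  have hmonoB : ∀ x (s t : ℝ), s ≤ t → ν (Metric.closedBall x s) ≤ ν (Metric.closedBall x t) :=
    fun x s t h => measure_mono (Metric.closedBall_subset_closedBall h)
  set r : (Fin 3 → ℝ) → ℝ := fun x => sInf (S x) with hr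
  have hge : ∀ x, E ≤ ν (Metric.closedBall x (r x)) := by
    intro x
    have hanti : Antitone (fun n : ℕ => Metric.closedBall x (r x + 1 / ((n : ℝ) + 1))) := by
      intro a b hab
      apply Metric.closedBall_subset_closedBall
      have : 1 / ((b : ℝ) + 1) ≤ 1 / ((a : ℝ) + 1) :=
        one_div_le_one_div_of_le (by positivity) (by exact_mod_cast Nat.add_le_add_right hab 1)
      linarith
    have ht := tendsto_measure_iInter_atTop (μ := ν)
      (fun n => Metric.isClosed_closedBall.measurableSet.nullMeasurableSet) hanti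
      ⟨0, measure_ne_top _ _⟩
    have hI : (⋂ n : ℕ, Metric.closedBall x (r x + 1 / ((n : ℝ) + 1))) =
        Metric.closedBall x (r x) := by
      ext y
      simp only [mem_iInter, Metric.mem_closedBall]
      constructor
      · intro h
        have h1 : Filter.Tendsto (fun n : ℕ => r x + 1 / ((n : ℝ) + 1)) Filter.atTop
            (nhds (r x + 0)) := tendsto_const_nhds.add tendsto_one_div_add_atTop_nhds_zero_nat
        rw [add_zero] at h1
        exact ge_of_tendsto' h1 h
      · intro h n
        have : 0 < 1 / ((n : ℝ) + 1) := by positivity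
        linarith
    rw [hI] at ht
    refine ge_of_tendsto' ht (fun n => ?_)
    have hpos : 0 < 1 / ((n : ℝ) + 1) := by positivity
    obtain ⟨s, hs, hlt⟩ := exists_lt_of_csInf_lt (hne x)
      (show sInf (S x) < r x + 1 / ((n : ℝ) + 1) by simp only [hr]; linarith)
    exact hs.2.trans (hmonoB x _ _ hlt.le)
  have hr0 : ∀ x, 0 ≤ r x := fun x => le_csInf (hne x) (fun s hs => hs.1)
  have hle : ∀ x, ν (Metric.closedBall x (r x)) ≤ E := by
    intro x
    have h1 : ν (Metric.closedBall x (r x)) = ν (Metric.ball x (r x)) := by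
      rw [← Metric.ball_union_sphere]
      apply le_antisymm
      · refine (measure_union_le _ _).trans ?_
        rw [hsph, add_zero]
      · exact measure_mono subset_union_left
    rw [h1]
    have hmono : Monotone (fun n : ℕ => Metric.closedBall x (r x - 1 / ((n : ℝ) + 1))) := by
      intro a b hab
      apply Metric.closedBall_subset_closedBall
      have : 1 / ((b : ℝ) + 1) ≤ 1 / ((a : ℝ) + 1) :=
        one_div_le_one_div_of_le (by positivity) (by exact_mod_cast Nat.add_le_add_right hab 1)
      linarith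
    have ht := tendsto_measure_iUnion_atTop (μ := ν) hmono
    have hU : (⋃ n : ℕ, Metric.closedBall x (r x - 1 / ((n : ℝ) + 1))) =
        Metric.ball x (r x) := by
      ext y
      simp only [mem_iUnion, Metric.mem_closedBall, Metric.mem_ball]
      constructor
      · rintro ⟨n, hn⟩
        have : 0 < 1 / ((n : ℝ) + 1) := by positivity
        linarith
      · intro h
        obtain ⟨n, hn⟩ := exists_nat_one_div_lt (sub_pos.mpr h)
        exact ⟨n, by linarith⟩
    rw [hU] at ht
    refine le_of_tendsto' ht (fun n => ?_)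
    by_contra hcon
    push Not at hcon
    have hpos : 0 < 1 / ((n : ℝ) + 1) := by positivity
    by_cases hs : 0 ≤ r x - 1 / ((n : ℝ) + 1)
    · have : r x ≤ r x - 1 / ((n : ℝ) + 1) := csInf_le (hbdd x) ⟨hs, hcon.le⟩
      linarith
    · push Not at hs
      rw [Function.comp_apply, Metric.closedBall_eq_empty.mpr hs, measure_empty] at hcon
      exact absurd hcon (not_lt.mpr zero_le)
  refine ⟨r, ?_, ?_, ?_⟩
  · have hfin : ∫⁻ x, ENNReal.ofReal (ρ x) ≠ ⊤ := by
      have := measure_ne_top ν univ
      rwa [hνdef, withDensity_apply _ MeasurableSet.univ, Measure.restrict_univ] at this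
    obtain ⟨δ, hδ, hδ'⟩ := exists_pos_setLIntegral_lt_of_measure_lt hfin hE0.ne'
    obtain ⟨d, hd0, hdδ⟩ : ∃ d : ℝ, 0 < d ∧ ENNReal.ofReal d ≤ δ := by
      refine ⟨(min δ 1).toReal, ENNReal.toReal_pos ?_ ?_, ?_⟩
      · exact (lt_min hδ one_pos).ne'
      · exact ((min_le_right _ _).trans_lt ENNReal.one_lt_top).ne
      · rw [ENNReal.ofReal_toReal ((min_le_right _ _).trans_lt ENNReal.one_lt_top).ne]
        exact min_le_left _ _
    set m := min 1 d with hm
    have hm0 : 0 < m := lt_min one_pos hd0
    have hm1 : m ≤ 1 := min_le_left _ _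
    have hmd : m ≤ d := min_le_right _ _
    refine ⟨m / 8, by positivity, fun x => ?_⟩
    apply le_csInf (hne x)
    intro s hs
    by_contra hcon
    push Not at hcon
    have h1 : volume (Metric.closedBall x (m / 8)) < δ := by
      rw [Real.volume_pi_closedBall x (by positivity)]
      refine lt_of_lt_of_le ?_ hdδ
      rw [ENNReal.ofReal_lt_ofReal_iff hd0]
      simp only [Fintype.card_fin]
      have : m ^ 3 ≤ m := by
        have h2 : m ^ 2 ≤ 1 := by nlinarith
        nlinarith
      nlinarith
    have h2 := hδ' _ h1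
    have h3 : ν (Metric.closedBall x (m / 8)) < E := by
      rw [hνdef, withDensity_apply _ Metric.isClosed_closedBall.measurableSet]
      exact h2
    exact absurd (hs.2.trans (hmonoB x s _ hcon.le)) (not_le.mpr h3)
  · intro x y
    apply csInf_le (hbdd y)
    refine ⟨add_nonneg (hr0 x) dist_nonneg, (hge x).trans (measure_mono ?_)⟩
    apply Metric.closedBall_subset_closedBall'
    linarith
  · intro x
    have h1 := le_antisymm (hle x) (hge x)
    rw [hν _ Metric.isClosed_closedBall.measurableSet, hE,
      ENNReal.ofReal_eq_ofReal_iff (integral_nonneg h0) hε.le] at h1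
    exact h1


end MYoung
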