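import Mathlib

namespace MYoung
open MeasureTheory Set

theorem sp_mul_bd {a b : (Fin 3 → ℝ) → ℝ} {x v : Fin 3 → ℝ} {A B : ℝ}
    (ha : DifferentiableAt ℝ a x) (hb : DifferentiableAt ℝ b x)
    (ha1 : 0 ≤ a x ∧ a x ≤ 1) (hb1 : 0 ≤ b x ∧ b x ≤ 1)
    (hA : |fderiv ℝ a x v| ≤ A) (hB : |fderiv ℝ b x v| ≤ B) :
    |fderiv ℝ (fun y => a y * b y) x v| ≤ A + B := by
  rw [fderiv_fun_mul ha hb]
  have e1 : (a x • fderiv ℝ b x + b x • fderiv ℝ a x) v
      = a x * fderiv ℝ b x v + b x * fderiv ℝ a x v := rfl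
  rw [e1]
  refine (abs_add_le _ _).trans ?_
  rw [abs_mul, abs_mul, abs_of_nonneg ha1.1, abs_of_nonneg hb1.1]
  have h1 := abs_nonneg (fderiv ℝ b x v)
  have h2 := abs_nonneg (fderiv ℝ a x v)
  nlinarith [ha1.2, hb1.2]

theorem sp_prod_bd {ι : Type} [DecidableEq ι] (s : Finset ι) (f : ι → (Fin 3 → ℝ) → ℝ)
    (x v : Fin 3 → ℝ) (hd : ∀ j, DifferentiableAt ℝ (f j) x) (h01 : ∀ j, 0 ≤ f j x ∧ f j x ≤ 1) :
    DifferentiableAt ℝ (fun y => ∏ j ∈ s, f j y) x ∧
    (0 ≤ ∏ j ∈ s, f j x ∧ ∏ j ∈ s, f j x ≤ 1) ∧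
    |fderiv ℝ (fun y => ∏ j ∈ s, f j y) x v| ≤ ∑ j ∈ s, |fderiv ℝ (f j) x v| := by
  induction s using Finset.induction_on with
  | empty =>
    simp
  | insert a s ha ih =>
    obtain ⟨ih1, ih2, ih3⟩ := ih
    simp only [Finset.prod_insert ha, Finset.sum_insert ha]
    refine ⟨(hd a).fun_mul ih1, ⟨mul_nonneg (h01 a).1 ih2.1, ?_⟩, ?_⟩
    · exact mul_le_one₀ (h01 a).2 ih2.1 ih2.2
    · exact sp_mul_bd (hd a) ih1 (h01 a) ih2 le_rfl ih3

/-- Sequential product partition of unity with a bound on the sum of the derivatives. -/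
theorem seqprod (n K : ℕ) (χ : Fin n → (Fin 3 → ℝ) → ℝ)
    (hs : ∀ i, ContDiff ℝ ((⊤ : ℕ∞) : WithTop ℕ∞) (χ i))
    (h01 : ∀ i x, 0 ≤ χ i x ∧ χ i x ≤ 1) (hcov : ∀ x, ∃ i, χ i x = 1)
    (hov : ∀ x, {i | x ∈ tsupport (χ i)}.ncard ≤ K)
    (D : (Fin 3 → ℝ) → ℝ) (hD : ∀ x, 0 ≤ D x)
    (hder : ∀ i x v, |fderiv ℝ (χ i) x v| ≤ D x * ‖v‖) :
    ∃ Q : Fin n → (Fin 3 → ℝ) → ℝ, (∀ i, ContDiff ℝ ((⊤ : ℕ∞) : WithTop ℕ∞) (Q i)) ∧
      (∀ i x, 0 ≤ Q i x) ∧ (∀ x, ∑ i, Q i x = 1) ∧ (∀ i, tsupport (Q i) ⊆ tsupport (χ i)) ∧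
      (∀ x, (∀ i, χ i x = 0 ∨ χ i x = 1) → ∃ i, Q i x = 1) ∧
      (∀ x v, ∑ i, |fderiv ℝ (Q i) x v| ≤ (K : ℝ) ^ 2 * D x * ‖v‖) := by
  classical
  have hsum : ∀ x : Fin 3 → ℝ, ∀ g : Fin n → ℝ, (∀ i, x ∉ tsupport (χ i) → g i = 0) → ∀ c : ℝ, 0 ≤ c →
      (∀ i, g i ≤ c) → ∑ i, g i ≤ (K : ℝ) * c := by
    intro x g hg c hc hgc
    have h1 : ∑ i, g i = ∑ i ∈ Finset.univ.filter (fun i => x ∈ tsupport (χ i)), g i := by
      rw [Finset.sum_filter]
      refine Finset.sum_congr rfl (fun i _ => ?_)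
      split_ifs with h
      · rfl
      · exact hg i h
    rw [h1]
    refine (Finset.sum_le_card_nsmul _ _ c (fun i _ => hgc i)).trans ?_
    rw [nsmul_eq_mul]
    refine mul_le_mul_of_nonneg_right ?_ hc
    have h2 := hov x
    rw [Set.ncard_eq_toFinset_card'] at h2
    have h3 : {i | x ∈ tsupport (χ i)}.toFinset
        = Finset.univ.filter (fun i => x ∈ tsupport (χ i)) := by
      ext i
      simp
    rw [h3] at h2
    exact_mod_cast h2
  have hdiff : ∀ j x, DifferentiableAt ℝ (χ j) x := fun j x =>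
    ((hs j).differentiable (by simp)).differentiableAt
  obtain ⟨R, hR⟩ : ∃ R : Fin n → (Fin 3 → ℝ) → ℝ,
    R = fun i y => ∏ j ∈ Finset.univ.filter (fun j => j < i), (1 - χ j y) := ⟨_, rfl⟩
  have hRbd : ∀ i x v, DifferentiableAt ℝ (R i) x ∧ (0 ≤ R i x ∧ R i x ≤ 1) ∧
      |fderiv ℝ (R i) x v| ≤ ∑ j ∈ Finset.univ.filter (fun j => j < i), |fderiv ℝ (χ j) x v| := by
    intro i x v
    have h1 := sp_prod_bd (Finset.univ.filter (fun j => j < i)) (fun j y => 1 - χ j y) x v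
      (fun j => (hdiff j x).const_sub 1)
      (fun j => ⟨by have := (h01 j x).2; linarith, by have := (h01 j x).1; linarith⟩)
    rw [hR]
    refine ⟨h1.1, h1.2.1, h1.2.2.trans (le_of_eq ?_)⟩
    refine Finset.sum_congr rfl (fun j _ => ?_)
    have e1 : fderiv ℝ (fun y => 1 - χ j y) x = -fderiv ℝ (χ j) x := by
      rw [fderiv_const_sub]
    rw [e1]
    have e2 : (-fderiv ℝ (χ j) x) v = -(fderiv ℝ (χ j) x v) := rfl
    rw [e2, abs_neg]
  have hQsum : ∀ x, ∑ i, χ i x * R i x = 1 := by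
    intro x
    have h1 := Finset.prod_one_sub_ordered (Finset.univ : Finset (Fin n)) (fun i => χ i x)
    have h2 : ∏ i, (1 - χ i x) = 0 := by
      obtain ⟨i, hi⟩ := hcov x
      refine Finset.prod_eq_zero (Finset.mem_univ i) ?_
      rw [hi, sub_self]
    rw [h2] at h1
    have h3 : ∑ i, χ i x * R i x
        = ∑ i, χ i x * ∏ j ∈ Finset.univ.filter (fun j => j < i), (1 - χ j x) := by
      rw [hR]
    rw [h3]
    linarith
  have hts : ∀ i, tsupport (fun y => χ i y * R i y) ⊆ tsupport (χ i) := by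
    intro i
    refine closure_mono ?_
    intro y hy h0
    apply hy
    change χ i y * R i y = 0
    have : χ i y = 0 := h0
    rw [this, zero_mul]
  refine ⟨fun i y => χ i y * R i y, ?_, ?_, hQsum, hts, ?_, ?_⟩
  · intro i
    refine (hs i).mul ?_
    rw [hR]
    exact contDiff_prod (fun j _ => contDiff_const.sub (hs j))
  · intro i x
    exact mul_nonneg (h01 i x).1 (hRbd i x 0).2.1.1
  · intro x hx
    by_contra hcon
    push Not at hcon
    have hR01 : ∀ i, R i x = 0 ∨ R i x = 1 := by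
      intro i
      by_cases h : ∃ j, j < i ∧ χ j x = 1
      · left
        obtain ⟨j, hj, hj1⟩ := h
        rw [hR]
        refine Finset.prod_eq_zero (i := j) (by simp [hj]) ?_
        rw [hj1, sub_self]
      · right
        push Not at h
        rw [hR]
        refine Finset.prod_eq_one (fun j hj => ?_)
        have hj' : j < i := by simpa using hj
        rcases hx j with h0 | h1
        · rw [h0, sub_zero]
        · exact absurd h1 (h j hj')
    have h0 : ∀ i, χ i x * R i x = 0 := by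
      intro i
      rcases hx i with h | h
      · rw [h, zero_mul]
      · rcases hR01 i with h' | h'
        · rw [h', mul_zero]
        · exfalso
          apply hcon i
          change χ i x * R i x = 1
          rw [h, h', mul_one]
    have h1 := hQsum x
    rw [Finset.sum_congr rfl (fun i _ => h0 i)] at h1
    simp at h1
  · intro x v
    have hDv : 0 ≤ D x * ‖v‖ := mul_nonneg (hD x) (norm_nonneg v)
    have hall : ∑ j, |fderiv ℝ (χ j) x v| ≤ (K : ℝ) * (D x * ‖v‖) := by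
      refine hsum x (fun j => |fderiv ℝ (χ j) x v|) (fun j hj => ?_) _ hDv (fun j => hder j x v)
      have : fderiv ℝ (χ j) x = 0 := fderiv_of_notMem_tsupport ℝ hj
      simp [this]
    have hone : ∀ i, |fderiv ℝ (fun y => χ i y * R i y) x v| ≤ (K : ℝ) * (D x * ‖v‖) := by
      intro i
      obtain ⟨h1, h2, h3⟩ := hRbd i x v
      refine (sp_mul_bd (hdiff i x) h1 (h01 i x) h2 le_rfl h3).trans ?_
      refine le_trans ?_ hall
      rw [← Finset.sum_insert (s := Finset.univ.filter (fun j => j < i)) (a := i)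
        (f := fun j => |fderiv ℝ (χ j) x v|) (by simp)]
      exact Finset.sum_le_sum_of_subset_of_nonneg (Finset.subset_univ _)
        (fun j _ _ => abs_nonneg _)
    have h4 := hsum x (fun i => |fderiv ℝ (fun y => χ i y * R i y) x v|) (fun i hi => by
      have : fderiv ℝ (fun y => χ i y * R i y) x = 0 :=
        fderiv_of_notMem_tsupport ℝ (fun h => hi (hts i h))
      simp [this]) _ (mul_nonneg (Nat.cast_nonneg K) hDv) hone
    refine h4.trans (le_of_eq ?_)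
    ring


end MYoung
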