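import Mathlib

namespace MYoung
open MeasureTheory Set

theorem st_deriv_bound : ∃ M0 : ℝ, 0 ≤ M0 ∧ ∀ t : ℝ, |deriv Real.smoothTransition t| ≤ M0 := by
  have hc : Continuous (deriv Real.smoothTransition) := by
    have h : ContDiff ℝ 1 Real.smoothTransition := Real.smoothTransition.contDiff
    exact h.continuous_deriv (le_refl _)
  obtain ⟨C, hC⟩ := (isCompact_Icc (a := (0:ℝ)) (b := 1)).exists_bound_of_continuousOn hc.continuousOn
  refine ⟨C, (norm_nonneg _).trans (hC 0 (by simp)), ?_⟩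
  intro t
  have hC0 : 0 ≤ C := (norm_nonneg _).trans (hC 0 (by simp))
  by_cases h0 : t < 0
  · have : Real.smoothTransition =ᶠ[nhds t] fun _ => (0:ℝ) := by
      filter_upwards [Iio_mem_nhds h0] with s hs
      exact Real.smoothTransition.zero_of_nonpos (le_of_lt hs)
    rw [this.deriv_eq]
    simpa using hC0
  · by_cases h1 : 1 < t
    · have : Real.smoothTransition =ᶠ[nhds t] fun _ => (1:ℝ) := by
        filter_upwards [Ioi_mem_nhds h1] with s hs
        exact Real.smoothTransition.one_of_one_le (le_of_lt hs)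
      rw [this.deriv_eq]
      simpa using hC0
    · have := hC t ⟨not_lt.1 h0, not_lt.1 h1⟩
      simpa [Real.norm_eq_abs] using this

/-- Sharp smooth cut-off of a bump function at level ξ. -/
theorem sharpen : ∃ M : ℝ, 0 < M ∧ ∀ (L : ℕ), 1 ≤ L → ∀ (ζ : (Fin 3 → ℝ) → ℝ),
    ContDiff ℝ ((⊤ : ℕ∞) : WithTop ℕ∞) ζ → ∀ (ξ : ℝ), 1 / 4 + 1 / (4 * (L : ℝ)) ≤ ξ →
    ξ ≤ 3 / 4 - 1 / (4 * (L : ℝ)) →
    ∃ χ : (Fin 3 → ℝ) → ℝ, ContDiff ℝ ((⊤ : ℕ∞) : WithTop ℕ∞) χ ∧
      (∀ x, 0 ≤ χ x ∧ χ x ≤ 1) ∧ (∀ x, ζ x = 1 → χ x = 1) ∧ tsupport χ ⊆ tsupport ζ ∧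
      (∀ x, ¬ (|ζ x - ξ| < 1 / (4 * (L : ℝ))) → χ x = 0 ∨ χ x = 1) ∧
      (∀ x v, |fderiv ℝ χ x v| ≤ M * L * |fderiv ℝ ζ x v|) := by
  obtain ⟨M0, hM0, hb⟩ := st_deriv_bound
  refine ⟨2 * M0 + 1, by positivity, ?_⟩
  intro L hL ζ hζ ξ h1 h2
  have hLR : (1 : ℝ) ≤ (L : ℝ) := by exact_mod_cast hL
  have hLpos : (0 : ℝ) < (L : ℝ) := by linarith
  have hinv : (1 / (4 * (L : ℝ))) * (2 * L) = 1 / 2 := by field_simp; norm_num
  have hinvpos : (0 : ℝ) < 1 / (4 * (L : ℝ)) := by positivity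
  refine ⟨fun x => Real.smoothTransition ((ζ x - ξ) * (2 * L) + 1 / 2), ?_, ?_, ?_, ?_, ?_, ?_⟩
  · exact Real.smoothTransition.contDiff.comp
      (((hζ.sub contDiff_const).mul contDiff_const).add contDiff_const)
  · exact fun x => ⟨Real.smoothTransition.nonneg _, Real.smoothTransition.le_one _⟩
  · intro x hx
    apply Real.smoothTransition.one_of_one_le
    rw [hx]
    have : (1 / (4 * (L : ℝ))) * (2 * L) ≤ (1 - ξ) * (2 * L) :=
      mul_le_mul_of_nonneg_right (by linarith) (by positivity)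
    linarith
  · apply closure_mono
    intro x hx
    rw [Function.mem_support] at hx ⊢
    intro hz
    apply hx
    apply Real.smoothTransition.zero_of_nonpos
    rw [hz]
    have : (1 / (4 * (L : ℝ))) * (2 * L) ≤ ξ * (2 * L) :=
      mul_le_mul_of_nonneg_right (by linarith) (by positivity)
    linarith
  · intro x hx
    rw [not_lt, le_abs] at hx
    rcases hx with hx | hx
    · right
      apply Real.smoothTransition.one_of_one_le
      have : (1 / (4 * (L : ℝ))) * (2 * L) ≤ (ζ x - ξ) * (2 * L) :=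
        mul_le_mul_of_nonneg_right hx (by positivity)
      linarith
    · left
      apply Real.smoothTransition.zero_of_nonpos
      have : (1 / (4 * (L : ℝ))) * (2 * L) ≤ (-(ζ x - ξ)) * (2 * L) :=
        mul_le_mul_of_nonneg_right hx (by positivity)
      linarith
  · intro x v
    have hd : HasFDerivAt ζ (fderiv ℝ ζ x) x :=
      ((hζ.differentiable (by simp)) x).hasFDerivAt
    have hg : HasFDerivAt (fun x => (ζ x - ξ) * (2 * (L : ℝ)) + 1 / 2)
        ((2 * (L : ℝ)) • fderiv ℝ ζ x) x := by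
      have := ((hd.sub_const ξ).mul_const (2 * (L : ℝ))).add_const (1 / 2 : ℝ)
      exact this
    have hst : HasDerivAt Real.smoothTransition
        (deriv Real.smoothTransition ((ζ x - ξ) * (2 * (L : ℝ)) + 1 / 2))
        ((ζ x - ξ) * (2 * (L : ℝ)) + 1 / 2) := by
      have hc : ContDiff ℝ 1 Real.smoothTransition := Real.smoothTransition.contDiff
      exact (hc.differentiable (by simp) _).hasDerivAt
    have hcomp := hst.comp_hasFDerivAt x hg
    have heq : fderiv ℝ (fun x => Real.smoothTransition ((ζ x - ξ) * (2 * (L:ℝ)) + 1 / 2)) x v =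
        deriv Real.smoothTransition ((ζ x - ξ) * (2 * (L : ℝ)) + 1 / 2) *
          ((2 * (L : ℝ)) * fderiv ℝ ζ x v) := by
      have h3 := hcomp.fderiv
      have h4 : (fun x => Real.smoothTransition ((ζ x - ξ) * (2 * (L:ℝ)) + 1 / 2)) =
        Real.smoothTransition ∘ (fun x => (ζ x - ξ) * (2 * (L : ℝ)) + 1 / 2) := rfl
      rw [h4, h3]
      simp [smul_eq_mul]
    rw [heq, abs_mul, abs_mul, abs_of_pos (show (0:ℝ) < 2 * (L:ℝ) by positivity)]
    have h5 := hb ((ζ x - ξ) * (2 * (L : ℝ)) + 1 / 2)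
    have h6 : 0 ≤ |fderiv ℝ ζ x v| := abs_nonneg _
    calc _ ≤ M0 * (2 * (L:ℝ) * |fderiv ℝ ζ x v|) :=
          mul_le_mul_of_nonneg_right h5 (by positivity)
      _ ≤ (2 * M0 + 1) * L * |fderiv ℝ ζ x v| := by
          have : 0 ≤ (L:ℝ) * |fderiv ℝ ζ x v| := by positivity
          nlinarith


end MYoung
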