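import Mathlib
import Pool.Agent.Helper343.MY.Field
import Pool.Agent.Helper343.MY.Scale
import Pool.Agent.Helper343.MY.Octant
import Pool.Agent.Helper343.MY.Holder
import Pool.Agent.Helper343.MY.Energy
import Pool.Agent.Helper343.MY.Net
import Pool.Agent.Helper343.MY.Bumps
import Pool.Agent.Helper343.MY.Cells
import Pool.Agent.Helper343.MY.Layer
import Pool.Agent.Helper343.MY.Sharpen
import Pool.Agent.Helper343.MY.SeqProd
import Pool.Agent.Helper343.MY.Partition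
import Pool.Agent.Helper343.MY.DerivCombo
import Pool.Agent.Helper343.MY.Normalise

namespace MYoung
open MeasureTheory Set

theorem partition' : ∃ C : ℝ, 0 < C ∧ ∀ (ρ : (Fin 3 → ℝ) → ℝ), (∀ x, 0 ≤ ρ x) → Integrable ρ →
      ∀ (ε : ℝ), 0 < ε → ∀ (r : (Fin 3 → ℝ) → ℝ) (r0 : ℝ), 0 < r0 → (∀ x, r0 ≤ r x) →
      (∀ x y, r y ≤ r x + dist x y) →
      (∀ x, ∫ y in Metric.closedBall x (r x), ρ y = ε) →
      ∀ (L : ℕ), 1 ≤ L →
      ∃ (n : ℕ) (Q : Fin n → (Fin 3 → ℝ) → ℝ) (B : Set (Fin 3 → ℝ)),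
        (∀ i, ContDiff ℝ ((⊤ : ℕ∞) : WithTop ℕ∞) (Q i)) ∧
        (∀ i x, 0 ≤ Q i x) ∧ (∀ x, ∑ i, Q i x = 1) ∧
        (∀ x, {i | x ∈ tsupport (Q i)}.ncard ≤ 4097) ∧
        (∀ i, ∫ y in tsupport (Q i), ρ y ≤ ε) ∧
        MeasurableSet B ∧ (∀ x, x ∉ B → ∃ i, Q i x = 1) ∧
        (∫ x in B, ρ x ≤ (4097 / (L : ℝ)) * ∫ x, ρ x) ∧
        (∀ x v, ∑ i, |fderiv ℝ (Q i) x v| ≤ C * L / r x * ‖v‖) :=
  partition (cells net bumps) layer sharpen seqprod

/-- The fields with identity Gram matrix and controlled derivatives, for one density with mass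
larger than `ε`. -/
theorem fieldU_big (ε : ℝ) (hε : 0 < ε) (hε1 : ε ≤ 1 / 1000000) : ∃ C : ℝ, 0 < C ∧
    ∀ (N : ℕ), 1 ≤ N → ∀ (ρ : (Fin 3 → ℝ) → ℝ), Measurable ρ → (∀ x, 0 ≤ ρ x) →
    Integrable ρ → ∫ x, ρ x = N →
    ∃ U : Fin N → (Fin 3 → ℝ) → ℝ, (∀ j, ContDiff ℝ ((⊤ : ℕ∞) : WithTop ℕ∞) (U j)) ∧
      (∀ x, ∑ j, U j x ^ 2 = 1) ∧
      (∀ j k, ∫ x, ρ x * (U j x * U k x) = if j = k then 1 else 0) ∧
      (∃ B : ℝ, ∀ j x v, |fderiv ℝ (U j) x v| ≤ B * ‖v‖) ∧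
      (∀ x v, ∑ j, U j x * fderiv ℝ (U j) x v = 0) ∧
      ∫⁻ x, ENNReal.ofReal (ρ x * ∑ j, ∑ k, (fderiv ℝ (U j) x (Pi.single k 1)) ^ 2) ≤
        ENNReal.ofReal C * ∫⁻ x, ENNReal.ofReal (ρ x) ^ (5 / 3 : ℝ) := by
  obtain ⟨C0, hC0, hpart⟩ := partition'
  set L : ℕ := 10 ^ 14 with hL
  set c : ℝ := 9 / (16 * ((4097 : ℕ) : ℝ)) with hc
  have hcpos : 0 < c := by rw [hc]; positivity
  set C1 : ℝ := 3 * (4 * (C0 * L) ^ 2 / c) with hC1
  have hLpos : (0 : ℝ) < L := by rw [hL]; positivity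
  have hC1pos : 0 < C1 := by rw [hC1]; positivity
  refine ⟨C1 * (4 * ε ^ (-(5 / 3 : ℝ)) * (8 * ε)), by positivity, ?_⟩
  intro N hN ρ hm h0 hi hint
  have hN1 : (1 : ℝ) ≤ N := by exact_mod_cast hN
  obtain ⟨r, ⟨r0, hr0, hr⟩, hlip, hball⟩ := scale_exists ρ h0 hi ε hε (by rw [hint]; linarith)
  have hrpos : ∀ x, 0 < r x := fun x => lt_of_lt_of_le hr0 (hr x)
  obtain ⟨n, Q, B, hQs, hQ0, hQ1, hov, hmass, hBm, hpure, hBmass, hder⟩ :=
    hpart ρ h0 hi ε hε r r0 hr0 hr hlip hball L (by rw [hL]; norm_num)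
  set μ : Measure (Fin 3 → ℝ) := volume.withDensity (fun x => ENNReal.ofReal (ρ x)) with hμdef
  have : IsFiniteMeasure μ := isFiniteMeasure_withDensity_ofReal hi.2
  have hμreal : ∀ s, MeasurableSet s → μ.real s = ∫ y in s, ρ y := by
    intro s hs
    rw [Measure.real, hμdef, withDensity_apply _ hs,
      ← ofReal_integral_eq_lintegral_ofReal hi.integrableOn (ae_of_all _ h0),
      ENNReal.toReal_ofReal (setIntegral_nonneg hs fun x _ => h0 x)]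
  have hμuniv : μ.real univ = N := by
    rw [hμreal _ MeasurableSet.univ, setIntegral_univ, hint]
  have hμint : ∀ f : (Fin 3 → ℝ) → ℝ, ∫ x, f x ∂μ = ∫ x, ρ x * f x := by
    intro f
    rw [hμdef, integral_withDensity_eq_integral_toReal_smul hm.ennreal_ofReal
      (ae_of_all _ fun x => ENNReal.ofReal_lt_top)]
    apply integral_congr_ae
    refine ae_of_all _ fun x => ?_
    simp only [smul_eq_mul]
    rw [ENNReal.toReal_ofReal (h0 x)]
  have hsqrt : Real.sqrt ((4097 : ℕ) : ℝ) ≤ 65 := by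
    rw [Real.sqrt_le_left (by norm_num)]
    norm_num
  obtain ⟨A, hA1, hA2, hA3⟩ := field μ N hN hμuniv n 4097 (by norm_num) Q
    (fun i => (hQs i).continuous.measurable) hQ0 hQ1 (fun i => tsupport (Q i))
    (fun i => (isClosed_tsupport _).measurableSet)
    (fun i x hx => image_eq_zero_of_notMem_tsupport hx) hov B hBm hpure ε (4097 / (L : ℝ)) hε
    (by positivity)
    (fun i => by rw [hμreal _ (isClosed_tsupport _).measurableSet]; exact hmass i)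
    (by rw [hμreal _ hBm, ← hint]; exact hBmass) 130 (by linarith)
    (by
      rw [hL]
      push_cast
      linarith)
  set W : Fin N → (Fin 3 → ℝ) → ℝ := fun j x => ∑ i, A j i * Q i x with hWdef
  have hWs : ∀ j, ContDiff ℝ ((⊤ : ℕ∞) : WithTop ℕ∞) (W j) :=
    (deriv_combo n N Q hQs A hA1 W (fun j x => rfl) 0 0 _ le_rfl).1
  obtain ⟨U, hUs, hUW, hU1, hUd, hUdU⟩ := normalise N W hWs c hcpos hA2
  have hUd' : ∀ x v, ∑ j, (fderiv ℝ (U j) x v) ^ 2 ≤ 4 * (C0 * L / r x * ‖v‖) ^ 2 / c := by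
    intro x v
    refine le_trans (hUd x v) ?_
    exact div_le_div_of_nonneg_right
      ((deriv_combo n N Q hQs A hA1 W (fun j x => rfl) x v _ (hder x v)).2) hcpos.le
  refine ⟨U, hUs, hU1, ?_, ?_, hUdU, ?_⟩
  · intro j k
    rw [← hA3 j k, hμint]
    apply integral_congr_ae
    refine ae_of_all _ fun x => ?_
    simp only
    congr 1
    rw [hUW, hUW, div_mul_div_comm, Real.mul_self_sqrt (le_trans hcpos.le (hA2 x))]
  · refine ⟨Real.sqrt (4 / c) * (C0 * L / r0), ?_⟩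
    intro j x v
    have h1 : (fderiv ℝ (U j) x v) ^ 2 ≤ 4 * (C0 * L / r x * ‖v‖) ^ 2 / c :=
      le_trans (Finset.single_le_sum (f := fun j => (fderiv ℝ (U j) x v) ^ 2)
        (fun i _ => sq_nonneg _) (Finset.mem_univ j)) (hUd' x v)
    have h2 : C0 * L / r x * ‖v‖ ≤ C0 * L / r0 * ‖v‖ := by
      apply mul_le_mul_of_nonneg_right _ (norm_nonneg _)
      exact div_le_div_of_nonneg_left (by positivity) hr0 (hr x)
    have h3 : 0 ≤ C0 * L / r x * ‖v‖ := by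
      have := hrpos x
      positivity
    apply abs_le_of_sq_le_sq
    · calc (fderiv ℝ (U j) x v) ^ 2 ≤ 4 * (C0 * L / r x * ‖v‖) ^ 2 / c := h1
        _ ≤ 4 * (C0 * L / r0 * ‖v‖) ^ 2 / c := by gcongr
        _ = (Real.sqrt (4 / c) * (C0 * L / r0) * ‖v‖) ^ 2 := by
          rw [mul_pow (C0 * (L : ℝ) / r0) ‖v‖, mul_pow (Real.sqrt (4 / c) * (C0 * L / r0)) ‖v‖,
            mul_pow (Real.sqrt (4 / c)), Real.sq_sqrt (by positivity)]; ring
    · positivity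
  · have hnorm : ∀ k : Fin 3, ‖(Pi.single k (1 : ℝ) : Fin 3 → ℝ)‖ = 1 := by
      intro k
      rw [Pi.norm_single]; simp
    have hpt : ∀ x, ENNReal.ofReal (ρ x * ∑ j, ∑ k, (fderiv ℝ (U j) x (Pi.single k 1)) ^ 2) ≤
        ENNReal.ofReal C1 * (ENNReal.ofReal (ρ x) * ENNReal.ofReal ((r x) ^ 2)⁻¹) := by
      intro x
      have h1 : ∑ j, ∑ k, (fderiv ℝ (U j) x (Pi.single k 1)) ^ 2 ≤ C1 * ((r x) ^ 2)⁻¹ := by
        rw [Finset.sum_comm]
        calc ∑ k, ∑ j, (fderiv ℝ (U j) x (Pi.single k 1)) ^ 2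
            ≤ ∑ k : Fin 3, 4 * (C0 * L / r x * 1) ^ 2 / c := by
              apply Finset.sum_le_sum
              intro k _
              have := hUd' x (Pi.single k 1)
              rw [hnorm k] at this
              exact this
          _ = C1 * ((r x) ^ 2)⁻¹ := by
              rw [Finset.sum_const, Finset.card_univ, Fintype.card_fin, hC1]
              have := (hrpos x).ne'
              simp only [nsmul_eq_mul, Nat.cast_ofNat]
              field_simp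
      rw [← ENNReal.ofReal_mul (h0 x), ← ENNReal.ofReal_mul hC1pos.le]
      apply ENNReal.ofReal_le_ofReal
      calc ρ x * ∑ j, ∑ k, (fderiv ℝ (U j) x (Pi.single k 1)) ^ 2
          ≤ ρ x * (C1 * ((r x) ^ 2)⁻¹) := mul_le_mul_of_nonneg_left h1 (h0 x)
        _ = C1 * (ρ x * ((r x) ^ 2)⁻¹) := by ring
    calc ∫⁻ x, ENNReal.ofReal (ρ x * ∑ j, ∑ k, (fderiv ℝ (U j) x (Pi.single k 1)) ^ 2)
        ≤ ∫⁻ x, ENNReal.ofReal C1 * (ENNReal.ofReal (ρ x) * ENNReal.ofReal ((r x) ^ 2)⁻¹) :=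
          lintegral_mono hpt
      _ = ENNReal.ofReal C1 * ∫⁻ x, ENNReal.ofReal (ρ x) * ENNReal.ofReal ((r x) ^ 2)⁻¹ :=
          lintegral_const_mul' _ _ ENNReal.ofReal_ne_top
      _ ≤ ENNReal.ofReal C1 * (ENNReal.ofReal (4 * ε ^ (-(5 / 3 : ℝ))) * ENNReal.ofReal (8 * ε) *
          ∫⁻ y, ENNReal.ofReal (ρ y) ^ (5 / 3 : ℝ)) := by
          gcongr
          exact energy ρ h0 hm hi ε hε r hrpos hlip
            (fun y => octant ρ h0 hi ε hε r hrpos hlip hball y)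
            (fun x => holder_ball ρ h0 hm hi ε hε x (r x) (hrpos x) (hball x))
      _ = ENNReal.ofReal (C1 * (4 * ε ^ (-(5 / 3 : ℝ)) * (8 * ε))) *
          ∫⁻ x, ENNReal.ofReal (ρ x) ^ (5 / 3 : ℝ) := by
          rw [← ENNReal.ofReal_mul (by positivity), ← mul_assoc, ← ENNReal.ofReal_mul hC1pos.le]

/-- The fields for every `N ≥ 1`; the energy vanishes for `N = 1`. -/
theorem fieldU : ∃ C : ℝ, 0 < C ∧
    ∀ (N : ℕ), 1 ≤ N → ∀ (ρ : (Fin 3 → ℝ) → ℝ), Measurable ρ → (∀ x, 0 ≤ ρ x) →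
    Integrable ρ → ∫ x, ρ x = N →
    ∃ U : Fin N → (Fin 3 → ℝ) → ℝ, (∀ j, ContDiff ℝ ((⊤ : ℕ∞) : WithTop ℕ∞) (U j)) ∧
      (∀ x, ∑ j, U j x ^ 2 = 1) ∧
      (∀ j k, ∫ x, ρ x * (U j x * U k x) = if j = k then 1 else 0) ∧
      (∃ B : ℝ, ∀ j x v, |fderiv ℝ (U j) x v| ≤ B * ‖v‖) ∧
      (∀ x v, ∑ j, U j x * fderiv ℝ (U j) x v = 0) ∧
      ∫⁻ x, ENNReal.ofReal (ρ x * ∑ j, ∑ k, (fderiv ℝ (U j) x (Pi.single k 1)) ^ 2) ≤
        ENNReal.ofReal (if N = 1 then 0 else C) * ∫⁻ x, ENNReal.ofReal (ρ x) ^ (5 / 3 : ℝ) := by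
  obtain ⟨C, hC, hbig⟩ := fieldU_big (1 / 1000000) (by norm_num) le_rfl
  refine ⟨C, hC, ?_⟩
  intro N hN ρ hm h0 hi hint
  by_cases h1 : N = 1
  · subst h1
    refine ⟨fun _ _ => 1, fun _ => contDiff_const, fun x => by simp, ?_, ⟨0, ?_⟩, ?_, ?_⟩
    · intro j k
      rw [if_pos (Subsingleton.elim j k)]
      simp only [mul_one]
      rw [hint]; simp
    · intro j x v
      simp
    · intro x v
      simp
    · simp
  · rw [if_neg h1]
    exact hbig N hN ρ hm h0 hi hint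

end MYoung
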