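import Mathlib

namespace MYoung
open MeasureTheory Set

/-- Weak partial derivative of a product with a smooth function. -/
theorem weak_product (k : Fin 3) (f g : (Fin 3 → ℝ) → ℝ) (hf : MemLp f 2) (hg : MemLp g 2)
    (hw : ∀ ψ : (Fin 3 → ℝ) → ℝ, ContDiff ℝ ((⊤ : ℕ∞) : WithTop ℕ∞) ψ → HasCompactSupport ψ →
      ∫ x, (fderiv ℝ ψ x (Pi.single k 1)) • f x = - ∫ x, ψ x • g x)
    (U : (Fin 3 → ℝ) → ℝ) (hU : ContDiff ℝ ((⊤ : ℕ∞) : WithTop ℕ∞) U) :
    ∀ ψ : (Fin 3 → ℝ) → ℝ, ContDiff ℝ ((⊤ : ℕ∞) : WithTop ℕ∞) ψ → HasCompactSupport ψ →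
      ∫ x, (fderiv ℝ ψ x (Pi.single k 1)) • (((f x * U x : ℝ)) : ℂ) =
        - ∫ x, ψ x • (((g x * U x + f x * fderiv ℝ U x (Pi.single k 1) : ℝ)) : ℂ) := by
  intro ψ hψ hψc
  set e : Fin 3 → ℝ := Pi.single k 1 with he
  have hfl : LocallyIntegrable f := hf.locallyIntegrable (by norm_num)
  have hgl : LocallyIntegrable g := hg.locallyIntegrable (by norm_num)
  have hne : ((⊤ : ℕ∞) : WithTop ℕ∞) ≠ 0 := by simp
  have hone : (1 : WithTop ℕ∞) ≤ ((⊤ : ℕ∞) : WithTop ℕ∞) := by
    exact_mod_cast le_top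
  have hχ : ContDiff ℝ ((⊤ : ℕ∞) : WithTop ℕ∞) (fun x => U x * ψ x) := hU.mul hψ
  have hχc : HasCompactSupport (fun x => U x * ψ x) := hψc.mul_left
  have h1 := hw _ hχ hχc
  have hder : ∀ x, fderiv ℝ (fun x => U x * ψ x) x e = U x * fderiv ℝ ψ x e + ψ x * fderiv ℝ U x e := by
    intro x
    have hUd : DifferentiableAt ℝ U x := hU.differentiable hne x
    have hψd : DifferentiableAt ℝ ψ x := hψ.differentiable hne x
    rw [fderiv_fun_mul hUd hψd]
    simp
  simp only [hder] at h1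
  -- continuity of derivatives
  have hdψc : Continuous (fun x => fderiv ℝ ψ x e) := (hψ.continuous_fderiv hne).clm_apply continuous_const
  have hdUc : Continuous (fun x => fderiv ℝ U x e) := (hU.continuous_fderiv hne).clm_apply continuous_const
  have hdψs : HasCompactSupport (fun x => fderiv ℝ ψ x e) := hψc.fderiv_apply ℝ e
  have i1 : Integrable (fun x => (U x * fderiv ℝ ψ x e) • f x) :=
    hfl.integrable_smul_left_of_hasCompactSupport (hU.continuous.mul hdψc) hdψs.mul_left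
  have i2 : Integrable (fun x => (ψ x * fderiv ℝ U x e) • f x) :=
    hfl.integrable_smul_left_of_hasCompactSupport (hψ.continuous.mul hdUc) hψc.mul_right
  have i3 : Integrable (fun x => (U x * ψ x) • g x) :=
    hgl.integrable_smul_left_of_hasCompactSupport (hU.continuous.mul hψ.continuous) hχc
  have hreal : ∫ x, fderiv ℝ ψ x e * (f x * U x) = - ∫ x, ψ x * (g x * U x + f x * fderiv ℝ U x e) := by
    have h2 : ∫ x, (U x * fderiv ℝ ψ x e + ψ x * fderiv ℝ U x e) • f x =
        (∫ x, (U x * fderiv ℝ ψ x e) • f x) + ∫ x, (ψ x * fderiv ℝ U x e) • f x := by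
      rw [← integral_add i1 i2]
      congr 1
      funext x
      rw [add_smul]
    rw [h2] at h1
    have h3 : ∫ x, ψ x * (g x * U x + f x * fderiv ℝ U x e) =
        (∫ x, (U x * ψ x) • g x) + ∫ x, (ψ x * fderiv ℝ U x e) • f x := by
      rw [← integral_add i3 i2]
      congr 1
      funext x
      simp only [smul_eq_mul]
      ring
    have h4 : ∫ x, fderiv ℝ ψ x e * (f x * U x) = ∫ x, (U x * fderiv ℝ ψ x e) • f x := by
      congr 1
      funext x
      simp only [smul_eq_mul]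
      ring
    rw [h3, h4]
    linarith
  have c1 : ∫ x, (fderiv ℝ ψ x e) • (((f x * U x : ℝ)) : ℂ) =
      ((∫ x, fderiv ℝ ψ x e * (f x * U x) : ℝ) : ℂ) := by
    rw [← integral_complex_ofReal]
    congr 1
    funext x
    rw [Complex.real_smul]
    push_cast
    ring
  have c2 : ∫ x, ψ x • (((g x * U x + f x * fderiv ℝ U x e : ℝ)) : ℂ) =
      ((∫ x, ψ x * (g x * U x + f x * fderiv ℝ U x e) : ℝ) : ℂ) := by
    rw [← integral_complex_ofReal]
    congr 1
    funext x
    rw [Complex.real_smul]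
    push_cast
    ring
  rw [c1, c2, hreal]
  push_cast
  ring


end MYoung
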