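import Mathlib
import Pool.Agent.Helper343.MY.Defs
import Pool.Agent.Helper343.MY.Channel
import Pool.Agent.Helper343.MY.Combine
import Pool.Agent.Helper343.MY.WeakProd
import Pool.Agent.Helper343.MY.FieldU

namespace MYoung
open MeasureTheory Set

theorem single : ∃ C : ℝ, 0 < C ∧ 
    ∀ (N : ℕ), 1 ≤ N → ∀ (ρ : (Fin 3 → ℝ) → ℝ) (g : Fin 3 → (Fin 3 → ℝ) → ℝ),
      (∀ x, 0 ≤ ρ x) → Integrable ρ → ∫ x, ρ x = N → (∀ k, MemLp (g k) 2) →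
      (∀ k, WeakPartial k (fun x => Real.sqrt (ρ x)) (g k)) →
      ∃ (φ : Fin N → (Fin 3 → ℝ) → ℂ) (Dφ : Fin N → Fin 3 → (Fin 3 → ℝ) → ℂ),
        (∀ j, MemLp (φ j) 2) ∧ (∀ j k, MemLp (Dφ j k) 2) ∧
        (∀ j k, WeakPartial k (φ j) (Dφ j k)) ∧
        (∀ i j, ∫ x, (starRingEnd ℂ) (φ i x) * φ j x = if i = j then 1 else 0) ∧
        (∀ᵐ x, ∑ j, ‖φ j x‖ ^ 2 = ρ x) ∧
        ∑ j, ∑ k, ∫⁻ x, ‖Dφ j k x‖ₑ ^ 2 ≤ ENNReal.ofReal (if N = 1 then 0 else C) *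
          (∫⁻ x, ENNReal.ofReal (ρ x) ^ (5 / 3 : ℝ)) + ∑ k, ∫⁻ x, ‖g k x‖ₑ ^ 2 := by
  obtain ⟨C, hC, hU⟩ := fieldU
  refine ⟨C, hC, ?_⟩
  intro N hN ρ g h0 hi hint hg hw
  set ρ' : (Fin 3 → ℝ) → ℝ := fun x => |hi.1.mk ρ x| with hρ'
  have hm : Measurable ρ' := (hi.1.stronglyMeasurable_mk.measurable).abs
  have h0' : ∀ x, 0 ≤ ρ' x := fun x => abs_nonneg _
  have hae : ρ =ᵐ[volume] ρ' := by
    filter_upwards [hi.1.ae_eq_mk] with x hx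
    rw [hρ']
    simp only
    rw [← hx, abs_of_nonneg (h0 x)]
  have hi' : Integrable ρ' := hi.congr hae
  have hint' : ∫ x, ρ' x = N := by rw [← hint]; exact (integral_congr_ae hae).symm
  have hw' : ∀ k, WeakPartial k (fun x => Real.sqrt (ρ' x)) (g k) := by
    intro k ψ hψ hψc
    rw [← hw k ψ hψ hψc]
    apply integral_congr_ae
    filter_upwards [hae] with x hx
    rw [hx]
  obtain ⟨U, hUs, hU1, hUo, hUB, hUdU, hUE⟩ := hU N hN ρ' hm h0' hi' hint'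
  obtain ⟨φ, Dφ, h1, h2, h3, h4, h5, h6⟩ := channel weak_product N ρ' h0' hi' g hg hw' U hUs hU1 hUo
    hUB hUdU _ hUE
  refine ⟨φ, Dφ, h1, h2, h3, h4, ?_, ?_⟩
  · filter_upwards [hae] with x hx
    rw [h5, hx]
  · have : ∫⁻ x, ENNReal.ofReal (ρ x) ^ (5 / 3 : ℝ) = ∫⁻ x, ENNReal.ofReal (ρ' x) ^ (5 / 3 : ℝ) := by
      apply lintegral_congr_ae
      filter_upwards [hae] with x hx
      rw [hx]
    rw [this]
    exact h6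

theorem Kc_pos : 0 < Kc := by
  unfold Kc
  positivity

theorem main : ∃ A : ℝ, 0 < A ∧
    ∀ (q N : ℕ), 1 ≤ q → 1 ≤ N → ∀ (ρ : (Fin 3 → ℝ) → ℝ) (g : Fin 3 → (Fin 3 → ℝ) → ℝ),
      (∀ x, 0 ≤ ρ x) → Integrable ρ → (∫ x, ρ x) = N →
      (∀ k, MemLp (g k) 2) → (∀ k, WeakPartial k (fun x => Real.sqrt (ρ x)) (g k)) →
      ∃ (φ : Fin N → Fin q → (Fin 3 → ℝ) → ℂ) (Dφ : Fin N → Fin q → Fin 3 → (Fin 3 → ℝ) → ℂ),
        Admissible q N ρ φ Dφ ∧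
        kinetic q N Dφ ≤
          ENNReal.ofReal (A * ((q : ℝ) ^ (-(2 / 3 : ℝ)) * Kc)) *
              (∫⁻ x, ENNReal.ofReal (ρ x) ^ (5 / 3 : ℝ)) +
            ∑ k, (∫⁻ x, ‖g k x‖ₑ ^ 2) := by
  obtain ⟨C, hC, hS⟩ := single
  refine ⟨2 * C / Kc, div_pos (by linarith) Kc_pos, ?_⟩
  intro q N hq hN ρ g h0 hi hint hg hw
  obtain ⟨φ, Dφ, hA, hT⟩ := combine C hC hS q N hq hN ρ g h0 hi hint hg hw
  refine ⟨φ, Dφ, hA, ?_⟩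
  have : 2 * C / Kc * ((q : ℝ) ^ (-(2 / 3 : ℝ)) * Kc) = 2 * C * (q : ℝ) ^ (-(2 / 3 : ℝ)) := by
    have := Kc_pos.ne'
    field_simp
  rw [this]
  exact hT

end MYoung
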