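import Mathlib

namespace MYoung
open MeasureTheory Set

/-- Assembly of the cells, layers and the sequential products. -/
theorem partition
    (hcells : ∃ C : ℝ, 0 < C ∧ ∀ (ρ : (Fin 3 → ℝ) → ℝ), (∀ x, 0 ≤ ρ x) → Integrable ρ →
      ∀ (ε : ℝ), 0 < ε → ∀ (r : (Fin 3 → ℝ) → ℝ) (r0 : ℝ), 0 < r0 → (∀ x, r0 ≤ r x) →
      (∀ x y, r y ≤ r x + dist x y) →
      (∀ x, ∫ y in Metric.closedBall x (r x), ρ y = ε) →
      ∃ (n : ℕ) (ζ : Fin n → (Fin 3 → ℝ) → ℝ),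
        (∀ i, ContDiff ℝ ((⊤ : ℕ∞) : WithTop ℕ∞) (ζ i)) ∧
        (∀ i x, 0 ≤ ζ i x ∧ ζ i x ≤ 1) ∧
        (∀ x, ∃ i, ζ i x = 1) ∧
        (∀ x, {i | x ∈ tsupport (ζ i)}.ncard ≤ 4097) ∧
        (∀ i, ∫ y in tsupport (ζ i), ρ y ≤ ε) ∧
        (∀ i x v, |fderiv ℝ (ζ i) x v| ≤ C / r x * ‖v‖))
    (hlayer : ∀ (ρ : (Fin 3 → ℝ) → ℝ), (∀ x, 0 ≤ ρ x) → Integrable ρ →
      ∀ (ζ : (Fin 3 → ℝ) → ℝ), Continuous ζ → ∀ (L : ℕ), 1 ≤ L →
      ∃ ξ : ℝ, 1 / 4 + 1 / (4 * (L : ℝ)) ≤ ξ ∧ ξ ≤ 3 / 4 - 1 / (4 * (L : ℝ)) ∧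
      ∫ x in {x | |ζ x - ξ| < 1 / (4 * (L : ℝ))}, ρ x ≤ (1 / (L : ℝ)) * ∫ x in tsupport ζ, ρ x)
    (hsharp : ∃ M : ℝ, 0 < M ∧ ∀ (L : ℕ), 1 ≤ L → ∀ (ζ : (Fin 3 → ℝ) → ℝ),
      ContDiff ℝ ((⊤ : ℕ∞) : WithTop ℕ∞) ζ → ∀ (ξ : ℝ), 1 / 4 + 1 / (4 * (L : ℝ)) ≤ ξ →
      ξ ≤ 3 / 4 - 1 / (4 * (L : ℝ)) →
      ∃ χ : (Fin 3 → ℝ) → ℝ, ContDiff ℝ ((⊤ : ℕ∞) : WithTop ℕ∞) χ ∧
      (∀ x, 0 ≤ χ x ∧ χ x ≤ 1) ∧ (∀ x, ζ x = 1 → χ x = 1) ∧ tsupport χ ⊆ tsupport ζ ∧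
      (∀ x, ¬ (|ζ x - ξ| < 1 / (4 * (L : ℝ))) → χ x = 0 ∨ χ x = 1) ∧
      (∀ x v, |fderiv ℝ χ x v| ≤ M * L * |fderiv ℝ ζ x v|))
    (hseq : ∀ (n K : ℕ) (χ : Fin n → (Fin 3 → ℝ) → ℝ),
      (∀ i, ContDiff ℝ ((⊤ : ℕ∞) : WithTop ℕ∞) (χ i)) →
      (∀ i x, 0 ≤ χ i x ∧ χ i x ≤ 1) → (∀ x, ∃ i, χ i x = 1) →
      (∀ x, {i | x ∈ tsupport (χ i)}.ncard ≤ K) →
      ∀ (D : (Fin 3 → ℝ) → ℝ), (∀ x, 0 ≤ D x) →
      (∀ i x v, |fderiv ℝ (χ i) x v| ≤ D x * ‖v‖) →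
      ∃ Q : Fin n → (Fin 3 → ℝ) → ℝ, (∀ i, ContDiff ℝ ((⊤ : ℕ∞) : WithTop ℕ∞) (Q i)) ∧
      (∀ i x, 0 ≤ Q i x) ∧ (∀ x, ∑ i, Q i x = 1) ∧ (∀ i, tsupport (Q i) ⊆ tsupport (χ i)) ∧
      (∀ x, (∀ i, χ i x = 0 ∨ χ i x = 1) → ∃ i, Q i x = 1) ∧
      (∀ x v, ∑ i, |fderiv ℝ (Q i) x v| ≤ (K : ℝ) ^ 2 * D x * ‖v‖)) :
    ∃ C : ℝ, 0 < C ∧ ∀ (ρ : (Fin 3 → ℝ) → ℝ), (∀ x, 0 ≤ ρ x) → Integrable ρ →
      ∀ (ε : ℝ), 0 < ε → ∀ (r : (Fin 3 → ℝ) → ℝ) (r0 : ℝ), 0 < r0 → (∀ x, r0 ≤ r x) →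
      (∀ x y, r y ≤ r x + dist x y) →
      (∀ x, ∫ y in Metric.closedBall x (r x), ρ y = ε) →
      ∀ (L : ℕ), 1 ≤ L →
      ∃ (n : ℕ) (Q : Fin n → (Fin 3 → ℝ) → ℝ) (B : Set (Fin 3 → ℝ)),
        (∀ i, ContDiff ℝ ((⊤ : ℕ∞) : WithTop ℕ∞) (Q i)) ∧
        (∀ i x, 0 ≤ Q i x) ∧ (∀ x, ∑ i, Q i x = 1) ∧
        (∀ x, {i | x ∈ tsupport (Q i)}.ncard ≤ 4097) ∧
        (∀ i, ∫ y in tsupport (Q i), ρ y ≤ ε) ∧
        MeasurableSet B ∧ (∀ x, x ∉ B → ∃ i, Q i x = 1) ∧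
        (∫ x in B, ρ x ≤ (4097 / (L : ℝ)) * ∫ x, ρ x) ∧
        (∀ x v, ∑ i, |fderiv ℝ (Q i) x v| ≤ C * L / r x * ‖v‖) := by
  classical
  obtain ⟨Cc, hCc, hcells⟩ := hcells
  obtain ⟨M, hM, hsharp⟩ := hsharp
  refine ⟨4097 ^ 2 * M * Cc, by positivity, ?_⟩
  intro ρ hρ0 hρi ε hε r r0 hr0 hr hLip hball L hL
  obtain ⟨n, ζ, hζs, hζ01, hζcov, hζov, hζm, hζd⟩ :=
    hcells ρ hρ0 hρi ε hε r r0 hr0 hr hLip hball
  choose ξ hξ1 hξ2 hξ3 using fun i => hlayer ρ hρ0 hρi (ζ i) (hζs i).continuous L hL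
  choose χ hχs hχ01 hχ1 hχsupp hχsharp hχd using
    fun i => hsharp L hL (ζ i) (hζs i) (ξ i) (hξ1 i) (hξ2 i)
  have hL0 : (0 : ℝ) < L := by exact_mod_cast hL
  have hrpos : ∀ x, 0 < r x := fun x => hr0.trans_le (hr x)
  have hfinset : ∀ s : Set (Fin n), s.Finite := fun s => s.toFinite
  have hχov : ∀ x, {i | x ∈ tsupport (χ i)}.ncard ≤ 4097 := by
    intro x
    refine (Set.ncard_le_ncard ?_ (hfinset _)).trans (hζov x)
    intro i hi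
    exact hχsupp i hi
  obtain ⟨Q, hQs, hQ0, hQ1, hQsupp, hQsharp, hQd⟩ := hseq n 4097 χ hχs hχ01
    (fun x => by
      obtain ⟨i, hi⟩ := hζcov x
      exact ⟨i, hχ1 i x hi⟩) hχov (fun x => M * L * (Cc / r x))
    (fun x => by
      have := hrpos x
      positivity)
    (fun i x v => by
      calc |fderiv ℝ (χ i) x v| ≤ M * L * |fderiv ℝ (ζ i) x v| := hχd i x v
        _ ≤ M * L * (Cc / r x * ‖v‖) :=
            mul_le_mul_of_nonneg_left (hζd i x v) (by positivity)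
        _ = M * L * (Cc / r x) * ‖v‖ := by ring)
  set lay : Fin n → Set (Fin 3 → ℝ) := fun i => {x | |ζ i x - ξ i| < 1 / (4 * (L : ℝ))} with hlay
  have hlayopen : ∀ i, IsOpen (lay i) := by
    intro i
    exact isOpen_lt (((hζs i).continuous.sub continuous_const).abs) continuous_const
  have hlaym : ∀ i, MeasurableSet (lay i) := fun i => (hlayopen i).measurableSet
  have htsm : ∀ i, MeasurableSet (tsupport (ζ i)) := fun i => (isClosed_tsupport _).measurableSet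
  have hBm : MeasurableSet (⋃ i, lay i) := MeasurableSet.iUnion hlaym
  refine ⟨n, Q, ⋃ i, lay i, hQs, hQ0, hQ1, ?_, ?_, hBm, ?_, ?_, ?_⟩
  · intro x
    refine (Set.ncard_le_ncard ?_ (hfinset _)).trans (hχov x)
    intro i hi
    exact hQsupp i hi
  · intro i
    refine le_trans ?_ (hζm i)
    apply setIntegral_mono_set hρi.integrableOn
    · exact Filter.Eventually.of_forall hρ0
    · exact Filter.Eventually.of_forall (fun x hx => hχsupp i (hQsupp i hx))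
  · intro x hx
    apply hQsharp x
    intro i
    apply hχsharp i x
    intro h
    exact hx (mem_iUnion.2 ⟨i, h⟩)
  · have hi1 : ∀ i, Integrable ((lay i).indicator ρ) := fun i => hρi.indicator (hlaym i)
    have hi2 : ∀ i, Integrable ((tsupport (ζ i)).indicator ρ) := fun i => hρi.indicator (htsm i)
    have h1 : ∫ x in (⋃ i, lay i), ρ x ≤ ∑ i, ∫ x in lay i, ρ x := by
      rw [← integral_indicator hBm]
      have h2 : ∑ i, ∫ x in lay i, ρ x = ∫ x, ∑ i, (lay i).indicator ρ x := by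
        rw [integral_finsetSum _ (fun i _ => hi1 i)]
        apply Finset.sum_congr rfl
        intro i _
        rw [integral_indicator (hlaym i)]
      rw [h2]
      apply integral_mono (hρi.indicator hBm) (integrable_finsetSum _ (fun i _ => hi1 i))
      intro x
      change (⋃ i, lay i).indicator ρ x ≤ ∑ i, (lay i).indicator ρ x
      by_cases hx : x ∈ ⋃ i, lay i
      · rw [indicator_of_mem hx]
        obtain ⟨i, hi⟩ := mem_iUnion.1 hx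
        calc ρ x = (lay i).indicator ρ x := (indicator_of_mem hi _).symm
          _ ≤ ∑ i, (lay i).indicator ρ x :=
            Finset.single_le_sum (f := fun i => (lay i).indicator ρ x)
              (fun j _ => indicator_nonneg (fun y _ => hρ0 y) x) (Finset.mem_univ i)
      · rw [indicator_of_notMem hx]
        exact Finset.sum_nonneg (fun j _ => indicator_nonneg (fun y _ => hρ0 y) x)
    have h3 : ∑ i, ∫ x in tsupport (ζ i), ρ x ≤ 4097 * ∫ x, ρ x := by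
      have h4 : ∑ i, ∫ x in tsupport (ζ i), ρ x = ∫ x, ∑ i, (tsupport (ζ i)).indicator ρ x := by
        rw [integral_finsetSum _ (fun i _ => hi2 i)]
        apply Finset.sum_congr rfl
        intro i _
        rw [integral_indicator (htsm i)]
      rw [h4, ← integral_const_mul]
      apply integral_mono (integrable_finsetSum _ (fun i _ => hi2 i)) (hρi.const_mul _)
      intro x
      change ∑ i, (tsupport (ζ i)).indicator ρ x ≤ 4097 * ρ x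
      have h5 : ∑ i, (tsupport (ζ i)).indicator ρ x
          = (({i | x ∈ tsupport (ζ i)} : Set (Fin n)).ncard : ℝ) * ρ x := by
        have h6 : ∀ i, (tsupport (ζ i)).indicator ρ x
            = if x ∈ tsupport (ζ i) then ρ x else 0 := fun i => by
          rw [indicator_apply]
        rw [Finset.sum_congr rfl (fun i _ => h6 i), ← Finset.sum_filter, Finset.sum_const,
          nsmul_eq_mul]
        congr 2
        rw [← Set.ncard_coe_finset]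
        congr 1
        ext i
        simp
      rw [h5]
      apply mul_le_mul_of_nonneg_right _ (hρ0 x)
      exact_mod_cast hζov x
    calc ∫ x in (⋃ i, lay i), ρ x ≤ ∑ i, ∫ x in lay i, ρ x := h1
      _ ≤ ∑ i, (1 / (L : ℝ)) * ∫ x in tsupport (ζ i), ρ x :=
          Finset.sum_le_sum (fun i _ => hξ3 i)
      _ = (1 / (L : ℝ)) * ∑ i, ∫ x in tsupport (ζ i), ρ x := by rw [Finset.mul_sum]
      _ ≤ (1 / (L : ℝ)) * (4097 * ∫ x, ρ x) := mul_le_mul_of_nonneg_left h3 (by positivity)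
      _ = (4097 / (L : ℝ)) * ∫ x, ρ x := by ring
  · intro x v
    refine (hQd x v).trans (le_of_eq ?_)
    push_cast
    ring


end MYoung
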